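import Mathlib

/-!
Rich words: shared definitions and a decision lemma.
-/

set_option autoImplicit false

namespace Pool.Agent.V11171.Rich

/-- The set of palindromic factors of a finite word (the empty word included). -/
def pals {A : Type} (w : List A) : Set (List A) := {v | v <:+: w ∧ v.reverse = v}

/-- A finite word of length `n` is rich if it has exactly `n + 1` distinct palindromic factors,
the empty word included. -/
def RichWord {A : Type} (w : List A) : Prop := (pals w).encard = w.length + 1

/-- The factor `u_i u_{i+1} ... u_{i+n-1}` of the infinite word `u`. -/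
def factor {A : Type} (u : ℕ → A) (i n : ℕ) : List A := (List.range n).map fun j => u (i + j)

/-- An infinite word is rich if each of its finite factors is rich. -/
def RichInf {A : Type} (u : ℕ → A) : Prop := ∀ i n : ℕ, RichWord (factor u i n)

/-- the list of palindromic factors, with repetitions -/
def palList {A : Type} [DecidableEq A] (w : List A) : List (List A) :=
  (w.tails.flatMap List.inits).filter fun v => decide (v.reverse = v)

theorem mem_palList {A : Type} [DecidableEq A] (w v : List A) : v ∈ palList w ↔ v ∈ pals w := by
  simp only [palList, List.mem_filter, List.mem_flatMap, List.mem_tails, List.mem_inits,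
    decide_eq_true_eq, pals, Set.mem_ofPred_eq, List.infix_iff_prefix_suffix]
  constructor
  · rintro ⟨⟨t, h1, h2⟩, h3⟩
    exact ⟨⟨t, h2, h1⟩, h3⟩
  · rintro ⟨⟨t, h1, h2⟩, h3⟩
    exact ⟨⟨t, h2, h1⟩, h3⟩

theorem encard_pals {A : Type} [DecidableEq A] (w : List A) :
    (pals w).encard = ((palList w).toFinset.card : ℕ∞) := by
  have : pals w = ((palList w).toFinset : Set (List A)) := by
    ext v
    simp [← mem_palList]
  rw [this, Set.encard_coe_eq_coe_finsetCard]

theorem not_rich {A : Type} [DecidableEq A] (w : List A)
    (h : (palList w).toFinset.card < w.length + 1) : ¬ RichWord w := by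
  intro hr
  rw [RichWord, encard_pals] at hr
  have : ((palList w).toFinset.card : ℕ∞) = ((w.length + 1 : ℕ) : ℕ∞) := by
    rw [hr]; push_cast; rfl
  have := Nat.cast_injective (R := ℕ∞) this
  omega

end Pool.Agent.V11171.Rich
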