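import Mathlib
import Pool.Agent.V11171.Rich
set_option autoImplicit false

namespace Pool.Agent.V11171.BiRich

open Pool.Agent.V11171.Rich

/-- The finite word `W(i) W(i+1) ... W(i+n-1)`. -/
def seg {A : Type} (W : ℤ → A) (i : ℤ) (n : ℕ) : List A :=
  (List.range n).map fun k : ℕ => W (i + k)

/-- `W` restricted to the interval `[a,b)` is a palindrome. -/
def palZ {A : Type} (W : ℤ → A) (a b : ℤ) : Prop := ∀ n, a ≤ n → n < b → W n = W (a + b - 1 - n)

/-- the words of length `l` at `i` and at `j` agree -/
def occZ {A : Type} (W : ℤ → A) (i j l : ℤ) : Prop := ∀ n, 0 ≤ n → n < l → W (i + n) = W (j + n)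

theorem seg_length {A : Type} (W : ℤ → A) (i : ℤ) (n : ℕ) : (seg W i n).length = n := by
  simp [seg]

theorem seg_succ {A : Type} (W : ℤ → A) (i : ℤ) (n : ℕ) :
    seg W i (n + 1) = seg W i n ++ [W (i + n)] := by
  simp [seg, List.range_succ]

theorem seg_getElem {A : Type} (W : ℤ → A) (i : ℤ) (n k : ℕ) (h : k < (seg W i n).length) :
    (seg W i n)[k] = W (i + k) := by
  simp [seg]

theorem seg_eq_iff {A : Type} (W : ℤ → A) (i j : ℤ) (n : ℕ) :
    seg W i n = seg W j n ↔ occZ W i j n := by
  constructor
  · intro h m h0 h1
    obtain ⟨k, rfl⟩ := Int.eq_ofNat_of_zero_le h0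
    have hk : k < n := by omega
    have h2 : k < (seg W i n).length := by rw [seg_length]; exact hk
    have h3 : k < (seg W j n).length := by rw [seg_length]; exact hk
    have e1 := seg_getElem W i n k h2
    have e2 := seg_getElem W j n k h3
    rw [← e1, ← e2]
    simp only [h]
  · intro h
    apply List.ext_getElem
    · simp [seg_length]
    · intro k h2 h3
      rw [seg_getElem, seg_getElem]
      rw [seg_length] at h2
      exact h k (by omega) (by omega)

theorem seg_reverse_iff {A : Type} (W : ℤ → A) (i : ℤ) (n : ℕ) :
    (seg W i n).reverse = seg W i n ↔ palZ W i (i + n) := by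
  constructor
  · intro h m h0 h1
    obtain ⟨k, hk⟩ := Int.eq_ofNat_of_zero_le (show 0 ≤ m - i by omega)
    have hkn : k < n := by omega
    have h2 : k < (seg W i n).length := by rw [seg_length]; exact hkn
    have h3 : k < (seg W i n).reverse.length := by simpa [seg_length] using hkn
    have e1 := seg_getElem W i n k h2
    have e2 := List.getElem_reverse (h := h3)
    simp only [h] at e2
    rw [e2, seg_getElem] at e1
    have : m = i + k := by omega
    rw [this, ← e1]
    congr 1
    rw [seg_length]
    omega
  · intro h
    apply List.ext_getElem
    · simp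
    · intro k h2 h3
      rw [List.getElem_reverse, seg_getElem, seg_getElem]
      rw [seg_length] at h3
      rw [h (i + k) (by omega) (by omega)]
      congr 1
      rw [seg_length]
      omega

theorem seg_append {A : Type} (W : ℤ → A) (i : ℤ) (m n : ℕ) :
    seg W i (m + n) = seg W i m ++ seg W (i + m) n := by
  induction n with
  | zero => simp [seg]
  | succ n ih =>
    rw [← add_assoc, seg_succ, ih, seg_succ, List.append_assoc]
    congr 3
    push_cast
    ring_nf

theorem infix_seg {A : Type} (W : ℤ → A) (i : ℤ) (n : ℕ) (v : List A) :
    v <:+: seg W i n ↔ ∃ m l : ℕ, m + l ≤ n ∧ v = seg W (i + m) l := by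
  constructor
  · rintro ⟨s, t, h⟩
    have hl : s.length + v.length + t.length = n := by
      have := congrArg List.length h
      simp only [List.length_append, seg_length] at this
      exact this
    refine ⟨s.length, v.length, by omega, ?_⟩
    apply List.ext_getElem
    · rw [seg_length]
    · intro k h2 h3
      rw [seg_getElem]
      have h4 : s.length + k < (seg W i n).length := by rw [seg_length]; omega
      have e := seg_getElem W i n (s.length + k) h4
      have : i + (s.length : ℤ) + (k : ℤ) = i + ((s.length + k : ℕ) : ℤ) := by push_cast; ring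
      rw [this, ← e]
      simp only [← h]
      rw [List.getElem_append_left (by simp; omega)]
      rw [List.getElem_append_right (by omega)]
      simp
  · rintro ⟨m, l, h, rfl⟩
    obtain ⟨t, rfl⟩ : ∃ t, n = m + l + t := ⟨n - (m + l), by omega⟩
    rw [seg_append, seg_append]
    exact ⟨_, _, rfl⟩

theorem rich_of_returns {A : Type} (W : ℤ → A)
    (H : ∀ i j l : ℤ, 0 ≤ l → i < j → palZ W j (j + l) → occZ W i j l →
      palZ W i (j + l) ∨ ∃ m, i < m ∧ m < j ∧ occZ W m j l) (i : ℤ) (n : ℕ) :
    RichWord (seg W i n) := by
  unfold RichWord
  rw [seg_length]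
  induction n with
  | zero =>
    have : pals (seg W i 0) = {[]} := by
      ext v
      simp only [pals, seg, List.range_zero, List.map_nil, List.infix_nil, Set.mem_ofPred_eq,
        Set.mem_singleton_iff]
      constructor
      · exact fun h => h.1
      · rintro rfl; simp
    rw [this]
    simp
  | succ n ih =>
    classical
    -- longest palindromic suffix
    set Q : ℕ → Prop := fun l => palZ W (i + n + 1 - l) (i + n + 1) with hQ
    have hQ1 : Q 1 := by
      intro m h1 h2
      congr 1
      push_cast at h1 ⊢
      omega
    set L := Nat.findGreatest Q (n + 1) with hL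
    have hL1 : 1 ≤ L := Nat.le_findGreatest (by omega) hQ1
    have hLn : L ≤ n + 1 := Nat.findGreatest_le _
    have hLQ : Q L := Nat.findGreatest_spec (P := Q) (show 1 ≤ n + 1 by omega) hQ1
    have hmax : ∀ l, l ≤ n + 1 → Q l → l ≤ L := fun l h1 h2 => Nat.le_findGreatest h1 h2
    set P := seg W (i + (n + 1 - L : ℕ)) L with hP
    have hnot : P ∉ pals (seg W i n) := by
      rintro ⟨hin, -⟩
      rw [infix_seg] at hin
      obtain ⟨m, l, hml, hv⟩ := hin
      have hlL : l = L := by
        have := congrArg List.length hv
        rw [hP, seg_length, seg_length] at this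
        exact this.symm
      subst hlL
      -- the greatest such m
      set R : ℕ → Prop := fun m => m + L ≤ n ∧ occZ W (i + m) (i + (n + 1 - L : ℕ)) L with hR
      have hRm : R m := ⟨hml, (seg_eq_iff W _ _ _).1 hv.symm⟩
      set M := Nat.findGreatest R n with hM
      have hMR : R M := Nat.findGreatest_spec (P := R) (show m ≤ n by omega) hRm
      have hMmax : ∀ m', m' ≤ n → R m' → m' ≤ M := fun l h1 h2 => Nat.le_findGreatest h1 h2
      have hpal : palZ W (i + (n + 1 - L : ℕ)) (i + (n + 1 - L : ℕ) + L) := by
        have e1 : i + ((n + 1 - L : ℕ) : ℤ) = i + n + 1 - L := by omega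
        have e2 : i + ((n + 1 - L : ℕ) : ℤ) + L = i + n + 1 := by omega
        rw [e2, e1]
        exact hLQ
      rcases H (i + M) (i + (n + 1 - L : ℕ)) L (by omega) (by have := hMR.1; omega) hpal hMR.2 with h | ⟨m', h1, h2, h3⟩
      · have e2 : i + ((n + 1 - L : ℕ) : ℤ) + L = i + n + 1 := by omega
        rw [e2] at h
        have h4 : Q (n + 1 - M) := by
          have e3 : i + (n : ℤ) + 1 - ((n + 1 - M : ℕ) : ℤ) = i + M := by have := hMR.1; omega
          rw [hQ]
          simp only
          rw [e3]
          exact h
        have := hmax _ (by omega) h4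
        have := hMR.1
        omega
      · obtain ⟨q, hq⟩ := Int.eq_ofNat_of_zero_le (show 0 ≤ m' - i by omega)
        have hm' : m' = i + q := by omega
        rw [hm'] at h1 h2 h3
        have := hMmax q (by omega) ⟨by omega, h3⟩
        omega
    have hins : pals (seg W i (n + 1)) = insert P (pals (seg W i n)) := by
      ext v
      simp only [Set.mem_insert_iff]
      constructor
      · rintro ⟨hv1, hv2⟩
        rw [infix_seg] at hv1
        obtain ⟨m, l, hml, rfl⟩ := hv1
        by_cases hlt : m + l ≤ n
        · right
          exact ⟨(infix_seg W i n _).2 ⟨m, l, hlt, rfl⟩, hv2⟩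
        · have hml' : m + l = n + 1 := by omega
          rw [seg_reverse_iff] at hv2
          have e1 : i + (m : ℤ) = i + n + 1 - l := by omega
          have hQl : Q l := by
            rw [hQ]
            simp only
            rw [e1] at hv2
            have e2 : i + (n : ℤ) + 1 - l + l = i + n + 1 := by ring
            rw [e2] at hv2
            exact hv2
          have hlL := hmax l (by omega) hQl
          rcases Nat.lt_or_ge l L with hlt2 | hge
          · right
            have hv3 : seg W (i + m) l = seg W (i + (n + 1 - L : ℕ)) l := by
              rw [seg_eq_iff]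
              intro k h1 h2
              rw [e1]
              have a1 := hQl (i + n + 1 - l + k) (by omega) (by omega)
              have a2 := hLQ (i + n + 1 - L + k) (by omega) (by omega)
              rw [a1]
              have e3 : i + ((n + 1 - L : ℕ) : ℤ) + k = i + n + 1 - L + k := by omega
              rw [e3, a2]
              congr 1
              ring
            refine ⟨?_, (seg_reverse_iff W _ _).2 hv2⟩
            rw [hv3]
            exact (infix_seg W i n _).2 ⟨n + 1 - L, l, by omega, rfl⟩
          · left
            have : l = L := by omega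
            subst this
            rw [hP]
            congr 1
            omega
      · rintro (rfl | ⟨h1, h2⟩)
        · refine ⟨(infix_seg W i (n + 1) _).2 ⟨n + 1 - L, L, by omega, rfl⟩, ?_⟩
          rw [hP, seg_reverse_iff]
          have e1 : i + ((n + 1 - L : ℕ) : ℤ) = i + n + 1 - L := by omega
          have e2 : i + ((n + 1 - L : ℕ) : ℤ) + L = i + n + 1 := by omega
          rw [e2, e1]
          exact hLQ
        · refine ⟨?_, h2⟩
          rw [infix_seg] at h1 ⊢
          obtain ⟨m, l, h3, h4⟩ := h1
          exact ⟨m, l, by omega, h4⟩
    rw [hins, Set.encard_insert_of_notMem hnot, ih]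
    push_cast
    ring

/-- the condition on a pair of occurrences -/
def Cond {A : Type} (W : ℤ → A) (i j l : ℤ) : Prop :=
  i + l < j → palZ W j (j + l) → occZ W i j l →
    palZ W (i + l) j ∨ ∃ m, i < m ∧ m < j ∧ occZ W m j l

theorem rich_of_cond {A : Type} (W : ℤ → A) (H : ∀ i j l : ℤ, 0 ≤ l → Cond W i j l)
    (i : ℤ) (n : ℕ) : RichWord (seg W i n) := by
  apply rich_of_returns
  intro i j l hl hij hp ho
  have key : ∀ n, i ≤ n → n < i + l → W n = W (i + (j + l) - 1 - n) := by
    intro n h1 h2
    have a1 := ho (n - i) (by omega) (by omega)
    have a2 := hp (j + (n - i)) (by omega) (by omega)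
    have e1 : i + (n - i) = n := by ring
    rw [e1] at a1
    rw [a1, a2]
    congr 1
    ring
  rcases lt_or_ge (i + l) j with hlt | hge
  · rcases H i j l hl hlt hp ho with h | h
    · left
      intro n h1 h2
      rcases lt_or_ge n (i + l) with h3 | h3
      · exact key n h1 h3
      · rcases lt_or_ge n j with h4 | h4
        · rw [h n h3 h4]
          congr 1
          ring
        · have a := key (i + (j + l) - 1 - n) (by omega) (by omega)
          rw [a]
          congr 1
          ring
    · right; exact h
  · left
    intro n h1 h2
    rcases lt_or_ge n (i + l) with h3 | h3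
    · exact key n h1 h3
    · have a := key (i + (j + l) - 1 - n) (by omega) (by omega)
      rw [a]
      congr 1
      ring

theorem Cond_shift {A : Type} (W : ℤ → A) (i j l s : ℤ) (hl : 0 ≤ l)
    (hs : ∀ n, i ≤ n → n < j + l → W (n - s) = W n) (h : Cond W (i - s) (j - s) l) :
    Cond W i j l := by
  intro h1 hp ho
  have hs' : ∀ n, i - s ≤ n → n < j - s + l → W n = W (n + s) := by
    intro n h2 h3
    have := hs (n + s) (by omega) (by omega)
    rw [← this]
    congr 1
    ring
  have hp' : palZ W (j - s) (j - s + l) := by
    intro n h2 h3
    have a := hs' n (by omega) (by omega)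
    have b := hs' (j - s + (j - s + l) - 1 - n) (by omega) (by omega)
    have c := hp (n + s) (by omega) (by omega)
    rw [a, b, c]
    congr 1
    ring
  have ho' : occZ W (i - s) (j - s) l := by
    intro n h2 h3
    have a := hs' (i - s + n) (by omega) (by omega)
    have b := hs' (j - s + n) (by omega) (by omega)
    have := ho n h2 h3
    have e1 : i - s + n + s = i + n := by ring
    have e2 : j - s + n + s = j + n := by ring
    rw [a, b, e1, e2, this]
  rcases h (by omega) hp' ho' with h4 | ⟨m, h5, h6, h7⟩
  · left
    intro n h8 h9
    have := h4 (n - s) (by omega) (by omega)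
    have a := hs' (i - s + l + (j - s) - 1 - (n - s)) (by omega) (by omega)
    rw [hs n (by omega) (by omega)] at this
    rw [this, a]
    congr 1
    ring
  · right
    refine ⟨m + s, by omega, by omega, ?_⟩
    intro n h8 h9
    have := h7 n h8 h9
    have a := hs' (m + n) (by omega) (by omega)
    have b := hs' (j - s + n) (by omega) (by omega)
    rw [a, b] at this
    have e1 : m + n + s = m + s + n := by ring
    have e2 : j - s + n + s = j + n := by ring
    rw [e1, e2] at this
    exact this

theorem cond_of_checks {A : Type} (W : ℤ → A)
    (hR : ∀ n, 2 ≤ n → W (n + 5) = W n) (hL : ∀ n, n ≤ -1 → W (n + 5) = W n)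
    (cR : ∀ i j l, 2 ≤ i → i < 7 → i < j → j ≤ i + 5 → 0 ≤ l → l < 5 → Cond W i j l)
    (cL : ∀ i j l, 1 ≤ j + l → j + l ≤ 5 → i < j → j ≤ i + 5 → 0 ≤ l → l < 5 → Cond W i j l)
    (cM : ∀ i j l, 1 ≤ i + l → i + l ≤ 5 → i + l < j → j ≤ 6 → 0 ≤ l → l ≤ 10 → Cond W i j l)
    (i j l : ℤ) (hl : 0 ≤ l) : Cond W i j l := by
  have hRm : ∀ m : ℕ, ∀ n, 2 ≤ n → W (n + 5 * m) = W n := by
    intro m
    induction m with
    | zero => intro n _; simp
    | succ m ih =>
      intro n hn
      have := hR (n + 5 * m) (by omega)
      rw [← ih n hn, ← this]
      congr 1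
      push_cast
      ring
  have hLm : ∀ m : ℕ, ∀ n, n ≤ 4 → W (n - 5 * m) = W n := by
    intro m
    induction m with
    | zero => intro n _; simp
    | succ m ih =>
      intro n hn
      have := hL (n - 5 * (m + 1)) (by omega)
      rw [← ih n hn]
      push_cast
      rw [← this]
      congr 1
      ring
  have hM : ∀ l : ℕ, ∀ e j : ℤ, 1 ≤ e → e ≤ 5 → e < j → j ≤ 6 → Cond W (e - l) j l := by
    intro l
    induction l using Nat.strong_induction_on with
    | _ l ih =>
      intro e j h1 h2 h3 h4
      rcases Nat.lt_or_ge 10 l with hlt | hge
      · intro _ hp ho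
        have key := ih (l - 5) (by omega) e j h1 h2 h3 h4
        have ec : ((l - 5 : ℕ) : ℤ) = (l : ℤ) - 5 := by omega
        rw [ec] at key
        have hp' : palZ W j (j + (l - 5)) := by
          intro n h5 h6
          have a := hp n h5 (by omega)
          rw [a]
          have b := hR (j + (j + (↑l - 5)) - 1 - n) (by omega)
          rw [← b]
          congr 1
          ring
        have ho' : occZ W (e - (l - 5)) j (l - 5) := by
          intro n h5 h6
          have a := ho (n + 5) (by omega) (by omega)
          have b := hR (j + n) (by omega)
          rw [← b]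
          have e1 : e - (l : ℤ) + (n + 5) = e - (l - 5) + n := by ring
          have e2 : j + (n + 5) = j + n + 5 := by ring
          rw [e1, e2] at a
          exact a
        rcases key (by omega) hp' ho' with h5 | ⟨m, h6, h7, h8⟩
        · left
          have e1 : e - (l : ℤ) + l = e - (l - 5) + (l - 5) := by ring
          rw [e1]
          exact h5
        · right
          rcases lt_or_ge m 1 with hm | hm
          · refine ⟨m - 5, by omega, by omega, ?_⟩
            intro n h9 h10
            rcases lt_or_ge n 5 with h11 | h11
            · have a := hL (m - 5 + n) (by omega)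
              rw [← a]
              have b := h8 n h9 (by omega)
              rw [← b]
              congr 1
              ring
            · have a := h8 (n - 5) (by omega) (by omega)
              have b := hR (j + (n - 5)) (by omega)
              have e1 : m + (n - 5) = m - 5 + n := by ring
              have e2 : j + (n - 5) + 5 = j + n := by ring
              rw [e2] at b
              rw [e1] at a
              rw [a, b]
          · refine ⟨m, by omega, by omega, ?_⟩
            intro n h9 h10
            rcases lt_or_ge n ((l : ℤ) - 5) with h11 | h11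
            · exact h8 n h9 h11
            · have a := h8 (n - 5) (by omega) (by omega)
              have b := hR (j + (n - 5)) (by omega)
              have c := hR (m + (n - 5)) (by omega)
              have e2 : j + (n - 5) + 5 = j + n := by ring
              have e3 : m + (n - 5) + 5 = m + n := by ring
              rw [e2] at b
              rw [e3] at c
              rw [b, c, a]
      · exact cM _ _ _ (by omega) (by omega) (by omega) (by omega) (by omega) (by omega)
  rcases lt_or_ge 6 j with hj | hj
  · rcases lt_or_ge i (j - 5) with hi | hi
    · intro _ hp ho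
      right
      refine ⟨j - 5, hi, by omega, ?_⟩
      intro n h1 h2
      have := hR (j - 5 + n) (by omega)
      rw [← this]
      congr 1
      ring
    · rcases lt_or_ge (i + l) j with hlt | hge
      swap
      · intro h; omega
      obtain ⟨m, hm⟩ := Int.eq_ofNat_of_zero_le (show 0 ≤ (i - 2) / 5 by omega)
      apply Cond_shift W i j l (5 * m) hl
      · intro n h1 h2
        have := hRm m (n - 5 * m) (by omega)
        rw [← this]
        congr 1
        ring
      · exact cR _ _ _ (by omega) (by omega) (by omega) (by omega) (by omega) (by omega)
  · rcases lt_or_ge 0 (i + l) with hil | hil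
    · rcases lt_or_ge (i + l) j with hlt | hge
      swap
      · intro h; omega
      obtain ⟨l', rfl⟩ := Int.eq_ofNat_of_zero_le hl
      have := hM l' (i + l') j (by omega) (by omega) hlt hj
      have e : i + (l' : ℤ) - l' = i := by ring
      rw [e] at this
      exact this
    · rcases lt_or_ge (i + 5) j with hi | hi
      · intro _ hp ho
        right
        refine ⟨i + 5, by omega, hi, ?_⟩
        intro n h1 h2
        have a := hL (i + n) (by omega)
        have b := ho n h1 h2
        rw [← b, ← a]
        congr 1
        ring
      · rcases lt_or_ge (i + l) j with hlt | hge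
        swap
        · intro h; omega
        obtain ⟨m, hm⟩ := Int.eq_ofNat_of_zero_le (show 0 ≤ (5 - (j + l)) / 5 by omega)
        apply Cond_shift W i j l (-(5 * m)) hl
        · intro n h1 h2
          have := hLm m (n + 5 * m) (by omega)
          have e : n - -(5 * (m : ℤ)) = n + 5 * m := by ring
          rw [e, ← this]
          congr 1
          ring
        · exact cL _ _ _ (by omega) (by omega) (by omega) (by omega) (by omega) (by omega)

end Pool.Agent.V11171.BiRich
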