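import Mathlib
import Pool.Agent.V11171.Rich

/-!
Mechanical words with irrational slope are Sturmian: exactly `n + 1` factors of length `n`.
-/

set_option autoImplicit false

namespace Pool.Agent.V11171.Sturm

open Pool.Agent.V11171.Rich

/-- An infinite binary word is Sturmian if it has exactly `n + 1` distinct factors of length `n`
for every `n`. -/
def IsSturmian (u : ℕ → ℕ) : Prop :=
  (∀ i, u i = 0 ∨ u i = 1) ∧ ∀ n : ℕ, Set.encard {w : List ℕ | ∃ i, w = factor u i n} = n + 1

/-- the mechanical word of slope `α` and intercept `ρ` -/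
noncomputable def mech (α ρ : ℝ) (m : ℕ) : ℕ := (⌊((m : ℝ) + 1) * α + ρ⌋ - ⌊(m : ℝ) * α + ρ⌋).toNat

theorem factor_eq_iff {A : Type} (u : ℕ → A) (i i' n : ℕ) :
    factor u i n = factor u i' n ↔ ∀ j < n, u (i + j) = u (i' + j) := by
  simp only [factor, List.map_inj_left, List.mem_range]

theorem factor_succ {A : Type} (u : ℕ → A) (i n : ℕ) :
    factor u i (n + 1) = factor u i n ++ [u (i + n)] := by
  simp [factor, List.range_succ]

variable {α ρ : ℝ}

theorem mech_shift (i j : ℕ) :
    mech α ρ (i + j) = (⌊((j : ℝ) + 1) * α + Int.fract (i * α + ρ)⌋ -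
      ⌊(j : ℝ) * α + Int.fract (i * α + ρ)⌋).toNat := by
  have h1 : ((i + j : ℕ) : ℝ) * α + ρ = (j : ℝ) * α + Int.fract (i * α + ρ) + ⌊i * α + ρ⌋ := by
    rw [Int.fract]; push_cast; ring
  have h2 : (((i + j : ℕ) : ℝ) + 1) * α + ρ =
      ((j : ℝ) + 1) * α + Int.fract (i * α + ρ) + ⌊i * α + ρ⌋ := by
    rw [Int.fract]; push_cast; ring
  rw [mech, h1, h2, Int.floor_add_intCast, Int.floor_add_intCast]
  congr 1
  ring

/-- the number of factors of length `n` is at most `n + 1` -/
theorem card_le (n : ℕ) : Set.encard {w : List ℕ | ∃ i, w = factor (mech α ρ) i n} ≤ n + 1 := by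
  classical
  let D : ℕ → Finset ℕ := fun i => (Finset.Icc 1 n).filter
    (fun j => ⌊(j : ℝ) * α⌋ < ⌊(j : ℝ) * α + Int.fract (i * α + ρ)⌋)
  have hD : ∀ i i' : ℕ, (D i).card = (D i').card → factor (mech α ρ) i n = factor (mech α ρ) i' n := by
    have key : ∀ i i' : ℕ, Int.fract (i * α + ρ) ≤ Int.fract (i' * α + ρ) →
        (D i).card = (D i').card → factor (mech α ρ) i n = factor (mech α ρ) i' n := by
      intro i i' hle hcard
      have hsub : D i ⊆ D i' := by
        intro j hj
        simp only [D, Finset.mem_filter] at hj ⊢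
        refine ⟨hj.1, lt_of_lt_of_le hj.2 (Int.floor_le_floor (by linarith))⟩
      have heq : D i = D i' := Finset.eq_of_subset_of_card_le hsub hcard.ge
      have hfl : ∀ j ≤ n, ⌊(j : ℝ) * α + Int.fract (i * α + ρ)⌋ =
          ⌊(j : ℝ) * α + Int.fract (i' * α + ρ)⌋ := by
        intro j hj
        have b1 : ∀ k : ℕ, ⌊(j : ℝ) * α⌋ ≤ ⌊(j : ℝ) * α + Int.fract (k * α + ρ)⌋ := fun k =>
          Int.floor_le_floor (by linarith [Int.fract_nonneg ((k : ℝ) * α + ρ)])
        have b2 : ∀ k : ℕ, ⌊(j : ℝ) * α + Int.fract (k * α + ρ)⌋ ≤ ⌊(j : ℝ) * α⌋ + 1 := fun k => by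
          have h1 : (j : ℝ) * α + Int.fract (k * α + ρ) ≤ (j : ℝ) * α + 1 := by
            linarith [Int.fract_lt_one ((k : ℝ) * α + ρ)]
          calc ⌊(j : ℝ) * α + Int.fract (k * α + ρ)⌋ ≤ ⌊(j : ℝ) * α + 1⌋ := Int.floor_le_floor h1
            _ = ⌊(j : ℝ) * α⌋ + 1 := Int.floor_add_one _
        rcases Nat.eq_zero_or_pos j with rfl | hj0
        · have z : ∀ k : ℕ, ⌊((0 : ℕ) : ℝ) * α + Int.fract (k * α + ρ)⌋ = 0 := fun k => by
            simp
          rw [z, z]
        · have hmem : j ∈ D i ↔ j ∈ D i' := by rw [heq]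
          simp only [D, Finset.mem_filter, Finset.mem_Icc] at hmem
          have hmem' : (⌊(j : ℝ) * α⌋ < ⌊(j : ℝ) * α + Int.fract (i * α + ρ)⌋ ↔
              ⌊(j : ℝ) * α⌋ < ⌊(j : ℝ) * α + Int.fract (i' * α + ρ)⌋) := by
            constructor
            · intro h; exact (hmem.1 ⟨⟨hj0, hj⟩, h⟩).2
            · intro h; exact (hmem.2 ⟨⟨hj0, hj⟩, h⟩).2
          have c1 := b1 i
          have c2 := b2 i
          have c3 := b1 i'
          have c4 := b2 i'
          by_cases h : ⌊(j : ℝ) * α⌋ < ⌊(j : ℝ) * α + Int.fract (i * α + ρ)⌋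
          · have := hmem'.1 h
            omega
          · have h' : ¬ ⌊(j : ℝ) * α⌋ < ⌊(j : ℝ) * α + Int.fract (i' * α + ρ)⌋ := fun h2 =>
              h (hmem'.2 h2)
            omega
      rw [factor_eq_iff]
      intro j hj
      rw [mech_shift, mech_shift]
      have e1 := hfl j (by omega)
      have e2 := hfl (j + 1) (by omega)
      push_cast at e2
      rw [e1, e2]
    intro i i' hcard
    rcases le_total (Int.fract (i * α + ρ)) (Int.fract (i' * α + ρ)) with h | h
    · exact key i i' h hcard
    · exact (key i' i h hcard.symm).symm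
  -- choose an index for every factor
  have hch : ∀ w : List ℕ, w ∈ {w : List ℕ | ∃ i, w = factor (mech α ρ) i n} →
      ∃ i, w = factor (mech α ρ) i n := fun w hw => hw
  let g : List ℕ → ℕ := fun w => if h : ∃ i, w = factor (mech α ρ) i n then
    (D (Classical.choose h)).card else 0
  have hmap : Set.MapsTo g {w : List ℕ | ∃ i, w = factor (mech α ρ) i n}
      (↑(Finset.range (n + 1)) : Set ℕ) := by
    intro w hw
    have hw' : ∃ i, w = factor (mech α ρ) i n := hw
    simp only [g, dif_pos hw', Finset.coe_range, Set.mem_Iio]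
    have : (D (Classical.choose hw')).card ≤ (Finset.Icc 1 n).card :=
      Finset.card_le_card (Finset.filter_subset _ _)
    simp only [Nat.card_Icc] at this
    omega
  have hinj : Set.InjOn g {w : List ℕ | ∃ i, w = factor (mech α ρ) i n} := by
    intro w hw w' hw' h
    have h1 : ∃ i, w = factor (mech α ρ) i n := hw
    have h2 : ∃ i, w' = factor (mech α ρ) i n := hw'
    simp only [g, dif_pos h1, dif_pos h2] at h
    rw [Classical.choose_spec h1, Classical.choose_spec h2]
    exact hD _ _ h
  calc Set.encard {w : List ℕ | ∃ i, w = factor (mech α ρ) i n}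
      ≤ Set.encard (↑(Finset.range (n + 1)) : Set ℕ) := Set.encard_le_encard_of_injOn hmap hinj
    _ = n + 1 := by rw [Set.encard_coe_eq_coe_finsetCard]; simp

/-- Morse-Hedlund: if the number of factors does not increase from length `n` to `n + 1`, the word
is eventually periodic. -/
theorem morse_hedlund {A : Type} (u : ℕ → A) (n : ℕ)
    (hfin : {w : List A | ∃ i, w = factor u i n}.Finite)
    (hfin' : {w : List A | ∃ i, w = factor u i (n + 1)}.Finite)
    (hle : Set.encard {w : List A | ∃ i, w = factor u i (n + 1)} ≤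
      Set.encard {w : List A | ∃ i, w = factor u i n}) :
    ∃ p > 0, ∃ N : ℕ, ∀ m ≥ N, u (m + p) = u m := by
  classical
  have himg : (List.take n) '' {w : List A | ∃ i, w = factor u i (n + 1)} =
      {w : List A | ∃ i, w = factor u i n} := by
    have htake : ∀ i, (factor u i (n + 1)).take n = factor u i n := fun i => by
      rw [factor_succ]
      have hl : (factor u i n).length = n := by simp [factor]
      rw [List.take_append_of_le_length hl.ge, List.take_of_length_le hl.le]
    ext w
    constructor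
    · rintro ⟨v, ⟨i, rfl⟩, rfl⟩
      exact ⟨i, htake i⟩
    · rintro ⟨i, rfl⟩
      exact ⟨_, ⟨i, rfl⟩, htake i⟩
  have hinj : Set.InjOn (List.take n) {w : List A | ∃ i, w = factor u i (n + 1)} := by
    apply hfin'.injOn_of_encard_image_eq
    apply le_antisymm (Set.encard_image_le _ _)
    rw [himg]
    exact hle
  have hext : ∀ i i', factor u i n = factor u i' n → u (i + n) = u (i' + n) := by
    intro i i' h
    have h1 : (factor u i (n + 1)).take n = (factor u i' (n + 1)).take n := by
      have hl : ∀ i, (factor u i n).length = n := fun i => by simp [factor]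
      rw [factor_succ, factor_succ, List.take_append_of_le_length (hl i).ge,
        List.take_append_of_le_length (hl i').ge, h]
    have h2 := hinj ⟨i, rfl⟩ ⟨i', rfl⟩ h1
    exact (factor_eq_iff u i i' (n + 1)).1 h2 n (by omega)
  obtain ⟨i, i', hne, heq⟩ : ∃ i i', i ≠ i' ∧ factor u i n = factor u i' n := by
    have : Finite {w : List A | ∃ i, w = factor u i n} := hfin
    obtain ⟨i, i', hne, h⟩ := Finite.exists_ne_map_eq_of_infinite
      (fun i : ℕ => (⟨factor u i n, ⟨i, rfl⟩⟩ : {w : List A | ∃ i, w = factor u i n}))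
    exact ⟨i, i', hne, congrArg Subtype.val h⟩
  wlog hlt : i < i' generalizing i i'
  · exact this i' i hne.symm heq.symm (by omega)
  have hall : ∀ t, factor u (i + t) n = factor u (i' + t) n := by
    intro t
    induction t with
    | zero => exact heq
    | succ t ih =>
      rw [factor_eq_iff] at ih ⊢
      have hn := hext _ _ ((factor_eq_iff _ _ _ _).2 ih)
      intro j hj
      rcases Nat.lt_or_ge (j + 1) n with h | h
      · have := ih (j + 1) h
        rw [show i + (t + 1) + j = i + t + (j + 1) by ring,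
          show i' + (t + 1) + j = i' + t + (j + 1) by ring, this]
      · have hj' : j + 1 = n := by omega
        rw [show i + (t + 1) + j = i + t + n by omega, show i' + (t + 1) + j = i' + t + n by omega,
          hn]
  refine ⟨i' - i, by omega, i + n, fun m hm => ?_⟩
  have := hext _ _ (hall (m - i - n))
  rw [show i + (m - i - n) + n = m by omega,
    show i' + (m - i - n) + n = m + (i' - i) by omega] at this
  exact this.symm

/-- the partial sums of the mechanical word -/
theorem sum_mech (h0 : 0 ≤ α) (m k : ℕ) :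
    (∑ j ∈ Finset.range k, (mech α ρ (m + j) : ℤ)) =
      ⌊((m + k : ℕ) : ℝ) * α + ρ⌋ - ⌊(m : ℝ) * α + ρ⌋ := by
  induction k with
  | zero => simp
  | succ k ih =>
    rw [Finset.sum_range_succ, ih, mech, Int.toNat_of_nonneg]
    · push_cast
      rw [show ((m : ℝ) + k + 1) * α + ρ = ((m : ℝ) + (k + 1)) * α + ρ by ring]
      ring
    · rw [sub_nonneg]
      apply Int.floor_le_floor
      nlinarith

theorem not_eventually_periodic (h0 : 0 ≤ α) (hirr : Irrational α) :
    ¬ ∃ p > 0, ∃ N : ℕ, ∀ m ≥ N, mech α ρ (m + p) = mech α ρ m := by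
  rintro ⟨p, hp, N, h⟩
  -- sums over periods
  set c : ℤ := ∑ j ∈ Finset.range p, (mech α ρ (N + j) : ℤ) with hc
  have hper : ∀ k m : ℕ, N ≤ m → mech α ρ (m + k * p) = mech α ρ m := by
    intro k
    induction k with
    | zero => intro m _; simp
    | succ k ih =>
      intro m hm
      rw [show m + (k + 1) * p = (m + k * p) + p by ring, h _ (by omega), ih m hm]
  have hsum : ∀ k : ℕ, (∑ j ∈ Finset.range (k * p), (mech α ρ (N + j) : ℤ)) = k * c := by
    intro k
    induction k with
    | zero => simp
    | succ k ih =>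
      rw [show (k + 1) * p = k * p + p by ring, Finset.sum_range_add, ih]
      have : ∀ j ∈ Finset.range p, (mech α ρ (N + (k * p + j)) : ℤ) = mech α ρ (N + j) := by
        intro j _
        rw [show N + (k * p + j) = (N + j) + k * p by ring, hper k _ (by omega)]
      rw [Finset.sum_congr rfl this, ← hc]
      push_cast; ring
  have hbound : ∀ k : ℕ, |(k : ℝ) * (p * α - c)| ≤ 1 := by
    intro k
    have h1 := hsum k
    rw [sum_mech h0] at h1
    have h2 : (⌊((N + k * p : ℕ) : ℝ) * α + ρ⌋ : ℝ) - ⌊(N : ℝ) * α + ρ⌋ = k * c := by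
      exact_mod_cast h1
    have a1 := Int.floor_le (((N + k * p : ℕ) : ℝ) * α + ρ)
    have a2 := Int.lt_floor_add_one (((N + k * p : ℕ) : ℝ) * α + ρ)
    have a3 := Int.floor_le ((N : ℝ) * α + ρ)
    have a4 := Int.lt_floor_add_one ((N : ℝ) * α + ρ)
    push_cast at a1 a2 h2
    rw [abs_le]
    constructor <;> nlinarith
  have hzero : (p : ℝ) * α - c = 0 := by
    by_contra hne
    obtain ⟨k, hk⟩ := exists_nat_gt (1 / |(p : ℝ) * α - c|)
    have hpos : 0 < |(p : ℝ) * α - c| := abs_pos.2 hne
    have := hbound k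
    rw [abs_mul, Nat.abs_cast] at this
    rw [div_lt_iff₀ hpos] at hk
    linarith
  have hpR : (p : ℝ) ≠ 0 := by positivity
  have : α = (c : ℝ) / p := by field_simp; linarith
  exact hirr ⟨(c : ℚ) / p, by rw [this]; push_cast; rfl⟩

theorem isSturmian (h0 : 0 ≤ α) (h1 : α < 1) (hirr : Irrational α) : IsSturmian (mech α ρ) := by
  constructor
  · intro i
    have a1 : ⌊((i : ℝ) + 1) * α + ρ⌋ ≤ ⌊(i : ℝ) * α + ρ⌋ + 1 := by
      rw [← Int.floor_add_one]
      exact Int.floor_le_floor (by nlinarith)
    unfold mech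
    omega
  · intro n
    apply le_antisymm (card_le n)
    induction n with
    | zero =>
      have : {w : List ℕ | ∃ i, w = factor (mech α ρ) i 0} = {[]} := by
        ext w; simp [factor]
      rw [this]; simp
    | succ n ih =>
      by_contra hcon
      have hlt := lt_of_not_ge hcon
      have hfin : ∀ n, {w : List ℕ | ∃ i, w = factor (mech α ρ) i n}.Finite := fun n =>
        Set.finite_of_encard_le_coe (k := n + 1) (by exact_mod_cast card_le n)
      refine not_eventually_periodic (ρ := ρ) h0 hirr (morse_hedlund _ n (hfin n) (hfin (n + 1)) ?_)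
      have h2 : ((n + 1 : ℕ) : ℕ∞) + 1 = ((n + 1 + 1 : ℕ) : ℕ∞) := by push_cast; rfl
      rw [h2] at hlt
      have h3 : Set.encard {w : List ℕ | ∃ i, w = factor (mech α ρ) i (n + 1)} ≤
          ((n + 1 : ℕ) : ℕ∞) := by
        rw [Nat.cast_add, Nat.cast_one] at hlt
        exact Order.le_of_lt_add_one hlt
      refine h3.trans ?_
      push_cast
      exact ih

end Pool.Agent.V11171.Sturm
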