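import Mathlib

/-! Leavitt path algebras of finite quivers and Kronecker squares: definitions. -/

namespace Pool.Agent.V11171.LK

/-- A finite quiver: finite types of vertices and arrows, with source and range maps (loops and
multiple arrows are allowed). -/
structure Quiv where
  /-- vertices -/
  V : Type
  /-- arrows -/
  E : Type
  [fV : Fintype V]
  [dV : DecidableEq V]
  [fE : Fintype E]
  [dE : DecidableEq E]
  /-- source -/
  s : E → V
  /-- range -/
  r : E → V

attribute [instance] Quiv.fV Quiv.dV Quiv.fE Quiv.dE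

/-- The Kronecker square: vertices `[u, v]`, arrows the pairs `(e, f)`, and `(e, f)` goes from
`[s e, s f]` to `[r e, r f]`. -/
def Quiv.kron (Q : Quiv) : Quiv where
  V := Q.V × Q.V
  E := Q.E × Q.E
  s p := (Q.s p.1, Q.s p.2)
  r p := (Q.r p.1, Q.r p.2)

/-- The generators `v`, `e`, `e*` of the Leavitt path algebra. -/
inductive Gen (Q : Quiv) : Type
  | vert (v : Q.V) : Gen Q
  | arr (e : Q.E) : Gen Q
  | ghost (e : Q.E) : Gen Q

open FreeAlgebra in
/-- The defining relations of the Leavitt path algebra of a finite quiver. The relation `sum_v`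
says that the unit of the algebra is the sum of the vertices. -/
inductive LRel (K : Type) [Field K] (Q : Quiv) :
    FreeAlgebra K (Gen Q) → FreeAlgebra K (Gen Q) → Prop
  | vv (v w : Q.V) : LRel K Q (ι K (.vert v) * ι K (.vert w)) (if v = w then ι K (.vert v) else 0)
  | sum_v : LRel K Q (∑ v, ι K (.vert v)) 1
  | s_e (e : Q.E) : LRel K Q (ι K (.vert (Q.s e)) * ι K (.arr e)) (ι K (.arr e))
  | e_r (e : Q.E) : LRel K Q (ι K (.arr e) * ι K (.vert (Q.r e))) (ι K (.arr e))
  | r_g (e : Q.E) : LRel K Q (ι K (.vert (Q.r e)) * ι K (.ghost e)) (ι K (.ghost e))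
  | g_s (e : Q.E) : LRel K Q (ι K (.ghost e) * ι K (.vert (Q.s e))) (ι K (.ghost e))
  | ck1 (e f : Q.E) : LRel K Q (ι K (.ghost e) * ι K (.arr f))
      (if e = f then ι K (.vert (Q.r e)) else 0)
  | ck2 (v : Q.V) (hv : ∃ e, Q.s e = v) :
      LRel K Q (∑ e with Q.s e = v, ι K (.arr e) * ι K (.ghost e)) (ι K (.vert v))

/-- The Leavitt path algebra of a finite quiver over a field. -/
abbrev LPA (K : Type) [Field K] (Q : Quiv) : Type := RingQuot (LRel K Q)

end Pool.Agent.V11171.LK
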