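import Mathlib

/-! A ring with a Leavitt family of `n` elements and a trace with values in `R`, `n = 1` in `R`. -/

namespace Pool.Agent.V11171.LK

set_option linter.unusedSectionVars false

open Finsupp

section Trace

variable {Λ : Type} [Fintype Λ] [DecidableEq Λ] {R : Type} [CommRing R]

/-- sum over words of length `k` -/
def sumW : ℕ → (List Λ → R) → R
  | 0, f => f []
  | k + 1, f => ∑ i, sumW k (fun w => f (i :: w))

lemma sumW_last (k : ℕ) (f : List Λ → R) :
    sumW (k + 1) f = sumW k (fun w => ∑ j, f (w ++ [j])) := by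
  induction k generalizing f with
  | zero => simp [sumW]
  | succ k ih =>
    rw [sumW]
    have h : ∀ i, sumW (k + 1) (fun w => f (i :: w)) =
        sumW k (fun w => ∑ j, f (i :: (w ++ [j]))) := fun i => ih _
    rw [Finset.sum_congr rfl (fun i _ => h i)]
    rfl

lemma sumW_congr (k : ℕ) (f g : List Λ → R) (h : ∀ w, w.length = k → f w = g w) :
    sumW k f = sumW k g := by
  induction k generalizing f g with
  | zero => exact h [] rfl
  | succ k ih =>
    rw [sumW, sumW]
    exact Finset.sum_congr rfl (fun i _ => ih _ _ (fun w hw => h _ (by simp [hw])))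

lemma sumW_add (k : ℕ) (f g : List Λ → R) :
    sumW k (fun w => f w + g w) = sumW k f + sumW k g := by
  induction k generalizing f g with
  | zero => rfl
  | succ k ih =>
    rw [sumW, sumW, sumW, ← Finset.sum_add_distrib]
    exact Finset.sum_congr rfl (fun i _ => ih _ _)

lemma sumW_mul (k : ℕ) (r : R) (f : List Λ → R) :
    sumW k (fun w => r * f w) = r * sumW k f := by
  induction k generalizing f with
  | zero => rfl
  | succ k ih =>
    rw [sumW, sumW, Finset.mul_sum]
    exact Finset.sum_congr rfl (fun i _ => ih _)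

lemma sumW_zero (k : ℕ) : sumW k (fun _ : List Λ => (0 : R)) = 0 := by
  have := sumW_mul (Λ := Λ) k (0 : R) (fun _ => 0)
  simpa using this

lemma sumW_one (hn : (Fintype.card Λ : R) = 1) (k : ℕ) : sumW k (fun _ : List Λ => (1 : R)) = 1 := by
  induction k with
  | zero => rfl
  | succ k ih => rw [sumW, Finset.sum_congr rfl (fun i _ => ih)]; simpa using hn

abbrev Op (Λ R : Type) [CommRing R] : Type := Module.End R (List Λ →₀ R)

noncomputable def opX (i : Λ) : Op Λ R := Finsupp.lmapDomain R R (fun w => i :: w)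

noncomputable def opA (j : Λ) : Op Λ R := Finsupp.lmapDomain R R (fun w => w ++ [j])

noncomputable def opY (i : Λ) : Op Λ R :=
  Finsupp.linearCombination R (fun w : List Λ => match w with
    | [] => 0
    | j :: w' => if i = j then single w' (1 : R) else 0)

lemma opX_single (i : Λ) (w : List Λ) (r : R) : opX i (single w r) = single (i :: w) r := by
  simp [opX]

lemma opA_single (j : Λ) (w : List Λ) (r : R) : opA j (single w r) = single (w ++ [j]) r := by
  simp [opA]

lemma opY_nil (i : Λ) (r : R) : opY i (single ([] : List Λ) r) = 0 := by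
  simp [opY]

lemma opY_cons (i j : Λ) (w : List Λ) (r : R) :
    opY i (single (j :: w) r) = if i = j then single w r else 0 := by
  rw [opY, linearCombination_single]
  by_cases h : i = j
  · simp [h]
  · simp [h]

lemma opX_apply_cons (i : Λ) (v : List Λ →₀ R) (w : List Λ) : (opX i v) (i :: w) = v w := by
  exact Finsupp.mapDomain_apply (List.cons_injective) v w

lemma opX_apply_ne (i j : Λ) (hij : i ≠ j) (v : List Λ →₀ R) (w : List Λ) :
    (opX i v) (j :: w) = 0 := by
  apply Finsupp.mapDomain_of_notMem_range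
  rintro ⟨w', hw'⟩
  simp at hw'
  exact hij hw'.1

lemma opA_apply (j : Λ) (v : List Λ →₀ R) (w : List Λ) : (opA j v) (w ++ [j]) = v w := by
  exact Finsupp.mapDomain_apply (List.append_left_injective [j]) v w

lemma opY_apply (i : Λ) (v : List Λ →₀ R) (w : List Λ) : (opY i v) w = v (i :: w) := by
  induction v using Finsupp.induction_linear with
  | zero => simp
  | add f g hf hg => rw [map_add, Finsupp.add_apply, hf, hg, Finsupp.add_apply]
  | single u r =>
    rcases u with _ | ⟨j, u⟩
    · rw [opY_nil]; simp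
    · rw [opY_cons]
      by_cases h : i = j
      · subst h
        rw [if_pos rfl, single_apply, single_apply]
        simp
      · rw [if_neg h, single_apply]
        simp [Ne.symm h]

/-- diagonal coefficient -/
noncomputable def D (T : Op Λ R) (w : List Λ) : R := T (single w 1) w

noncomputable def t (T : Op Λ R) (k : ℕ) : R := sumW k (D T)

def Loc (T : Op Λ R) : Prop :=
  ∃ m d : ℕ, (∀ w : List Λ, m ≤ w.length → ∀ j, T (single (w ++ [j]) 1) = opA j (T (single w 1))) ∧
    (∀ w u : List Λ, (T (single w 1)) u ≠ 0 → w.length ≤ u.length + d)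

lemma expand (T : Op Λ R) (v : List Λ →₀ R) : T v = v.sum (fun u r => r • T (single u 1)) := by
  conv_lhs => rw [← Finsupp.sum_single v]
  rw [Finsupp.sum, map_sum, Finsupp.sum]
  apply Finset.sum_congr rfl
  intro u _
  rw [← map_smul]; simp

lemma comm_supp (T : Op Λ R) (m : ℕ)
    (hT : ∀ w : List Λ, m ≤ w.length → ∀ j, T (single (w ++ [j]) 1) = opA j (T (single w 1)))
    (v : List Λ →₀ R) (hv : ∀ u, v u ≠ 0 → m ≤ u.length) (j : Λ) :
    T (opA j v) = opA j (T v) := by
  have h1 : T (opA j v) = v.sum (fun u r => r • T (opA j (single u 1))) :=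
    expand (T * opA j) v
  have h2 : opA j (T v) = v.sum (fun u r => r • opA j (T (single u 1))) :=
    expand (opA j * T) v
  rw [h1, h2, Finsupp.sum, Finsupp.sum]
  apply Finset.sum_congr rfl
  intro u hu
  rw [opA_single, hT u (hv u (Finsupp.mem_support_iff.mp hu)) j]

lemma Loc.mul {S T : Op Λ R} (hS : Loc S) (hT : Loc T) : Loc (S * T) := by
  obtain ⟨m1, d1, h1, h1'⟩ := hS
  obtain ⟨m2, d2, h2, h2'⟩ := hT
  refine ⟨max m2 (m1 + d2), d1 + d2, ?_, ?_⟩
  · intro w hw j
    rw [Module.End.mul_apply, Module.End.mul_apply, h2 w (le_trans (le_max_left _ _) hw) j]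
    apply comm_supp S m1 h1
    intro u hu
    have := h2' w u hu
    have := le_trans (le_max_right _ _) hw
    omega
  · intro w u hu
    rw [Module.End.mul_apply, expand S, Finsupp.sum, Finsupp.finsetSum_apply] at hu
    obtain ⟨v, hv, hv'⟩ := Finset.exists_ne_zero_of_sum_ne_zero hu
    have e1 := h2' w v (Finsupp.mem_support_iff.mp hv)
    have e2 := h1' v u (by
      intro h0
      apply hv'
      rw [Finsupp.smul_apply, h0, smul_zero])
    omega

lemma Loc.add {S T : Op Λ R} (hS : Loc S) (hT : Loc T) : Loc (S + T) := by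
  obtain ⟨m1, d1, h1, h1'⟩ := hS
  obtain ⟨m2, d2, h2, h2'⟩ := hT
  refine ⟨max m1 m2, max d1 d2, ?_, ?_⟩
  · intro w hw j
    rw [LinearMap.add_apply, LinearMap.add_apply, h1 w (le_trans (le_max_left _ _) hw) j,
      h2 w (le_trans (le_max_right _ _) hw) j, map_add]
  · intro w u hu
    rw [LinearMap.add_apply, Finsupp.add_apply] at hu
    by_cases h : (S (single w 1)) u = 0
    · rw [h, zero_add] at hu
      have := h2' w u hu
      have := le_max_right d1 d2
      omega
    · have := h1' w u h
      have := le_max_left d1 d2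
      omega

lemma Loc.scalar (r : R) : Loc (algebraMap R (Op Λ R) r) := by
  refine ⟨0, 0, ?_, ?_⟩
  · intro w _ j
    rw [Module.algebraMap_end_apply, Module.algebraMap_end_apply, map_smul, opA_single]
  · intro w u hu
    rw [Module.algebraMap_end_apply, Finsupp.smul_apply, single_apply] at hu
    by_cases h : w = u
    · rw [h]; simp
    · rw [if_neg h] at hu; simp at hu

lemma Loc.X (i : Λ) : Loc (opX (R := R) i) := by
  refine ⟨0, 0, ?_, ?_⟩
  · intro w _ j
    rw [opX_single, opX_single, opA_single]; rfl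
  · intro w u hu
    rw [opX_single, single_apply] at hu
    by_cases h : i :: w = u
    · rw [← h]; simp
    · rw [if_neg h] at hu; simp at hu

lemma Loc.Y (i : Λ) : Loc (opY (R := R) i) := by
  refine ⟨1, 1, ?_, ?_⟩
  · intro w hw j
    rcases w with _ | ⟨l, w⟩
    · simp at hw
    · rw [List.cons_append, opY_cons, opY_cons]
      split_ifs
      · rw [opA_single]
      · rw [map_zero]
  · intro w u hu
    rcases w with _ | ⟨l, w⟩
    · simp
    · rw [opY_cons] at hu
      split_ifs at hu
      · rw [single_apply] at hu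
        by_cases h : w = u
        · rw [h]; simp
        · rw [if_neg h] at hu; simp at hu
      · simp at hu

lemma t_succ (hn : (Fintype.card Λ : R) = 1) (T : Op Λ R) (m : ℕ)
    (hT : ∀ w : List Λ, m ≤ w.length → ∀ j, T (single (w ++ [j]) 1) = opA j (T (single w 1)))
    (k : ℕ) (hk : m ≤ k) : t T (k + 1) = t T k := by
  rw [t, sumW_last, t]
  apply sumW_congr
  intro w hw
  have : ∀ j, D T (w ++ [j]) = D T w := by
    intro j
    rw [D, hT w (by omega) j, opA_apply, D]
  rw [Finset.sum_congr rfl (fun j _ => this j), Finset.sum_const, nsmul_eq_mul]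
  rw [Finset.card_univ, hn, one_mul]

def Ev (T : Op Λ R) (r : R) : Prop := ∃ m : ℕ, ∀ k, m ≤ k → t T k = r

lemma Ev.unique {T : Op Λ R} {r s : R} (h1 : Ev T r) (h2 : Ev T s) : r = s := by
  obtain ⟨m1, h1⟩ := h1
  obtain ⟨m2, h2⟩ := h2
  rw [← h1 (max m1 m2) (le_max_left _ _), h2 _ (le_max_right _ _)]

lemma Loc.ev (hn : (Fintype.card Λ : R) = 1) {T : Op Λ R} (h : Loc T) : ∃ r, Ev T r := by
  obtain ⟨m, d, h1, -⟩ := h
  refine ⟨t T m, m, ?_⟩
  intro k hk
  induction k, hk using Nat.le_induction with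
  | base => rfl
  | succ k hk ih => rw [t_succ hn T m h1 k hk, ih]

lemma Ev.add {S T : Op Λ R} {r s : R} (h1 : Ev S r) (h2 : Ev T s) : Ev (S + T) (r + s) := by
  obtain ⟨m1, h1⟩ := h1
  obtain ⟨m2, h2⟩ := h2
  refine ⟨max m1 m2, fun k hk => ?_⟩
  rw [← h1 k (le_trans (le_max_left _ _) hk), ← h2 k (le_trans (le_max_right _ _) hk), t, t, t,
    ← sumW_add]
  rfl

lemma Ev.one (hn : (Fintype.card Λ : R) = 1) : Ev (1 : Op Λ R) 1 := by
  refine ⟨0, fun k _ => ?_⟩
  rw [t, ← sumW_one hn k]
  apply sumW_congr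
  intro w _
  simp [D]

lemma Ev.neg {S : Op Λ R} {r : R} (h1 : Ev S r) : Ev (-S) (-r) := by
  obtain ⟨m1, h1⟩ := h1
  refine ⟨m1, fun k hk => ?_⟩
  rw [← h1 k hk, t, t, ← neg_one_mul, ← sumW_mul]
  apply sumW_congr
  intro w _
  simp [D]

lemma t_X (i : Λ) (T : Op Λ R) (k : ℕ) : t (opX i * T) (k + 1) = t (T * opX i) k := by
  rw [t, sumW, t, Finset.sum_eq_single i]
  · apply sumW_congr
    intro w _
    rw [D, D, Module.End.mul_apply, Module.End.mul_apply, opX_apply_cons, opX_single]
  · intro j _ hj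
    rw [← sumW_zero (Λ := Λ) (R := R) k]
    apply sumW_congr
    intro w _
    rw [D, Module.End.mul_apply, opX_apply_ne i j (Ne.symm hj)]
  · intro h; exact absurd (Finset.mem_univ _) h

lemma t_Y (i : Λ) (T : Op Λ R) (k : ℕ) : t (T * opY i) (k + 1) = t (opY i * T) k := by
  rw [t, sumW, t, Finset.sum_eq_single i]
  · apply sumW_congr
    intro w _
    rw [D, D, Module.End.mul_apply, Module.End.mul_apply, opY_apply, opY_cons, if_pos rfl]
  · intro j _ hj
    rw [← sumW_zero (Λ := Λ) (R := R) k]
    apply sumW_congr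
    intro w _
    rw [D, Module.End.mul_apply, opY_cons, if_neg (Ne.symm hj)]
    simp
  · intro h; exact absurd (Finset.mem_univ _) h

/-- the free algebra on the generators and its representation -/
abbrev FA (Λ R : Type) [CommRing R] : Type := FreeAlgebra R (Λ ⊕ Λ)

noncomputable def rho : FA Λ R →ₐ[R] Op Λ R :=
  FreeAlgebra.lift R (fun g => match g with
    | Sum.inl i => opX i
    | Sum.inr i => opY i)

lemma rho_inl (i : Λ) : rho (FreeAlgebra.ι R (Sum.inl i)) = opX (R := R) i := by
  simp [rho]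

lemma rho_inr (i : Λ) : rho (FreeAlgebra.ι R (Sum.inr i)) = opY (R := R) i := by
  simp [rho]

lemma rho_loc (a : FA Λ R) : Loc (rho a) := by
  induction a using FreeAlgebra.induction with
  | grade0 r => rw [AlgHom.commutes]; exact Loc.scalar r
  | grade1 g =>
    rcases g with i | i
    · rw [rho_inl]; exact Loc.X i
    · rw [rho_inr]; exact Loc.Y i
  | mul a b ha hb => rw [map_mul]; exact ha.mul hb
  | add a b ha hb => rw [map_add]; exact ha.add hb

open Classical in
noncomputable def tau (a : FA Λ R) : R := if h : ∃ r, Ev (rho a) r then h.choose else 0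

variable (hn : (Fintype.card Λ : R) = 1)
include hn

lemma tau_ev (a : FA Λ R) : Ev (rho a) (tau a) := by
  have h := (rho_loc a).ev hn
  rw [tau, dif_pos h]; exact h.choose_spec

lemma tau_eq (a : FA Λ R) (r : R) (h : Ev (rho a) r) : tau a = r := (tau_ev hn a).unique h

lemma tau_add (a b : FA Λ R) : tau (a + b) = tau a + tau b := by
  apply tau_eq hn
  rw [map_add]; exact (tau_ev hn a).add (tau_ev hn b)

lemma tau_one : tau (1 : FA Λ R) = 1 := by
  apply tau_eq hn
  rw [map_one]; exact Ev.one hn

lemma tau_neg (a : FA Λ R) : tau (-a) = - tau a := by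
  apply tau_eq hn
  rw [map_neg]; exact (tau_ev hn a).neg

lemma tau_zero : tau (0 : FA Λ R) = 0 := by
  have := tau_add hn (0 : FA Λ R) 0
  rw [add_zero] at this
  linear_combination -this

lemma tau_mul_comm (a b : FA Λ R) : tau (a * b) = tau (b * a) := by
  induction a using FreeAlgebra.induction generalizing b with
  | grade0 r => rw [Algebra.commutes]
  | grade1 g =>
    rcases g with i | i
    · apply tau_eq hn
      obtain ⟨m, hm⟩ := tau_ev hn (b * FreeAlgebra.ι R (Sum.inl i))
      refine ⟨m + 1, fun k hk => ?_⟩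
      obtain ⟨k, rfl⟩ : ∃ k', k = k' + 1 := ⟨k - 1, by omega⟩
      rw [← hm k (by omega), map_mul, map_mul, rho_inl, t_X]
    · symm
      apply tau_eq hn
      obtain ⟨m, hm⟩ := tau_ev hn (FreeAlgebra.ι R (Sum.inr i) * b)
      refine ⟨m + 1, fun k hk => ?_⟩
      obtain ⟨k, rfl⟩ : ∃ k', k = k' + 1 := ⟨k - 1, by omega⟩
      rw [← hm k (by omega), map_mul, map_mul, rho_inr, t_Y]
  | mul a1 a2 h1 h2 =>
    rw [mul_assoc, h1, mul_assoc, h2, mul_assoc]
  | add a1 a2 h1 h2 => rw [add_mul, mul_add, tau_add hn, tau_add hn, h1, h2]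

/-- the ideal of negligible elements -/
noncomputable def N (hn : (Fintype.card Λ : R) = 1) : Ideal (FA Λ R) where
  carrier := {a | ∀ b c : FA Λ R, tau (b * a * c) = 0}
  add_mem' := by
    intro x y hx hy b c
    rw [mul_add, add_mul, tau_add hn, hx, hy, add_zero]
  zero_mem' := by
    intro b c
    rw [mul_zero, zero_mul, tau_zero hn]
  smul_mem' := by
    intro r x hx b c
    rw [smul_eq_mul, ← mul_assoc]
    exact hx (b * r) c

lemma mem_N (a : FA Λ R) : a ∈ N hn ↔ ∀ b c : FA Λ R, tau (b * a * c) = 0 := Iff.rfl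

instance N_two (hn : (Fintype.card Λ : R) = 1) : (N hn).IsTwoSided := ⟨by
  intro a b ha
  rw [mem_N] at ha ⊢
  intro c d
  rw [← mul_assoc, mul_assoc (c * a)]
  exact ha c (b * d)⟩

/-- the trace ring -/
abbrev S9 (hn : (Fintype.card Λ : R) = 1) : Type := FA Λ R ⧸ N hn

noncomputable def mk9 : FA Λ R →+* S9 hn := Ideal.Quotient.mk (N hn)

lemma mk9_surj : Function.Surjective (mk9 hn) := Ideal.Quotient.mk_surjective

noncomputable def tb (s : S9 hn) : R := tau (Classical.choose (mk9_surj hn s))

lemma tb_mk (a : FA Λ R) : tb hn (mk9 hn a) = tau a := by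
  have h := Classical.choose_spec (mk9_surj hn (mk9 hn a))
  set b := Classical.choose (mk9_surj hn (mk9 hn a)) with hb
  have h1 : b - a ∈ N hn := (Ideal.Quotient.eq).mp h
  have h2 := h1 1 1
  rw [one_mul, mul_one, sub_eq_add_neg, tau_add hn, tau_neg hn] at h2
  rw [tb, ← hb]
  linear_combination h2

lemma tb_add (x y : S9 hn) : tb hn (x + y) = tb hn x + tb hn y := by
  obtain ⟨a, rfl⟩ := mk9_surj hn x
  obtain ⟨b, rfl⟩ := mk9_surj hn y
  rw [← map_add, tb_mk, tb_mk, tb_mk, tau_add hn]

lemma tb_comm (x y : S9 hn) : tb hn (x * y) = tb hn (y * x) := by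
  obtain ⟨a, rfl⟩ := mk9_surj hn x
  obtain ⟨b, rfl⟩ := mk9_surj hn y
  rw [← map_mul, ← map_mul, tb_mk, tb_mk, tau_mul_comm hn]

lemma tb_one : tb hn (1 : S9 hn) = 1 := by
  rw [← map_one (mk9 hn), tb_mk, tau_one hn]

noncomputable def X9 (i : Λ) : S9 hn := mk9 hn (FreeAlgebra.ι R (Sum.inl i))
noncomputable def Y9 (i : Λ) : S9 hn := mk9 hn (FreeAlgebra.ι R (Sum.inr i))

lemma rho_zero_mem (a : FA Λ R) (h : rho a = 0) : a ∈ N hn := by
  intro b c
  apply tau_eq hn
  rw [map_mul, map_mul, h, mul_zero, zero_mul]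
  refine ⟨0, fun k _ => ?_⟩
  rw [t, ← sumW_zero (Λ := Λ) (R := R) k]
  apply sumW_congr
  intro w _
  simp [D]

lemma YX (i j : Λ) : Y9 hn i * X9 hn j = if i = j then 1 else 0 := by
  have key : (FreeAlgebra.ι R (Sum.inr i) * FreeAlgebra.ι R (Sum.inl j) : FA Λ R) -
      (if i = j then 1 else 0) ∈ N hn := by
    apply rho_zero_mem
    rw [map_sub, map_mul, rho_inr, rho_inl, sub_eq_zero]
    apply LinearMap.ext
    intro v
    ext w
    rw [Module.End.mul_apply, opY_apply]
    by_cases h : i = j
    · subst h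
      rw [if_pos rfl, map_one, opX_apply_cons]; rfl
    · rw [if_neg h, map_zero, opX_apply_ne j i (Ne.symm h)]; rfl
  have h2 := (Ideal.Quotient.eq_zero_iff_mem).mpr key
  rw [map_sub, map_mul, sub_eq_zero] at h2
  rw [X9, Y9, mk9, h2]
  split_ifs <;> simp

lemma sumXY : ∑ i, X9 hn i * Y9 hn i = 1 := by
  have key : (∑ i : Λ, FreeAlgebra.ι R (Sum.inl i) * FreeAlgebra.ι R (Sum.inr i) : FA Λ R) - 1
      ∈ N hn := by
    intro b c
    apply tau_eq hn
    obtain ⟨m, d, -, hd⟩ := rho_loc c
    refine ⟨d + 1, fun k hk => ?_⟩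
    rw [t, ← sumW_zero (Λ := Λ) (R := R) k]
    apply sumW_congr
    intro w hw
    rw [D, map_mul, map_mul, Module.End.mul_apply, Module.End.mul_apply]
    set v := rho c (single w 1) with hv
    have hv0 : v [] = 0 := by
      by_contra h
      have := hd w [] h
      simp at this
      omega
    have : rho ((∑ i : Λ, FreeAlgebra.ι R (Sum.inl i) * FreeAlgebra.ι R (Sum.inr i) : FA Λ R) - 1) v
        = 0 := by
      rw [map_sub, map_sum, map_one, LinearMap.sub_apply, LinearMap.sum_apply]
      ext u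
      rw [Finsupp.sub_apply, Finsupp.finsetSum_apply, Module.End.one_apply, Finsupp.zero_apply]
      rcases u with _ | ⟨j, u⟩
      · rw [hv0, sub_zero]
        apply Finset.sum_eq_zero
        intro i _
        rw [map_mul, rho_inl, rho_inr, Module.End.mul_apply]
        apply Finsupp.mapDomain_of_notMem_range
        rintro ⟨w', hw'⟩
        simp at hw'
      · rw [Finset.sum_eq_single j, sub_eq_zero]
        · rw [map_mul, rho_inl, rho_inr, Module.End.mul_apply, opX_apply_cons, opY_apply]
        · intro i _ hi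
          rw [map_mul, rho_inl, rho_inr, Module.End.mul_apply, opX_apply_ne i j hi]
        · intro h; exact absurd (Finset.mem_univ _) h
    rw [this, map_zero]; rfl
  have h2 := (Ideal.Quotient.eq_zero_iff_mem).mpr key
  rw [map_sub, map_sum, map_one, sub_eq_zero] at h2
  rw [← h2]
  apply Finset.sum_congr rfl
  intro i _
  rw [map_mul]; rfl

end Trace

end Pool.Agent.V11171.LK
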