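import Mathlib
import Pool.Agent.V11171.LKTrace

/-! Families, the lifting lemma and the matrix family. -/

namespace Pool.Agent.V11171.LK

set_option linter.unusedSectionVars false

/-- the lifting lemma: no `2`-splitting of the unit modulo `3` -/
theorem no_pair (T' T : Type) [Ring T'] [Ring T] (π : T' →+* T) (hsurj : Function.Surjective π)
    (hker : ∀ a, π a = 0 → ∃ b, a = 3 * b) (h9 : (9 : T') = 0) (τ : T' → ZMod 9)
    (τ_add : ∀ a b, τ (a + b) = τ a + τ b) (τ_comm : ∀ a b, τ (a * b) = τ (b * a))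
    (hτ1 : τ 1 ≠ 0) (x1 x2 y1 y2 : T) (h11 : y1 * x1 = 1) (h12 : y1 * x2 = 0)
    (h21 : y2 * x1 = 0) (h22 : y2 * x2 = 1) (hs : x1 * y1 + x2 * y2 = 1) : False := by
  obtain ⟨X1, rfl⟩ := hsurj x1
  obtain ⟨X2, rfl⟩ := hsurj x2
  obtain ⟨Y1, rfl⟩ := hsurj y1
  obtain ⟨Y2, rfl⟩ := hsurj y2
  have c3 : ∀ a : T', 3 * a = a * 3 := fun a => (Nat.cast_commute 3 a).eq
  have s9 : ∀ a b : T', (3 * a) * (3 * b) = 0 := by
    intro a b
    have : (3 * a) * (3 * b) = 9 * (a * b) := by
      rw [mul_assoc, ← mul_assoc a 3 b, ← c3 a, ← mul_assoc, ← mul_assoc]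
      rw [show (3 : T') * 3 = 9 by norm_num, mul_assoc]
    rw [this, h9, zero_mul]
  have hu0 : π ((X1 * Y1 + X2 * Y2) - 1) = 0 := by
    rw [map_sub, map_add, map_mul, map_mul, map_one, hs, sub_self]
  obtain ⟨a, ha⟩ := hker _ hu0
  have hu : X1 * Y1 + X2 * Y2 = 1 + 3 * a := by rw [← ha]; abel
  have huv : (X1 * Y1 + X2 * Y2) * (1 - 3 * a) = 1 := by
    rw [hu]
    have : (1 + 3 * a) * (1 - 3 * a) = 1 - (3 * a) * (3 * a) := by noncomm_ring
    rw [this, s9, sub_zero]
  have hπa : π (3 * a) = 0 := by rw [← ha, hu0]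
  have hπv : π (1 - 3 * a) = 1 := by rw [map_sub, map_one, hπa, sub_zero]
  set v := 1 - 3 * a with hv
  have hsum : X1 * (Y1 * v) + X2 * (Y2 * v) = 1 := by
    rw [← mul_assoc, ← mul_assoc, ← add_mul, huv]
  -- entries
  have e11 : ∃ c, (Y1 * v) * X1 = 1 + 3 * c := by
    obtain ⟨c, hc⟩ := hker ((Y1 * v) * X1 - 1) (by
      rw [map_sub, map_mul, map_mul, hπv, mul_one, h11, map_one, sub_self])
    exact ⟨c, by rw [← hc]; abel⟩
  have e22 : ∃ c, (Y2 * v) * X2 = 1 + 3 * c := by
    obtain ⟨c, hc⟩ := hker ((Y2 * v) * X2 - 1) (by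
      rw [map_sub, map_mul, map_mul, hπv, mul_one, h22, map_one, sub_self])
    exact ⟨c, by rw [← hc]; abel⟩
  have e12 : ∃ c, (Y1 * v) * X2 = 3 * c := by
    exact hker _ (by rw [map_mul, map_mul, hπv, mul_one, h12])
  have e21 : ∃ c, (Y2 * v) * X1 = 3 * c := by
    exact hker _ (by rw [map_mul, map_mul, hπv, mul_one, h21])
  obtain ⟨c11, e11⟩ := e11
  obtain ⟨c22, e22⟩ := e22
  obtain ⟨c12, e12⟩ := e12
  obtain ⟨c21, e21⟩ := e21
  have p11 : (Y1 * v) * X1 = 1 := by
    have h : (Y1 * v) * X1 * ((Y1 * v) * X1) + (Y1 * v) * X2 * ((Y2 * v) * X1) = (Y1 * v) * X1 := by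
      calc _ = (Y1 * v) * (X1 * (Y1 * v) + X2 * (Y2 * v)) * X1 := by noncomm_ring
        _ = _ := by rw [hsum, mul_one]
    rw [e11, e12, e21, s9, add_zero] at h
    have h2 : (1 + 3 * c11) * (1 + 3 * c11) = 1 + 3 * c11 + 3 * c11 + (3 * c11) * (3 * c11) := by
      noncomm_ring
    rw [h2, s9, add_zero] at h
    have h3 : 3 * c11 = 0 := by
      have := congrArg (fun z => z - (1 + 3 * c11)) h
      simpa using this
    rw [e11, h3, add_zero]
  have p22 : (Y2 * v) * X2 = 1 := by
    have h : (Y2 * v) * X2 * ((Y2 * v) * X2) + (Y2 * v) * X1 * ((Y1 * v) * X2) = (Y2 * v) * X2 := by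
      calc _ = (Y2 * v) * (X1 * (Y1 * v) + X2 * (Y2 * v)) * X2 := by noncomm_ring
        _ = _ := by rw [hsum, mul_one]
    rw [e22, e12, e21, s9, add_zero] at h
    have h2 : (1 + 3 * c22) * (1 + 3 * c22) = 1 + 3 * c22 + 3 * c22 + (3 * c22) * (3 * c22) := by
      noncomm_ring
    rw [h2, s9, add_zero] at h
    have h3 : 3 * c22 = 0 := by
      have := congrArg (fun z => z - (1 + 3 * c22)) h
      simpa using this
    rw [e22, h3, add_zero]
  apply hτ1
  have h := congrArg τ hsum
  rw [τ_add, τ_comm X1, τ_comm X2, p11, p22] at h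
  have : τ 1 + τ 1 - τ 1 = 0 := by rw [h, sub_self]
  simpa using this

/-- trace on matrices -/
def matTr {I S : Type} [Fintype I] [Ring S] (τ : S → ZMod 9) (M : Matrix I I S) : ZMod 9 :=
  ∑ i, τ (M i i)

lemma matTr_add {I S : Type} [Fintype I] [Ring S] (τ : S → ZMod 9)
    (τ_add : ∀ a b, τ (a + b) = τ a + τ b) (M M' : Matrix I I S) :
    matTr τ (M + M') = matTr τ M + matTr τ M' := by
  rw [matTr, matTr, matTr, ← Finset.sum_add_distrib]
  exact Finset.sum_congr rfl (fun i _ => by rw [Matrix.add_apply, τ_add])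

lemma tau_sum {I S : Type} [Ring S] (τ : S → ZMod 9)
    (τ_add : ∀ a b, τ (a + b) = τ a + τ b) (s : Finset I) (f : I → S) :
    τ (∑ i ∈ s, f i) = ∑ i ∈ s, τ (f i) := by
  classical
  have h0 : τ 0 = 0 := by
    have := τ_add 0 0
    rw [add_zero] at this
    have h2 : τ 0 + τ 0 - τ 0 = 0 := by rw [← this, sub_self]
    simpa using h2
  induction s using Finset.induction_on with
  | empty => simpa using h0
  | insert a s ha ih => rw [Finset.sum_insert ha, Finset.sum_insert ha, τ_add, ih]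

lemma matTr_comm {I S : Type} [Fintype I] [Ring S] (τ : S → ZMod 9)
    (τ_add : ∀ a b, τ (a + b) = τ a + τ b) (τ_comm : ∀ a b, τ (a * b) = τ (b * a))
    (M M' : Matrix I I S) : matTr τ (M * M') = matTr τ (M' * M) := by
  rw [matTr, matTr]
  have h1 : ∀ i, τ ((M * M') i i) = ∑ j, τ (M i j * M' j i) := by
    intro i; rw [Matrix.mul_apply, tau_sum τ τ_add]
  have h2 : ∀ i, τ ((M' * M) i i) = ∑ j, τ (M' i j * M j i) := by
    intro i; rw [Matrix.mul_apply, tau_sum τ τ_add]
  rw [Finset.sum_congr rfl (fun i _ => h1 i), Finset.sum_congr rfl (fun i _ => h2 i),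
    Finset.sum_comm]
  exact Finset.sum_congr rfl (fun i _ => Finset.sum_congr rfl (fun j _ => τ_comm _ _))

lemma matTr_one {I S : Type} [Fintype I] [DecidableEq I] [Ring S] (τ : S → ZMod 9) (h1 : τ 1 = 1) :
    matTr τ (1 : Matrix I I S) = Fintype.card I := by
  rw [matTr]
  simp [h1]

/-- Families generating the algebra of a centred quiver with loops `Λ` and further arrows `B`. -/
structure AFam (Λ B : Type) [Fintype Λ] [Fintype B] [DecidableEq Λ] [DecidableEq B]
    (S : Type) [Ring S] where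
  c : S
  x : Λ ⊕ B → S
  y : Λ ⊕ B → S
  yx : ∀ i j, y i * x j = if i = j then c else 0
  xc : ∀ i, x i * c = x i
  cy : ∀ i, c * y i = y i
  loop : ∑ l, x (Sum.inl l) * y (Sum.inl l) = c
  all : c + ∑ b, x (Sum.inr b) * y (Sum.inr b) = 1

variable {Λ B C : Type} [Fintype Λ] [Fintype B] [Fintype C] [DecidableEq Λ] [DecidableEq B]
  [DecidableEq C] {S T : Type} [Ring S] [Ring T]

def AFam.map (η : AFam Λ B S) (f : S →+* T) : AFam Λ B T where
  c := f η.c
  x i := f (η.x i)
  y i := f (η.y i)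
  yx i j := by rw [← map_mul, η.yx]; split_ifs <;> simp
  xc i := by rw [← map_mul, η.xc]
  cy i := by rw [← map_mul, η.cy]
  loop := by rw [← η.loop, map_sum]; simp only [map_mul]
  all := by rw [← map_one f, ← η.all, map_add, map_sum]; simp only [map_mul]

lemma AFam.cx (η : AFam Λ B S) (l : Λ) : η.c * η.x (Sum.inl l) = η.x (Sum.inl l) := by
  conv_lhs => rw [← η.loop]
  rw [Finset.sum_mul, Finset.sum_eq_single l]
  · rw [mul_assoc, η.yx, if_pos rfl, η.xc]
  · intro m _ hm
    rw [mul_assoc, η.yx, if_neg (by simpa using hm), mul_zero]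
  · intro h; exact absurd (Finset.mem_univ _) h

lemma AFam.yc (η : AFam Λ B S) (l : Λ) : η.y (Sum.inl l) * η.c = η.y (Sum.inl l) := by
  conv_lhs => rw [← η.loop]
  rw [Finset.mul_sum, Finset.sum_eq_single l]
  · rw [← mul_assoc, η.yx, if_pos rfl, η.cy]
  · intro m _ hm
    rw [← mul_assoc, η.yx, if_neg (by simpa using Ne.symm hm), zero_mul]
  · intro h; exact absurd (Finset.mem_univ _) h

lemma AFam.cc (η : AFam Λ B S) (l : Λ) : η.c * η.c = η.c := by
  have h : (∑ l, η.x (Sum.inl l) * η.y (Sum.inl l)) * η.c =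
      ∑ l, η.x (Sum.inl l) * η.y (Sum.inl l) := by
    rw [Finset.sum_mul]
    exact Finset.sum_congr rfl (fun m _ => by rw [mul_assoc, η.yc])
  rwa [η.loop] at h

lemma AFam.cxr (η : AFam Λ B S) (b : B) : η.c * η.x (Sum.inr b) = 0 := by
  have h : η.c = 1 - ∑ b, η.x (Sum.inr b) * η.y (Sum.inr b) := by rw [← η.all]; abel
  have h2 : (∑ b, η.x (Sum.inr b) * η.y (Sum.inr b)) * η.x (Sum.inr b) = η.x (Sum.inr b) := by
    rw [Finset.sum_mul, Finset.sum_eq_single b]
    · rw [mul_assoc, η.yx, if_pos rfl, η.xc]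
    · intro m _ hm
      rw [mul_assoc, η.yx, if_neg (by simpa using hm), mul_zero]
    · intro h; exact absurd (Finset.mem_univ _) h
  rw [h, sub_mul, one_mul, h2, sub_self]

lemma AFam.yrc (η : AFam Λ B S) (b : B) : η.y (Sum.inr b) * η.c = 0 := by
  have h : η.c = 1 - ∑ b, η.x (Sum.inr b) * η.y (Sum.inr b) := by rw [← η.all]; abel
  have h2 : η.y (Sum.inr b) * (∑ b, η.x (Sum.inr b) * η.y (Sum.inr b)) = η.y (Sum.inr b) := by
    rw [Finset.mul_sum, Finset.sum_eq_single b]
    · rw [← mul_assoc, η.yx, if_pos rfl, η.cy]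
    · intro m _ hm
      rw [← mul_assoc, η.yx, if_neg (by simpa using Ne.symm hm), zero_mul]
    · intro h; exact absurd (Finset.mem_univ _) h
  rw [h, mul_sub, mul_one, h2, sub_self]

/-- first transformation: split the arrow `none` along the loops -/
def AFam.split (η : AFam Λ (Option C) S) : AFam Λ (C ⊕ Λ) S where
  c := η.c
  x := Sum.elim (fun l => η.x (Sum.inl l)) (Sum.elim (fun b => η.x (Sum.inr (some b)))
    (fun l => η.x (Sum.inr none) * η.x (Sum.inl l)))
  y := Sum.elim (fun l => η.y (Sum.inl l)) (Sum.elim (fun b => η.y (Sum.inr (some b)))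
    (fun l => η.y (Sum.inl l) * η.y (Sum.inr none)))
  yx := by
    rintro (i | i | i) (j | j | j) <;> simp only [Sum.elim_inl, Sum.elim_inr]
    · rw [η.yx]; simp
    · rw [η.yx]; simp
    · rw [← mul_assoc, η.yx]; simp
    · rw [η.yx]; simp
    · rw [η.yx]; simp
    · rw [← mul_assoc, η.yx]; simp
    · rw [mul_assoc, η.yx]; simp
    · rw [mul_assoc, η.yx]; simp
    · rw [mul_assoc, ← mul_assoc (η.y (Sum.inr none)), η.yx, if_pos rfl, η.cx, η.yx]; simp
  xc := by
    rintro (i | i | i) <;> simp only [Sum.elim_inl, Sum.elim_inr]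
    · rw [η.xc]
    · rw [η.xc]
    · rw [mul_assoc, η.xc]
  cy := by
    rintro (i | i | i) <;> simp only [Sum.elim_inl, Sum.elim_inr]
    · rw [η.cy]
    · rw [η.cy]
    · rw [← mul_assoc, η.cy]
  loop := by
    simp only [Sum.elim_inl]
    exact η.loop
  all := by
    rw [← η.all, Fintype.sum_sum_type, Fintype.sum_option]
    simp only [Sum.elim_inl, Sum.elim_inr]
    congr 1
    rw [add_comm]
    congr 1
    have h : ∀ l, η.x (Sum.inr none) * η.x (Sum.inl l) * (η.y (Sum.inl l) * η.y (Sum.inr none)) =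
        η.x (Sum.inr none) * (η.x (Sum.inl l) * η.y (Sum.inl l)) * η.y (Sum.inr none) := by
      intro l; noncomm_ring
    rw [Finset.sum_congr rfl (fun l _ => h l), ← Finset.sum_mul, ← Finset.mul_sum, η.loop, η.xc]

/-- the inverse transformation -/
def AFam.merge (η : AFam Λ (C ⊕ Λ) S) : AFam Λ (Option C) S where
  c := η.c
  x := Sum.elim (fun l => η.x (Sum.inl l)) (fun b => match b with
    | some b => η.x (Sum.inr (Sum.inl b))
    | none => ∑ l, η.x (Sum.inr (Sum.inr l)) * η.y (Sum.inl l))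
  y := Sum.elim (fun l => η.y (Sum.inl l)) (fun b => match b with
    | some b => η.y (Sum.inr (Sum.inl b))
    | none => ∑ l, η.x (Sum.inl l) * η.y (Sum.inr (Sum.inr l)))
  yx := by
    have hyx0 : ∀ i, (∀ l, i ≠ Sum.inr (Sum.inr l)) →
        η.y i * (∑ l, η.x (Sum.inr (Sum.inr l)) * η.y (Sum.inl l)) = 0 := by
      intro i hi
      rw [Finset.mul_sum]
      apply Finset.sum_eq_zero
      intro l _
      rw [← mul_assoc, η.yx, if_neg (hi l), zero_mul]
    have hyx1 : ∀ i, (∀ l, Sum.inr (Sum.inr l) ≠ i) →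
        (∑ l, η.x (Sum.inl l) * η.y (Sum.inr (Sum.inr l))) * η.x i = 0 := by
      intro i hi
      rw [Finset.sum_mul]
      apply Finset.sum_eq_zero
      intro l _
      rw [mul_assoc, η.yx, if_neg (hi l), mul_zero]
    have hd : (∑ l, η.x (Sum.inl l) * η.y (Sum.inr (Sum.inr l))) *
        (∑ l, η.x (Sum.inr (Sum.inr l)) * η.y (Sum.inl l)) = η.c := by
      rw [Finset.sum_mul, ← η.loop]
      apply Finset.sum_congr rfl
      intro l _
      rw [Finset.mul_sum, Finset.sum_eq_single l]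
      · rw [mul_assoc, ← mul_assoc (η.y (Sum.inr (Sum.inr l))), η.yx, if_pos rfl, η.cy]
      · intro m _ hm
        rw [mul_assoc, ← mul_assoc (η.y (Sum.inr (Sum.inr l))), η.yx,
          if_neg (by simpa using Ne.symm hm), zero_mul, mul_zero]
      · intro h; exact absurd (Finset.mem_univ _) h
    rintro (i | (_ | i)) (j | (_ | j)) <;> simp only [Sum.elim_inl, Sum.elim_inr]
    · rw [η.yx]; simp
    · rw [hyx0 _ (by intro l; simp)]; simp
    · rw [η.yx]; simp
    · rw [hyx1 _ (by intro l; simp)]; simp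
    · rw [hd]; simp
    · rw [hyx1 _ (by intro l; simp)]; simp
    · rw [η.yx]; simp
    · rw [hyx0 _ (by intro l; simp)]; simp
    · rw [η.yx]; simp
  xc := by
    rintro (i | (_ | i)) <;> simp only [Sum.elim_inl, Sum.elim_inr]
    · rw [η.xc]
    · rw [Finset.sum_mul]
      exact Finset.sum_congr rfl (fun l _ => by rw [mul_assoc, η.yc])
    · rw [η.xc]
  cy := by
    rintro (i | (_ | i)) <;> simp only [Sum.elim_inl, Sum.elim_inr]
    · rw [η.cy]
    · rw [Finset.mul_sum]
      exact Finset.sum_congr rfl (fun l _ => by rw [← mul_assoc, η.cx])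
    · rw [η.cy]
  loop := by
    simp only [Sum.elim_inl]
    exact η.loop
  all := by
    rw [← η.all, Fintype.sum_sum_type, Fintype.sum_option]
    simp only [Sum.elim_inr]
    congr 1
    rw [add_comm]
    congr 1
    rw [Finset.sum_mul]
    apply Finset.sum_congr rfl
    intro l _
    rw [Finset.mul_sum, Finset.sum_eq_single l]
    · rw [mul_assoc, ← mul_assoc (η.y (Sum.inl l)), η.yx, if_pos rfl, η.cy]
    · intro m _ hm
      rw [mul_assoc, ← mul_assoc (η.y (Sum.inl l)), η.yx, if_neg (by simpa using Ne.symm hm),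
        zero_mul, mul_zero]
    · intro h; exact absurd (Finset.mem_univ _) h

/-- the family of orthogonal pieces `p` -/
def AFam.p (η : AFam Λ B S) : Option B → S
  | none => η.c
  | some b => η.x (Sum.inr b)

def AFam.p' (η : AFam Λ B S) : Option B → S
  | none => η.c
  | some b => η.y (Sum.inr b)

lemma AFam.pp (η : AFam Λ B S) (l : Λ) (i j : Option B) :
    η.p' i * η.p j = if i = j then η.c else 0 := by
  rcases i with _ | i <;> rcases j with _ | j <;> simp only [AFam.p, AFam.p']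
  · rw [η.cc l]; simp
  · rw [η.cxr]; simp
  · rw [η.yrc]; simp
  · rw [η.yx]; simp

lemma AFam.pc (η : AFam Λ B S) (l : Λ) (i : Option B) : η.p i * η.c = η.p i := by
  rcases i with _ | i <;> simp only [AFam.p]
  · rw [η.cc l]
  · rw [η.xc]

lemma AFam.psum (η : AFam Λ B S) (l : Λ) : ∑ i, η.p i * η.p' i = 1 := by
  rw [Fintype.sum_option, ← η.all]
  simp only [AFam.p, AFam.p']
  rw [η.cc l]

/-- the two isometries -/
theorem AFam.pair (η : AFam Λ (Option C) S) (l0 : Λ)
    (e : Option (Option C) ⊕ Option (Option C) ≃ Option (C ⊕ Λ)) :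
    ∃ x1 x2 y1 y2 : S, y1 * x1 = 1 ∧ y1 * x2 = 0 ∧ y2 * x1 = 0 ∧ y2 * x2 = 1 ∧
      x1 * y1 + x2 * y2 = 1 := by
  set ζ := η.split with hζ
  have hc : ζ.c = η.c := rfl
  have key : ∀ f g : Option (Option C) → Option (C ⊕ Λ), ∀ δ : Bool,
      (∀ i j, f i = g j ↔ (δ = true ∧ i = j)) →
      (∑ i, η.p i * ζ.p' (f i)) * (∑ j, ζ.p (g j) * η.p' j) = if δ = true then 1 else 0 := by
    intro f g δ hfg
    rw [Finset.sum_mul]
    have h1 : ∀ i, η.p i * ζ.p' (f i) * (∑ j, ζ.p (g j) * η.p' j) =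
        if δ = true then η.p i * η.p' i else 0 := by
      intro i
      rw [Finset.mul_sum]
      by_cases hδ : δ = true
      · rw [if_pos hδ, Finset.sum_eq_single i]
        · rw [mul_assoc, ← mul_assoc (ζ.p' (f i)), ζ.pp l0, if_pos ((hfg i i).mpr ⟨hδ, rfl⟩), hc,
            ← mul_assoc, η.pc l0]
        · intro j _ hj
          rw [mul_assoc, ← mul_assoc (ζ.p' (f i)), ζ.pp l0,
            if_neg (fun h => hj ((hfg i j).mp h).2.symm), zero_mul, mul_zero]
        · intro h; exact absurd (Finset.mem_univ _) h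
      · rw [if_neg hδ]
        apply Finset.sum_eq_zero
        intro j _
        rw [mul_assoc, ← mul_assoc (ζ.p' (f i)), ζ.pp l0,
          if_neg (fun h => hδ ((hfg i j).mp h).1), zero_mul, mul_zero]
    rw [Finset.sum_congr rfl (fun i _ => h1 i)]
    by_cases hδ : δ = true
    · simp only [if_pos hδ]; exact η.psum l0
    · simp only [if_neg hδ]; simp
  refine ⟨∑ j, ζ.p (e (Sum.inl j)) * η.p' j, ∑ j, ζ.p (e (Sum.inr j)) * η.p' j,
    ∑ i, η.p i * ζ.p' (e (Sum.inl i)), ∑ i, η.p i * ζ.p' (e (Sum.inr i)), ?_, ?_, ?_, ?_, ?_⟩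
  · rw [key _ _ true (by intro i j; simp)]; simp
  · rw [key _ _ false (by intro i j; simp)]; simp
  · rw [key _ _ false (by intro i j; simp)]; simp
  · rw [key _ _ true (by intro i j; simp)]; simp
  · have h : ∀ f : Option (Option C) → Option (C ⊕ Λ),
        (∑ j, ζ.p (f j) * η.p' j) * (∑ i, η.p i * ζ.p' (f i)) =
          ∑ j, ζ.p (f j) * ζ.p' (f j) := by
      intro f
      rw [Finset.sum_mul]
      apply Finset.sum_congr rfl
      intro i _
      rw [Finset.mul_sum, Finset.sum_eq_single i]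
      · rw [mul_assoc, ← mul_assoc (η.p' i), η.pp l0, if_pos rfl, ← hc, ← mul_assoc, ζ.pc l0]
      · intro j _ hj
        rw [mul_assoc, ← mul_assoc (η.p' i), η.pp l0, if_neg (Ne.symm hj), zero_mul, mul_zero]
      · intro h; exact absurd (Finset.mem_univ _) h
    rw [h, h, ← ζ.psum l0, ← Equiv.sum_comp e, Fintype.sum_sum_type]

/-- the matrix family -/
noncomputable def matFam (X Y : Λ → S) (hYX : ∀ i j, Y i * X j = if i = j then 1 else 0)
    (hXY : ∑ i, X i * Y i = 1) : AFam Λ B (Matrix (Option B) (Option B) S) where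
  c := Matrix.single none none 1
  x := Sum.elim (fun l => Matrix.single none none (X l)) (fun b => Matrix.single (some b) none 1)
  y := Sum.elim (fun l => Matrix.single none none (Y l)) (fun b => Matrix.single none (some b) 1)
  yx := by
    rintro (i | i) (j | j) <;> simp only [Sum.elim_inl, Sum.elim_inr]
    · rw [Matrix.single_mul_single_same, hYX]
      by_cases h : i = j
      · simp [h]
      · simp [h]
    · rw [Matrix.single_mul_single_of_ne _ _ _ _ (by simp)]; simp
    · rw [Matrix.single_mul_single_of_ne _ _ _ _ (by simp)]; simp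
    · by_cases h : i = j
      · subst h
        rw [Matrix.single_mul_single_same]; simp
      · rw [Matrix.single_mul_single_of_ne _ _ _ _ (by simpa using h)]; simp [h]
  xc := by
    rintro (i | i) <;> simp only [Sum.elim_inl, Sum.elim_inr] <;>
      rw [Matrix.single_mul_single_same] <;> simp
  cy := by
    rintro (i | i) <;> simp only [Sum.elim_inl, Sum.elim_inr] <;>
      rw [Matrix.single_mul_single_same] <;> simp
  loop := by
    simp only [Sum.elim_inl, Matrix.single_mul_single_same]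
    rw [← hXY]
    ext i j
    rw [Matrix.sum_apply]
    simp only [Matrix.single_apply]
    split_ifs <;> simp
  all := by
    simp only [Sum.elim_inr, Matrix.single_mul_single_same, mul_one]
    ext i j
    rw [Matrix.add_apply, Matrix.sum_apply, Matrix.one_apply]
    simp only [Matrix.single_apply]
    rcases i with _ | i <;> rcases j with _ | j
    · simp
    · simp
    · simp
    · rw [Finset.sum_eq_single i]
      · by_cases h : i = j <;> simp [h]
      · intro b _ hb; simp [hb]
      · intro h; exact absurd (Finset.mem_univ _) h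

end Pool.Agent.V11171.LK
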