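import Mathlib
import Pool.Agent.V11171.LKDefs
import Pool.Agent.V11171.LKFam

namespace Pool.Agent.V11171.LK

set_option linter.unusedSectionVars false

open FreeAlgebra

/-- A family in an algebra satisfying the Leavitt relations. -/
structure LFam (G : Quiv) (B : Type) [Ring B] where
  q : G.V → B
  z : G.E → B
  w : G.E → B
  qq : ∀ u v, q u * q v = if u = v then q u else 0
  sz : ∀ e, q (G.s e) * z e = z e
  zr : ∀ e, z e * q (G.r e) = z e
  rw' : ∀ e, q (G.r e) * w e = w e
  ws : ∀ e, w e * q (G.s e) = w e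
  ck1 : ∀ e f, w e * z f = if e = f then q (G.r e) else 0
  ck2 : ∀ v, (∃ e, G.s e = v) → ∑ e with G.s e = v, z e * w e = q v
  one : ∑ v, q v = 1

/-- the image of a generator -/
def LFam.val {G : Quiv} {B : Type} [Ring B] (η : LFam G B) : Gen G → B
  | .vert v => η.q v
  | .arr e => η.z e
  | .ghost e => η.w e

noncomputable section

variable (K : Type) [Field K] (G : Quiv)

namespace LPA

variable {G} in
/-- The generators as elements of the Leavitt path algebra. -/
def gen (g : Gen G) : LPA K G := RingQuot.mkAlgHom K (LRel K G) (ι K g)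

/-- the tautological family -/
def fam : LFam G (LPA K G) where
  q v := gen K (.vert v)
  z e := gen K (.arr e)
  w e := gen K (.ghost e)
  qq u v := by
    have h := RingQuot.mkAlgHom_rel K (LRel.vv (K := K) (Q := G) u v)
    rw [map_mul] at h
    split_ifs with huv
    · rw [if_pos huv] at h; exact h
    · rw [if_neg huv, map_zero] at h; exact h
  sz e := by
    have h := RingQuot.mkAlgHom_rel K (LRel.s_e (K := K) (Q := G) e)
    rw [map_mul] at h; exact h
  zr e := by
    have h := RingQuot.mkAlgHom_rel K (LRel.e_r (K := K) (Q := G) e)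
    rw [map_mul] at h; exact h
  rw' e := by
    have h := RingQuot.mkAlgHom_rel K (LRel.r_g (K := K) (Q := G) e)
    rw [map_mul] at h; exact h
  ws e := by
    have h := RingQuot.mkAlgHom_rel K (LRel.g_s (K := K) (Q := G) e)
    rw [map_mul] at h; exact h
  ck1 u v := by
    have h := RingQuot.mkAlgHom_rel K (LRel.ck1 (K := K) (Q := G) u v)
    rw [map_mul] at h
    split_ifs with huv
    · rw [if_pos huv] at h; exact h
    · rw [if_neg huv, map_zero] at h; exact h
  ck2 v hv := by
    have h := RingQuot.mkAlgHom_rel K (LRel.ck2 (K := K) (Q := G) v hv)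
    rw [map_sum] at h
    simp only [map_mul] at h
    exact h
  one := by
    have h := RingQuot.mkAlgHom_rel K (LRel.sum_v (K := K) (Q := G))
    rw [map_sum, map_one] at h
    exact h

variable {G}
variable {B : Type} [Ring B] [Algebra K B]

/-- The universal property. -/
def lift (η : LFam G B) : LPA K G →ₐ[K] B :=
  RingQuot.liftAlgHom K ⟨FreeAlgebra.lift K η.val, by
    intro x y h
    induction h with
    | vv v w =>
      simp only [map_mul, FreeAlgebra.lift_ι_apply, LFam.val, η.qq]
      split_ifs <;> simp [LFam.val]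
    | sum_v => simp only [map_sum, FreeAlgebra.lift_ι_apply, LFam.val, η.one, map_one]
    | s_e e => simp only [map_mul, FreeAlgebra.lift_ι_apply, LFam.val, η.sz]
    | e_r e => simp only [map_mul, FreeAlgebra.lift_ι_apply, LFam.val, η.zr]
    | r_g e => simp only [map_mul, FreeAlgebra.lift_ι_apply, LFam.val, η.rw']
    | g_s e => simp only [map_mul, FreeAlgebra.lift_ι_apply, LFam.val, η.ws]
    | ck1 e f =>
      simp only [map_mul, FreeAlgebra.lift_ι_apply, LFam.val, η.ck1]
      split_ifs <;> simp [LFam.val]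
    | ck2 v hv =>
      simp only [map_mul, map_sum, FreeAlgebra.lift_ι_apply, LFam.val]
      exact η.ck2 v hv⟩

theorem lift_gen (η : LFam G B) (g : Gen G) : lift K η (gen K g) = η.val g := by
  unfold lift gen
  erw [RingQuot.liftAlgHom_mkAlgHom_apply]
  simp

theorem hom_ext (f g : LPA K G →ₐ[K] B) (h : ∀ x : Gen G, f (gen K x) = g (gen K x)) : f = g := by
  apply RingQuot.ringQuot_ext'
  apply FreeAlgebra.hom_ext
  funext x
  exact h x

end LPA

/-- the data of a centred quiver -/
structure Cent (G : Quiv) (Λ B : Type) where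
  c : G.V
  σ : Λ ⊕ B ≃ G.E
  hs1 : ∀ l, G.s (σ (Sum.inl l)) = c
  hs2 : ∀ b, G.s (σ (Sum.inr b)) ≠ c
  hr : ∀ e, G.r e = c
  emit : ∀ v, ∃ e, G.s e = v

variable {G}
variable {Λ B : Type} [Fintype Λ] [Fintype B] [DecidableEq Λ] [DecidableEq B]
variable {S : Type} [Ring S]

lemma Cent.sum_center (κ : Cent G Λ B) (F : G.E → S) :
    ∑ e with G.s e = κ.c, F e = ∑ l, F (κ.σ (Sum.inl l)) := by
  rw [Finset.sum_filter, ← Equiv.sum_comp κ.σ, Fintype.sum_sum_type]
  rw [Finset.sum_congr rfl (fun l _ => if_pos (κ.hs1 l)),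
    Finset.sum_congr rfl (fun b _ => if_neg (κ.hs2 b)), Finset.sum_const_zero, add_zero]

def AFam.toL (κ : Cent G Λ B) (η : AFam Λ B S) : LFam G S where
  q v := ∑ e with G.s e = v, η.x (κ.σ.symm e) * η.y (κ.σ.symm e)
  z e := η.x (κ.σ.symm e)
  w e := η.y (κ.σ.symm e)
  qq u v := by
    rw [Finset.sum_mul]
    have h1 : ∀ e ∈ (Finset.univ.filter (fun e => G.s e = u)),
        η.x (κ.σ.symm e) * η.y (κ.σ.symm e) *
          (∑ f with G.s f = v, η.x (κ.σ.symm f) * η.y (κ.σ.symm f)) =
        if u = v then η.x (κ.σ.symm e) * η.y (κ.σ.symm e) else 0 := by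
      intro e he
      rw [Finset.mem_filter] at he
      rw [Finset.mul_sum]
      split_ifs with huv
      · rw [Finset.sum_eq_single e]
        · rw [mul_assoc, ← mul_assoc (η.y (κ.σ.symm e)), η.yx, if_pos rfl, η.cy]
        · intro f _ hf
          rw [mul_assoc, ← mul_assoc (η.y (κ.σ.symm e)), η.yx,
            if_neg (by simpa using Ne.symm hf), zero_mul, mul_zero]
        · intro h
          exact (h (Finset.mem_filter.mpr ⟨Finset.mem_univ _, he.2.trans huv⟩)).elim
      · apply Finset.sum_eq_zero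
        intro f hf
        rw [Finset.mem_filter] at hf
        have hne : e ≠ f := by
          rintro rfl
          exact huv (he.2.symm.trans hf.2)
        rw [mul_assoc, ← mul_assoc (η.y (κ.σ.symm e)), η.yx, if_neg (by simpa using hne),
          zero_mul, mul_zero]
    rw [Finset.sum_congr rfl h1]
    split_ifs <;> simp
  sz e := by
    rw [Finset.sum_mul, Finset.sum_eq_single e]
    · rw [mul_assoc, η.yx, if_pos rfl, η.xc]
    · intro f _ hf
      rw [mul_assoc, η.yx, if_neg (by simpa using hf), mul_zero]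
    · intro h
      exact (h (Finset.mem_filter.mpr ⟨Finset.mem_univ _, rfl⟩)).elim
  zr e := by
    rw [κ.hr, κ.sum_center]
    simp only [Equiv.symm_apply_apply]
    rw [η.loop, η.xc]
  rw' e := by
    rw [κ.hr, κ.sum_center]
    simp only [Equiv.symm_apply_apply]
    rw [η.loop, η.cy]
  ws e := by
    rw [Finset.mul_sum, Finset.sum_eq_single e]
    · rw [← mul_assoc, η.yx, if_pos rfl, η.cy]
    · intro f _ hf
      rw [← mul_assoc, η.yx, if_neg (by simpa using Ne.symm hf), zero_mul]
    · intro h
      exact (h (Finset.mem_filter.mpr ⟨Finset.mem_univ _, rfl⟩)).elim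
  ck1 e f := by
    rw [η.yx, κ.hr, κ.sum_center]
    simp only [Equiv.symm_apply_apply, EmbeddingLike.apply_eq_iff_eq]
    rw [η.loop]
  ck2 v _ := rfl
  one := by
    rw [← η.all, ← η.loop, Finset.sum_fiberwise, ← Equiv.sum_comp κ.σ, Fintype.sum_sum_type]
    simp only [Equiv.symm_apply_apply]

/-- the tautological family of a centred quiver -/
def LPA.afam (κ : Cent G Λ B) : AFam Λ B (LPA K G) where
  c := (LPA.fam K G).q κ.c
  x i := (LPA.fam K G).z (κ.σ i)
  y i := (LPA.fam K G).w (κ.σ i)
  yx i j := by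
    rw [(LPA.fam K G).ck1, κ.hr]
    simp only [EmbeddingLike.apply_eq_iff_eq]
  xc i := by
    have := (LPA.fam K G).zr (κ.σ i)
    rwa [κ.hr] at this
  cy i := by
    have := (LPA.fam K G).rw' (κ.σ i)
    rwa [κ.hr] at this
  loop := by
    rw [← (LPA.fam K G).ck2 κ.c (κ.emit κ.c), κ.sum_center]
  all := by
    rw [← (LPA.fam K G).one]
    have h : ∀ v, (LPA.fam K G).q v = ∑ e with G.s e = v, (LPA.fam K G).z e * (LPA.fam K G).w e :=
      fun v => ((LPA.fam K G).ck2 v (κ.emit v)).symm
    rw [Finset.sum_congr rfl (fun v _ => h v), Finset.sum_fiberwise, ← Equiv.sum_comp κ.σ,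
      Fintype.sum_sum_type, h κ.c, κ.sum_center]

variable [Algebra K S]

def homOf (κ : Cent G Λ B) (η : AFam Λ B S) : LPA K G →ₐ[K] S := LPA.lift K (η.toL κ)

lemma homOf_x (κ : Cent G Λ B) (η : AFam Λ B S) (i : Λ ⊕ B) :
    homOf K κ η ((LPA.afam K κ).x i) = η.x i := by
  have := LPA.lift_gen K (η.toL κ) (.arr (κ.σ i))
  rw [homOf]
  refine this.trans ?_
  simp [LFam.val, AFam.toL]

lemma homOf_y (κ : Cent G Λ B) (η : AFam Λ B S) (i : Λ ⊕ B) :
    homOf K κ η ((LPA.afam K κ).y i) = η.y i := by
  have := LPA.lift_gen K (η.toL κ) (.ghost (κ.σ i))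
  rw [homOf]
  refine this.trans ?_
  simp [LFam.val, AFam.toL]

lemma cent_ext (κ : Cent G Λ B) (f g : LPA K G →ₐ[K] S)
    (hx : ∀ i, f ((LPA.afam K κ).x i) = g ((LPA.afam K κ).x i))
    (hy : ∀ i, f ((LPA.afam K κ).y i) = g ((LPA.afam K κ).y i)) : f = g := by
  have hz : ∀ e, f ((LPA.fam K G).z e) = g ((LPA.fam K G).z e) := by
    intro e
    have := hx (κ.σ.symm e)
    simpa [LPA.afam] using this
  have hw : ∀ e, f ((LPA.fam K G).w e) = g ((LPA.fam K G).w e) := by
    intro e
    have := hy (κ.σ.symm e)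
    simpa [LPA.afam] using this
  apply LPA.hom_ext
  intro t
  cases t with
  | vert v =>
    have h := (LPA.fam K G).ck2 v (κ.emit v)
    change f ((LPA.fam K G).q v) = g ((LPA.fam K G).q v)
    rw [← h, map_sum, map_sum]
    exact Finset.sum_congr rfl (fun e _ => by rw [map_mul, map_mul, hz, hw])
  | arr e => exact hz e
  | ghost e => exact hw e

/-- centred quivers with the same loops and `|B'| = |B| + |Λ| - 1` have isomorphic algebras -/
theorem iso_split {G G' : Quiv} {C : Type} [Fintype C] [DecidableEq C]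
    (κ : Cent G Λ (Option C)) (κ' : Cent G' Λ (C ⊕ Λ)) : Nonempty (LPA K G ≃ₐ[K] LPA K G') := by
  set η := LPA.afam K κ with hη
  set η' := LPA.afam K κ' with hη'
  set f := homOf K κ η'.merge with hf
  set g := homOf K κ' η.split with hg
  have fx : ∀ i, f (η.x i) = η'.merge.x i := homOf_x K κ _
  have fy : ∀ i, f (η.y i) = η'.merge.y i := homOf_y K κ _
  have gx : ∀ i, g (η'.x i) = η.split.x i := homOf_x K κ' _
  have gy : ∀ i, g (η'.y i) = η.split.y i := homOf_y K κ' _
  refine ⟨AlgEquiv.ofAlgHom f g ?_ ?_⟩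
  · apply cent_ext K κ'
    · intro i
      change f (g (η'.x i)) = η'.x i
      rw [gx]
      rcases i with l | c | l
      · change f (η.x (Sum.inl l)) = _
        rw [fx]; rfl
      · change f (η.x (Sum.inr (some c))) = _
        rw [fx]; rfl
      · change f (η.x (Sum.inr none) * η.x (Sum.inl l)) = _
        rw [map_mul, fx, fx]
        change (∑ m, η'.x (Sum.inr (Sum.inr m)) * η'.y (Sum.inl m)) * η'.x (Sum.inl l) = _
        rw [Finset.sum_mul, Finset.sum_eq_single l]
        · rw [mul_assoc, η'.yx, if_pos rfl, η'.xc]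
        · intro m _ hm
          rw [mul_assoc, η'.yx, if_neg (by simpa using hm), mul_zero]
        · intro h; exact absurd (Finset.mem_univ _) h
    · intro i
      change f (g (η'.y i)) = η'.y i
      rw [gy]
      rcases i with l | c | l
      · change f (η.y (Sum.inl l)) = _
        rw [fy]; rfl
      · change f (η.y (Sum.inr (some c))) = _
        rw [fy]; rfl
      · change f (η.y (Sum.inl l) * η.y (Sum.inr none)) = _
        rw [map_mul, fy, fy]
        change η'.y (Sum.inl l) * (∑ m, η'.x (Sum.inl m) * η'.y (Sum.inr (Sum.inr m))) = _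
        rw [Finset.mul_sum, Finset.sum_eq_single l]
        · rw [← mul_assoc, η'.yx, if_pos rfl, η'.cy]
        · intro m _ hm
          rw [← mul_assoc, η'.yx, if_neg (by simpa using Ne.symm hm), zero_mul]
        · intro h; exact absurd (Finset.mem_univ _) h
  · apply cent_ext K κ
    · intro i
      change g (f (η.x i)) = η.x i
      rw [fx]
      rcases i with l | (_ | c)
      · change g (η'.x (Sum.inl l)) = _
        rw [gx]; rfl
      · change g (∑ m, η'.x (Sum.inr (Sum.inr m)) * η'.y (Sum.inl m)) = _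
        rw [map_sum]
        have : ∀ m, g (η'.x (Sum.inr (Sum.inr m)) * η'.y (Sum.inl m)) =
            η.x (Sum.inr none) * (η.x (Sum.inl m) * η.y (Sum.inl m)) := by
          intro m
          rw [map_mul, gx, gy, ← mul_assoc]; rfl
        rw [Finset.sum_congr rfl (fun m _ => this m), ← Finset.mul_sum, η.loop, η.xc]
      · change g (η'.x (Sum.inr (Sum.inl c))) = _
        rw [gx]; rfl
    · intro i
      change g (f (η.y i)) = η.y i
      rw [fy]
      rcases i with l | (_ | c)
      · change g (η'.y (Sum.inl l)) = _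
        rw [gy]; rfl
      · change g (∑ m, η'.x (Sum.inl m) * η'.y (Sum.inr (Sum.inr m))) = _
        rw [map_sum]
        have : ∀ m, g (η'.x (Sum.inl m) * η'.y (Sum.inr (Sum.inr m))) =
            (η.x (Sum.inl m) * η.y (Sum.inl m)) * η.y (Sum.inr none) := by
          intro m
          rw [map_mul, gx, gy, mul_assoc]; rfl
        rw [Finset.sum_congr rfl (fun m _ => this m), ← Finset.sum_mul, η.loop, η.cy]
      · change g (η'.y (Sum.inr (Sum.inl c))) = _
        rw [gy]; rfl

end

end Pool.Agent.V11171.LK
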