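import Mathlib
import Pool.Agent.V11171.LKMain

namespace Pool.Agent.V11171.LK

set_option linter.unusedSectionVars false

/-- The quiver with two vertices `w = true`, `u = false`, with `10` loops at `w` and `a` arrows
from `u` to `w`. -/
def Qa (a : ℕ) : Quiv where
  V := Bool
  E := Fin 10 ⊕ Fin a
  s := Sum.elim (fun _ => true) (fun _ => false)
  r := fun _ => true

noncomputable def Cent.ofCard (G : Quiv) (c : G.V) (Λ B : Type) [Fintype Λ] [Fintype B]
    (h1 : Fintype.card {e : G.E // G.s e = c} = Fintype.card Λ)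
    (h2 : Fintype.card {e : G.E // ¬ G.s e = c} = Fintype.card B)
    (hr : ∀ e, G.r e = c) (emit : ∀ v, ∃ e, G.s e = v) : Cent G Λ B where
  c := c
  σ := (Equiv.sumCongr (Fintype.equivOfCardEq h1.symm) (Fintype.equivOfCardEq h2.symm)).trans
    (Equiv.sumCompl (fun e => G.s e = c))
  hs1 l := by
    simp only [Equiv.trans_apply, Equiv.sumCongr_apply, Sum.map_inl, Equiv.sumCompl_apply_inl]
    exact (Fintype.equivOfCardEq h1.symm l).2
  hs2 b := by
    simp only [Equiv.trans_apply, Equiv.sumCongr_apply, Sum.map_inr, Equiv.sumCompl_apply_inr]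
    exact (Fintype.equivOfCardEq h2.symm b).2
  hr := hr
  emit := emit

lemma Qa_emit (a : ℕ) : ∀ v, ∃ e, (Qa (a + 1)).s e = v := by
  intro v
  change Bool at v
  cases v
  · exact ⟨Sum.inr 0, rfl⟩
  · exact ⟨Sum.inl 0, rfl⟩

lemma kron_emit (a : ℕ) : ∀ v, ∃ e, (Qa (a + 1)).kron.s e = v := by
  rintro ⟨u, v⟩
  obtain ⟨e, he⟩ := Qa_emit a u
  obtain ⟨f, hf⟩ := Qa_emit a v
  exact ⟨(e, f), Prod.ext he hf⟩

theorem kron_iso (K : Type) [Field K] :
    Nonempty (LPA K (Qa 5).kron ≃ₐ[K] LPA K (Qa 8).kron) := by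
  have κ : Cent (Qa 5).kron (Fin 100) (Option (Fin 124)) :=
    Cent.ofCard (Qa 5).kron (true, true) (Fin 100) (Option (Fin 124))
      (by decide +kernel) (by decide +kernel) (fun _ => rfl) (kron_emit 4)
  have κ' : Cent (Qa 8).kron (Fin 100) (Fin 124 ⊕ Fin 100) :=
    Cent.ofCard (Qa 8).kron (true, true) (Fin 100) (Fin 124 ⊕ Fin 100)
      (by decide +kernel) (by decide +kernel) (fun _ => rfl) (kron_emit 7)
  exact iso_split K κ κ'

lemma exists_hom {G : Quiv} {Λ B : Type} [Fintype Λ] [Fintype B] [DecidableEq Λ] [DecidableEq B]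
    (κ : Cent G Λ B) (T : Type) [Ring T] (h3 : (3 : T) = 0) (η : AFam Λ B T) :
    Nonempty (LPA (ZMod 3) G →+* T) := by
  obtain ⟨m, hm⟩ := CharP.exists T
  have hd : m ∣ 3 := (CharP.cast_eq_zero_iff T m 3).mp (by exact_mod_cast h3)
  let f : ZMod 3 →+* T := ZMod.castHom hd T
  letI : Algebra (ZMod 3) T := f.toAlgebra' (by
    intro c x
    have hc : c = ((c.val : ℕ) : ZMod 3) := (ZMod.natCast_zmod_val c).symm
    rw [hc, map_natCast]
    exact (Nat.cast_commute c.val x).eq)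
  exact ⟨(homOf (ZMod 3) κ η : LPA (ZMod 3) G →+* T)⟩

theorem no_iso : ¬ Nonempty (LPA (ZMod 3) (Qa 5) ≃+* LPA (ZMod 3) (Qa 8)) := by
  rintro ⟨φ⟩
  -- the two isometries in the algebra of `Qa 8`
  have κ8 : Cent (Qa 8) (Fin 10) (Option (Fin 7)) :=
    Cent.ofCard (Qa 8) true (Fin 10) (Option (Fin 7)) (by decide +kernel) (by decide +kernel)
      (fun _ => rfl) (Qa_emit 7)
  have κ5 : Cent (Qa 5) (Fin 10) (Fin 5) :=
    Cent.ofCard (Qa 5) true (Fin 10) (Fin 5) (by decide +kernel) (by decide +kernel)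
      (fun _ => rfl) (Qa_emit 4)
  obtain ⟨x1, x2, y1, y2, h11, h12, h21, h22, hs⟩ :=
    (LPA.afam (ZMod 3) κ8).pair 0 (Fintype.equivOfCardEq (by simp))
  -- the ring modulo 9
  have hn : (Fintype.card (Fin 10) : ZMod 9) = 1 := by decide
  let T' : Type := Matrix (Option (Fin 5)) (Option (Fin 5)) (S9 (R := ZMod 9) hn)
  letI : Ring T' := inferInstanceAs (Ring (Matrix _ _ _))
  have c3 : ∀ a : T', 3 * a = a * 3 := fun a => (Nat.cast_commute 3 a).eq
  let I : Ideal T' := Ideal.span {(3 : T')}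
  haveI : I.IsTwoSided := ⟨by
    intro a b ha
    obtain ⟨d, rfl⟩ := Ideal.mem_span_singleton'.mp ha
    apply Ideal.mem_span_singleton'.mpr
    exact ⟨d * b, by rw [mul_assoc, mul_assoc, c3]⟩⟩
  let T : Type := T' ⧸ I
  letI : Ring T := inferInstanceAs (Ring (T' ⧸ I))
  let π : T' →+* T := Ideal.Quotient.mk I
  have h3 : (3 : T) = 0 := by
    have : π 3 = 0 := Ideal.Quotient.eq_zero_iff_mem.mpr (Ideal.mem_span_singleton_self _)
    rwa [map_ofNat] at this
  have h9 : (9 : T') = 0 := by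
    have e1 : (9 : FA (Fin 10) (ZMod 9)) = 0 := by
      have : (algebraMap (ZMod 9) (FA (Fin 10) (ZMod 9))) 9 = 0 := by
        rw [show (9 : ZMod 9) = 0 by decide, map_zero]
      rwa [map_ofNat] at this
    have e2 : (9 : S9 (R := ZMod 9) hn) = 0 := by
      rw [← map_ofNat (mk9 hn) 9, e1, map_zero]
    have e3 : (Matrix.scalar (Option (Fin 5))) (9 : S9 (R := ZMod 9) hn) = (9 : T') :=
      map_ofNat _ 9
    rw [← e3, e2, map_zero]
  let η : AFam (Fin 10) (Fin 5) T' := matFam (X9 hn) (Y9 hn) (YX hn) (sumXY hn)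
  obtain ⟨h⟩ := exists_hom κ5 T h3 (η.map π)
  let ψ : LPA (ZMod 3) (Qa 8) →+* T := h.comp φ.symm.toRingHom
  refine no_pair T' T π Ideal.Quotient.mk_surjective ?_ h9 (matTr (tb hn))
    (matTr_add _ (tb_add hn)) (matTr_comm _ (tb_add hn) (tb_comm hn)) ?_
    (ψ x1) (ψ x2) (ψ y1) (ψ y2) ?_ ?_ ?_ ?_ ?_
  · intro a ha
    obtain ⟨d, hd⟩ := Ideal.mem_span_singleton'.mp (Ideal.Quotient.eq_zero_iff_mem.mp ha)
    exact ⟨d, by rw [← hd, c3]⟩
  · have := matTr_one (I := Option (Fin 5)) (tb (R := ZMod 9) hn) (tb_one hn)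
    change matTr (tb hn) (1 : Matrix (Option (Fin 5)) (Option (Fin 5)) _) ≠ 0
    rw [this]
    decide
  · rw [← map_mul, h11, map_one]
  · rw [← map_mul, h12, map_zero]
  · rw [← map_mul, h21, map_zero]
  · rw [← map_mul, h22, map_one]
  · rw [← map_mul, ← map_mul, ← map_add, hs, map_one]

end Pool.Agent.V11171.LK
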