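import Mathlib
import Pool.Agent.H921R2.TatePole.Base
import Pool.Agent.TH949.RES.GL3

/-! Places of degree one in an extension of number fields. -/

set_option autoImplicit false

namespace Pool.Agent.V11171.Split

open NumberField IsDedekindDomain
open Pool.Agent.TH861.GL3
open Pool.Agent.H921R2.TatePole (below deg nm nm_eq card_above)

section gen

/-- A summable family of nonnegative numbers pulled back along a map with bounded fibres. -/
theorem summable_comp {W V : Type*} (φ : W → V) (N : ℕ)
    (hN : ∀ v, ∀ G : Finset W, (∀ w ∈ G, φ w = v) → G.card ≤ N) {f : V → ℝ}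
    (hf0 : ∀ v, 0 ≤ f v) (hf : Summable f) : Summable fun w => f (φ w) := by
  classical
  refine summable_of_sum_le (c := N * ∑' v, f v) (fun w => hf0 _) fun u => ?_
  rw [Finset.sum_comp f φ]
  calc ∑ b ∈ u.image φ, (u.filter fun a => φ a = b).card • f b
      ≤ ∑ b ∈ u.image φ, (N : ℝ) * f b := by
        refine Finset.sum_le_sum fun b _ => ?_
        rw [nsmul_eq_mul]
        refine mul_le_mul_of_nonneg_right ?_ (hf0 b)
        exact_mod_cast hN b _ fun w hw => (Finset.mem_filter.1 hw).2
    _ = N * ∑ b ∈ u.image φ, f b := by rw [Finset.mul_sum]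
    _ ≤ N * ∑' v, f v := by
        refine mul_le_mul_of_nonneg_left ?_ (Nat.cast_nonneg _)
        exact hf.sum_le_tsum _ fun v _ => hf0 v

end gen

variable {K E : Type*} [Field K] [NumberField K] [Field E] [NumberField E] [Algebra K E]

/-- Places of degree at least two over `ℚ` contribute little. -/
theorem summable_deg_two {c : ℝ} (hc : 1 / 2 < c) :
    Summable fun w : {w : HeightOneSpectrum (𝓞 E) // deg w ≠ 1} => (qq w.1 : ℝ) ^ (-c) := by
  have h0 := H921R2.TatePole.summable_primes_rpow (x := 2 * c) (by linarith)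
  have h1 := summable_comp (fun w : {w : HeightOneSpectrum (𝓞 E) // deg w ≠ 1} => below w.1)
    (Module.finrank ℚ E) (fun p G hG => by
      classical
      have := card_above p (G.map (Function.Embedding.subtype _)) (by
        intro v hv
        rw [Finset.mem_map] at hv
        obtain ⟨u, hu, rfl⟩ := hv
        exact hG u hu)
      rwa [Finset.card_map] at this) (fun p => by positivity) h0
  refine Summable.of_nonneg_of_le (fun w => by positivity) (fun w => ?_) h1
  obtain ⟨h2, h3, -⟩ := nm_eq w.1
  have h4 : 2 ≤ deg w.1 := by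
    have := w.2
    omega
  have hp : (1 : ℝ) ≤ ((below w.1 : ℕ) : ℝ) := by exact_mod_cast (below w.1).prop.one_lt.le
  have h5 : (qq w.1 : ℝ) = ((below w.1 : ℕ) : ℝ) ^ (deg w.1) := by
    have : qq w.1 = nm w.1 := rfl
    rw [this, h2]
    push_cast
    rfl
  rw [h5, ← Real.rpow_natCast, ← Real.rpow_mul (by linarith)]
  refine Real.rpow_le_rpow_of_exponent_le hp ?_
  have h6 : (2 : ℝ) ≤ (deg w.1 : ℝ) := by exact_mod_cast h4
  nlinarith

variable (K E) in
/-- Only finitely many places of `E` are ramified over `K`. -/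
theorem isUnr_finite : {w : HeightOneSpectrum (𝓞 E) |
    ¬ Algebra.IsUnramifiedAt (𝓞 K) w.asIdeal}.Finite := by
  have h1 : differentIdeal (𝓞 K) (𝓞 E) ≠ 0 := differentIdeal_ne_bot
  refine (Ideal.finite_factors h1).subset fun w hw => ?_
  have := w.isPrime
  have hw' : ¬ Algebra.IsUnramifiedAt (𝓞 K) w.asIdeal := hw
  exact dvd_differentIdeal_iff.2 hw'

instance liesOver_under (w : HeightOneSpectrum (𝓞 E)) :
    w.asIdeal.LiesOver (w.under (𝓞 K)).asIdeal := ⟨rfl⟩

theorem qq_pow (w : HeightOneSpectrum (𝓞 E)) :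
    qq (w.under (𝓞 K)) ^ (w.asIdeal.inertiaDeg (𝓞 K)) = qq w := by
  unfold qq
  have := w.isPrime
  exact Ideal.absNorm_pow_inertiaDeg (w.under (𝓞 K)).asIdeal w.asIdeal

theorem qq_under_of_deg {w : HeightOneSpectrum (𝓞 E)} (hw : deg w = 1) :
    qq (w.under (𝓞 K)) = qq w := by
  have h := qq_pow (K := K) w
  obtain ⟨h2, -, -⟩ := nm_eq w
  rw [hw, pow_one] at h2
  have h3 : qq w = (below w : ℕ) := h2
  have hp : (qq w).Prime := by
    rw [h3]
    exact (below w).prop
  rw [← h] at hp
  have h4 := hp.eq_one_of_pow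
  rw [h4, pow_one] at h
  exact h

end Pool.Agent.V11171.Split
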