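import Mathlib
import Pool.Agent.V11171.SplitA

/-! Tempered places for `GL(3)` with a place of degree one in an extension. -/

set_option autoImplicit false

namespace Pool.Agent.V11171.Split

open NumberField IsDedekindDomain
open Pool.Agent.TH861.GL3
open Pool.Agent.TH949.RES
open Pool.Agent.H921R2.TatePole (below deg nm nm_eq card_above)

variable {K E : Type*} [Field K] [NumberField K] [Field E] [NumberField E] [Algebra K E]

variable (E) in
/-- The finite place `v` of `K` has an unramified place of degree one in `E`. -/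
def HasDegOne (v : HeightOneSpectrum (𝓞 K)) : Prop :=
  ∃ w : HeightOneSpectrum (𝓞 E), w.under (𝓞 K) = v ∧ qq w = qq v ∧ Algebra.IsUnramifiedAt (𝓞 K) w.asIdeal

/-- In a Galois extension such a place splits completely. -/
theorem ncard_of_galois [IsGalois K E] {v : HeightOneSpectrum (𝓞 K)} (hv : HasDegOne E v) :
    {w : HeightOneSpectrum (𝓞 E) | w.under (𝓞 K) = v}.ncard = Module.finrank K E := by
  obtain ⟨w, hwv, hq, hunr⟩ := hv
  have hwp := w.isPrime
  have hvp := v.isPrime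
  have hlo : w.asIdeal.LiesOver v.asIdeal := by
    rw [← hwv]
    infer_instance
  have h := Ideal.ncard_primesOver_mul_ramificationIdxIn_mul_inertiaDegIn v.asIdeal (𝓞 E) Gal(E/K)
  rw [Ideal.ramificationIdxIn_eq_ramificationIdx v.asIdeal w.asIdeal Gal(E/K),
    Ideal.inertiaDegIn_eq_inertiaDeg v.asIdeal w.asIdeal Gal(E/K),
    Ideal.ramificationIdx_eq_one_of_isUnramifiedAt, one_mul, IsGalois.card_aut_eq_finrank] at h
  have hf : w.asIdeal.inertiaDeg (𝓞 K) = 1 := by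
    have h1 := qq_pow (K := K) w
    rw [hwv, hq] at h1
    have h2 := two_le_qq v
    exact Nat.pow_right_injective h2 (h1.trans (pow_one _).symm)
  rw [hf, mul_one] at h
  rw [← h]
  have himg : v.asIdeal.primesOver (𝓞 E) =
      HeightOneSpectrum.asIdeal '' {w : HeightOneSpectrum (𝓞 E) | w.under (𝓞 K) = v} := by
    ext P
    constructor
    · rintro ⟨h1, h2⟩
      refine ⟨⟨P, h1, Ideal.ne_bot_of_liesOver_of_ne_bot v.ne_bot P⟩, ?_, rfl⟩
      exact HeightOneSpectrum.ext h2.over.symm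
    · rintro ⟨u, hu, rfl⟩
      refine ⟨u.isPrime, ?_⟩
      have hu' : u.under (𝓞 K) = v := hu
      rw [← hu']
      infer_instance
  rw [himg, Set.ncard_image_of_injective]
  intro a b hab
  exact HeightOneSpectrum.ext hab

/-- **Main lemma.** -/
theorem split_diverge {T : Finset (HeightOneSpectrum (𝓞 K))} {S : Finset (HeightOneSpectrum (𝓞 E))}
    {β : PL T → Fin 3 → ℂ} {α : PL S → Fin 3 → ℂ} (h : AutomorphicGL3 α)
    (hbc : ∀ (v : PL T) (w : PL S), w.1.under (𝓞 K) = v.1 → qq w.1 = qq v.1 →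
      Multiset.map (α w) Finset.univ.val = Multiset.map (β v) Finset.univ.val) {c : ℝ}
    (hc : c < 1 / 2 + 1 / (16 * (Module.finrank ℚ E : ℝ))) :
    ¬ Summable fun v : {v : PL T // HasDegOne E v.1 ∧ ‖∑ i, β v i‖ < 1 ∧ ∀ i, ‖β v i‖ = 1} =>
      (1 - ‖∑ i, β v.1 i‖ ^ 2) * (qq v.1.1 : ℝ) ^ (-c) := by
  classical
  intro hsum
  have hd : 1 ≤ Module.finrank ℚ E := Module.finrank_pos
  have hd' : (1 : ℝ) ≤ (Module.finrank ℚ E : ℝ) := by exact_mod_cast hd
  obtain ⟨e, he⟩ : ∃ e : ℝ, e = 1 / (16 * (Module.finrank ℚ E : ℝ)) := ⟨_, rfl⟩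
  have he0 : 0 < e := by rw [he]; positivity
  rw [← he] at hc
  obtain ⟨c', hc'⟩ : ∃ c' : ℝ, c' = max c (1 / 2 + e / 2) := ⟨_, rfl⟩
  have hlt : c' < 1 / 2 + e := by rw [hc']; exact max_lt hc (by linarith)
  have hgt : 1 / 2 < c' := by
    rw [hc']
    exact lt_of_lt_of_le (by linarith) (le_max_right _ _)
  have hcc : c ≤ c' := by rw [hc']; exact le_max_left _ _
  -- the series over the places of `K`, with exponent `c'`
  have hsum' : Summable fun v : {v : PL T // HasDegOne E v.1 ∧ ‖∑ i, β v i‖ < 1 ∧ ∀ i, ‖β v i‖ = 1} =>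
      (1 - ‖∑ i, β v.1 i‖ ^ 2) * (qq v.1.1 : ℝ) ^ (-c') := by
    refine Summable.of_nonneg_of_le (fun v => ?_) (fun v => ?_) hsum
    · have := v.2.2.1
      have h1 : 0 ≤ 1 - ‖∑ i, β v.1 i‖ ^ 2 := by nlinarith [norm_nonneg (∑ i, β v.1 i)]
      have := (qq_pos v.1.1).le
      positivity
    · have := v.2.2.1
      have h1 : 0 ≤ 1 - ‖∑ i, β v.1 i‖ ^ 2 := by nlinarith [norm_nonneg (∑ i, β v.1 i)]
      refine mul_le_mul_of_nonneg_left ?_ h1
      exact Real.rpow_le_rpow_of_exponent_le (one_lt_qq v.1.1).le (neg_le_neg hcc)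
  refine small_diverge h (c := c') (by rw [← he]; exact hlt) ?_
  -- transfer of the local data
  have hnorm : ∀ (v : PL T) (w : PL S), w.1.under (𝓞 K) = v.1 → qq w.1 = qq v.1 →
      (∑ i, α w i = ∑ i, β v i) ∧ ((∀ i, ‖α w i‖ = 1) → ∀ i, ‖β v i‖ = 1) := by
    intro v w h1 h2
    have h3 := hbc v w h1 h2
    constructor
    · have := congrArg Multiset.sum h3
      exact this
    · intro h4 i
      have h5 : β v i ∈ Multiset.map (α w) Finset.univ.val := by
        rw [h3]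
        exact Multiset.mem_map_of_mem _ (Finset.mem_univ i)
      obtain ⟨j, -, hj⟩ := Multiset.mem_map.1 h5
      rw [← hj]
      exact h4 j
  -- bad places
  have hA : Summable fun w : {w : PL S // deg w.1 ≠ 1} => (qq w.1.1 : ℝ) ^ (-c') := by
    have h0 := summable_deg_two (E := E) hgt
    refine h0.comp_injective (i := fun w : {w : PL S // deg w.1 ≠ 1} =>
      (⟨w.1.1, w.2⟩ : {w : HeightOneSpectrum (𝓞 E) // deg w ≠ 1})) ?_
    intro a b hab
    have := congrArg (fun x => x.1) hab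
    exact Subtype.ext (Subtype.ext this)
  have hBfin : {w : PL S | ¬ Algebra.IsUnramifiedAt (𝓞 K) w.1.asIdeal ∨
      (deg w.1 = 1 ∧ w.1.under (𝓞 K) ∈ T)}.Finite := by
    refine Set.Finite.union (s := {w : PL S | ¬ Algebra.IsUnramifiedAt (𝓞 K) w.1.asIdeal})
      (t := {w : PL S | deg w.1 = 1 ∧ w.1.under (𝓞 K) ∈ T}) ?_ ?_
    · exact (isUnr_finite K E).preimage Subtype.val_injective.injOn
    · have h1 := (finite_nm_le E (∑ v ∈ T, qq v)).preimage
        (f := fun w : PL S => w.1) Subtype.val_injective.injOn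
      refine h1.subset fun w hw => ?_
      have hw' : deg w.1 = 1 ∧ w.1.under (𝓞 K) ∈ T := hw
      have h2 := qq_under_of_deg (K := K) hw'.1
      change qq w.1 ≤ _
      rw [← h2]
      exact Finset.single_le_sum (f := fun v => qq v) (fun _ _ => Nat.zero_le _) hw'.2
  have hB : Summable fun w : {w : PL S // ¬ Algebra.IsUnramifiedAt (𝓞 K) w.1.asIdeal ∨
      (deg w.1 = 1 ∧ w.1.under (𝓞 K) ∈ T)} => (qq w.1.1 : ℝ) ^ (-c') := by
    have : Finite {w : PL S // ¬ Algebra.IsUnramifiedAt (𝓞 K) w.1.asIdeal ∨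
      (deg w.1 = 1 ∧ w.1.under (𝓞 K) ∈ T)} := hBfin.to_subtype
    exact Summable.of_finite
  -- good places
  have hφ : ∀ w : {w : PL S // deg w.1 = 1 ∧ Algebra.IsUnramifiedAt (𝓞 K) w.1.asIdeal ∧
      w.1.under (𝓞 K) ∉ T ∧ ‖∑ i, α w i‖ < 1}, HasDegOne E (w.1.1.under (𝓞 K)) ∧
      ‖∑ i, β ⟨w.1.1.under (𝓞 K), w.2.2.2.1⟩ i‖ < 1 ∧
      ∀ i, ‖β ⟨w.1.1.under (𝓞 K), w.2.2.2.1⟩ i‖ = 1 := by
    intro w
    have h2 := qq_under_of_deg (K := K) w.2.1
    obtain ⟨h3, h4⟩ := hnorm ⟨w.1.1.under (𝓞 K), w.2.2.2.1⟩ w.1 rfl h2.symm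
    refine ⟨⟨w.1.1, rfl, h2.symm, w.2.2.1⟩, ?_, ?_⟩
    · rw [← h3]
      exact w.2.2.2.2
    · exact h4 (tempered_of_small h w.2.2.2.2)
  have hC : Summable fun w : {w : PL S // deg w.1 = 1 ∧ Algebra.IsUnramifiedAt (𝓞 K) w.1.asIdeal ∧
      w.1.under (𝓞 K) ∉ T ∧ ‖∑ i, α w i‖ < 1} => small α w.1 * (qq w.1.1 : ℝ) ^ (-c') := by
    have h1 := summable_comp (fun w : {w : PL S // deg w.1 = 1 ∧
        Algebra.IsUnramifiedAt (𝓞 K) w.1.asIdeal ∧ w.1.under (𝓞 K) ∉ T ∧ ‖∑ i, α w i‖ < 1} =>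
        (⟨⟨w.1.1.under (𝓞 K), w.2.2.2.1⟩, hφ w⟩ :
          {v : PL T // HasDegOne E v.1 ∧ ‖∑ i, β v i‖ < 1 ∧ ∀ i, ‖β v i‖ = 1}))
      (Module.finrank ℚ E) (fun v G hG => by
        have := card_above (K := E) (below v.1.1)
          (G.map ⟨fun w => w.1.1, fun a b hab => Subtype.ext (Subtype.ext hab)⟩) (by
          intro u hu
          rw [Finset.mem_map] at hu
          obtain ⟨w, hw, rfl⟩ := hu
          have h2 := hG w hw
          have h3 : w.1.1.under (𝓞 K) = v.1.1 := congrArg (fun x => x.1.1) h2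
          have h4 := qq_under_of_deg (K := K) w.2.1
          rw [h3] at h4
          change below w.1.1 = below v.1.1
          unfold below
          have h5 : Ideal.absNorm w.1.1.asIdeal = Ideal.absNorm v.1.1.asIdeal := h4.symm
          apply Subtype.ext
          change (Ideal.absNorm w.1.1.asIdeal).minFac = (Ideal.absNorm v.1.1.asIdeal).minFac
          rw [h5])
        rwa [Finset.card_map] at this) (fun v => by
        have := v.2.2.1
        have h1 : 0 ≤ 1 - ‖∑ i, β v.1 i‖ ^ 2 := by nlinarith [norm_nonneg (∑ i, β v.1 i)]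
        have := (qq_pos v.1.1).le
        positivity) hsum'
    refine h1.congr fun w => ?_
    have h2 := qq_under_of_deg (K := K) w.2.1
    obtain ⟨h3, -⟩ := hnorm ⟨w.1.1.under (𝓞 K), w.2.2.2.1⟩ w.1 rfl h2.symm
    change (1 - ‖∑ i, β ⟨w.1.1.under (𝓞 K), w.2.2.2.1⟩ i‖ ^ 2) * (qq (w.1.1.under (𝓞 K)) : ℝ) ^ (-c') = _
    rw [h2, ← h3]
    congr 1
    unfold small
    have h5 := w.2.2.2.2
    rw [max_eq_right (by nlinarith [norm_nonneg (∑ i, α w.1 i)])]
  -- assembling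
  have iA := (summable_subtype_iff_indicator (s := {w : PL S | deg w.1 ≠ 1})
    (f := fun w : PL S => (qq w.1 : ℝ) ^ (-c'))).1 hA
  have iB := (summable_subtype_iff_indicator (s := {w : PL S |
      ¬ Algebra.IsUnramifiedAt (𝓞 K) w.1.asIdeal ∨ (deg w.1 = 1 ∧ w.1.under (𝓞 K) ∈ T)})
    (f := fun w : PL S => (qq w.1 : ℝ) ^ (-c'))).1 hB
  have iC := (summable_subtype_iff_indicator (s := {w : PL S | deg w.1 = 1 ∧
      Algebra.IsUnramifiedAt (𝓞 K) w.1.asIdeal ∧ w.1.under (𝓞 K) ∉ T ∧ ‖∑ i, α w i‖ < 1})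
    (f := fun w : PL S => small α w * (qq w.1 : ℝ) ^ (-c'))).1 hC
  have hq : ∀ w : PL S, 0 ≤ (qq w.1 : ℝ) ^ (-c') := fun w => by
    have := (qq_pos w.1).le
    positivity
  refine Summable.of_nonneg_of_le (fun w => mul_nonneg (small_nonneg α w) (hq w)) (fun w => ?_)
    ((iA.add iB).add iC)
  have a0 : 0 ≤ Set.indicator {w : PL S | deg w.1 ≠ 1} (fun w : PL S => (qq w.1 : ℝ) ^ (-c')) w :=
    Set.indicator_nonneg (fun w _ => hq w) w
  have b0 : 0 ≤ Set.indicator {w : PL S |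
      ¬ Algebra.IsUnramifiedAt (𝓞 K) w.1.asIdeal ∨ (deg w.1 = 1 ∧ w.1.under (𝓞 K) ∈ T)}
      (fun w : PL S => (qq w.1 : ℝ) ^ (-c')) w :=
    Set.indicator_nonneg (fun w _ => hq w) w
  have c0 : 0 ≤ Set.indicator {w : PL S | deg w.1 = 1 ∧
      Algebra.IsUnramifiedAt (𝓞 K) w.1.asIdeal ∧ w.1.under (𝓞 K) ∉ T ∧ ‖∑ i, α w i‖ < 1}
      (fun w : PL S => small α w * (qq w.1 : ℝ) ^ (-c')) w :=
    Set.indicator_nonneg (fun w _ => mul_nonneg (small_nonneg α w) (hq w)) w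
  have hle : small α w * (qq w.1 : ℝ) ^ (-c') ≤ (qq w.1 : ℝ) ^ (-c') :=
    mul_le_of_le_one_left (hq w) (small_le α w)
  by_cases h1 : deg w.1 ≠ 1
  · rw [Set.indicator_of_mem (s := {w : PL S | deg w.1 ≠ 1}) h1]
    linarith
  · push Not at h1
    by_cases h2 : ¬ Algebra.IsUnramifiedAt (𝓞 K) w.1.asIdeal ∨ (deg w.1 = 1 ∧ w.1.under (𝓞 K) ∈ T)
    · rw [Set.indicator_of_mem (s := {w : PL S |
      ¬ Algebra.IsUnramifiedAt (𝓞 K) w.1.asIdeal ∨ (deg w.1 = 1 ∧ w.1.under (𝓞 K) ∈ T)}) h2]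
      linarith
    · by_cases h3 : ‖∑ i, α w i‖ < 1
      · have h4 : Algebra.IsUnramifiedAt (𝓞 K) w.1.asIdeal := by
          by_contra h5
          exact h2 (Or.inl h5)
        have h5 : w.1.under (𝓞 K) ∉ T := fun h6 => h2 (Or.inr ⟨h1, h6⟩)
        rw [Set.indicator_of_mem (s := {w : PL S | deg w.1 = 1 ∧
          Algebra.IsUnramifiedAt (𝓞 K) w.1.asIdeal ∧ w.1.under (𝓞 K) ∉ T ∧ ‖∑ i, α w i‖ < 1})
          ⟨h1, h4, h5, h3⟩]
        linarith
      · have h4 : small α w = 0 := by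
          unfold small
          push Not at h3
          exact max_eq_left (by nlinarith)
        rw [h4, zero_mul]
        linarith

end Pool.Agent.V11171.Split
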