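import Mathlib
import Pool.Agent.Helper549.Tri.Defs
import Pool.Agent.Helper549.Tri.Basic
import Pool.Agent.Helper549.Tri.Odd

/-!
# Weights of directions for tilings by triangles with an angle of 120 degrees
-/

set_option autoImplicit false

noncomputable section

open scoped BigOperators

namespace Pool.Agent.V11171.TilW

open Pool.Agent.Helper549.Tri

/-- the sixth root of unity -/
def om : ℂ := ⟨1 / 2, √3 / 2⟩

theorem om_sq : om ^ 2 = om - 1 := by
  have h3 : √3 * √3 = 3 := Real.mul_self_sqrt (by norm_num)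
  apply Complex.ext
  · simp only [om, sq, Complex.mul_re, Complex.sub_re, Complex.one_re]
    linear_combination (-1 / 4) * h3
  · simp only [om, sq, Complex.mul_im, Complex.sub_im, Complex.one_im]
    ring

theorem om_cube : om ^ 3 = -1 := by
  have h := om_sq
  linear_combination (om + 1) * h

theorem om_ne : om ≠ 0 := by
  intro h
  have := om_cube
  rw [h] at this
  norm_num at this

theorem om_six : om ^ 6 = 1 := by
  have h := om_cube
  calc om ^ 6 = (om ^ 3) ^ 2 := by ring
    _ = 1 := by rw [h]; ring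

/-- unit vectors p, q with a p + b q + c r = 0, counterclockwise -/
theorem turn (p q r : ℂ) (hp : ‖p‖ = 1) (hq : ‖q‖ = 1) (hr : ‖r‖ = 1) (a b c x : ℝ) (ha : 0 < a)
    (hb : 0 < b) (h : (a : ℂ) * p + b * q + c * r = 0) (hx : c ^ 2 = a ^ 2 + b ^ 2 + 2 * a * b * x)
    (hpos : 0 < cr p q) : q = ⟨x, √(1 - x ^ 2)⟩ * p := by
  have np : p.re * p.re + p.im * p.im = 1 := by
    have := Complex.normSq_eq_norm_sq p
    rw [hp, Complex.normSq_apply] at this
    linarith
  have nq : q.re * q.re + q.im * q.im = 1 := by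
    have := Complex.normSq_eq_norm_sq q
    rw [hq, Complex.normSq_apply] at this
    linarith
  have nr : r.re * r.re + r.im * r.im = 1 := by
    have := Complex.normSq_eq_norm_sq r
    rw [hr, Complex.normSq_apply] at this
    linarith
  have hre : a * p.re + b * q.re + c * r.re = 0 := by
    have := congrArg Complex.re h
    simpa using this
  have him : a * p.im + b * q.im + c * r.im = 0 := by
    have := congrArg Complex.im h
    simpa using this
  -- dot product
  have hdot : p.re * q.re + p.im * q.im = x := by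
    have e1 : (a * p.re + b * q.re) ^ 2 + (a * p.im + b * q.im) ^ 2 = c ^ 2 := by
      have h1 : a * p.re + b * q.re = - (c * r.re) := by linarith
      have h2 : a * p.im + b * q.im = - (c * r.im) := by linarith
      rw [h1, h2]
      linear_combination c ^ 2 * nr
    have e2 : 2 * (a * b) * (p.re * q.re + p.im * q.im - x) = 0 := by
      linear_combination e1 + hx - a ^ 2 * np - b ^ 2 * nq
    have hab : 2 * (a * b) ≠ 0 := by positivity
    rcases mul_eq_zero.1 e2 with e3 | e3
    · exact absurd e3 hab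
    · linarith
  obtain ⟨y, hy⟩ : ∃ y, y = p.re * q.im - p.im * q.re := ⟨_, rfl⟩
  have hy0 : 0 < y := by
    rw [hy]
    have : cr p q = p.re * q.im - p.im * q.re := rfl
    rw [← this]; exact hpos
  have hxy : x ^ 2 + y ^ 2 = 1 := by
    rw [← hdot, hy]
    linear_combination (q.re * q.re + q.im * q.im) * np + nq
  have hyv : √(1 - x ^ 2) = y := by
    have : 1 - x ^ 2 = y ^ 2 := by linarith
    rw [this, Real.sqrt_sq hy0.le]
  rw [hyv]
  apply Complex.ext
  · simp only [Complex.mul_re]
    rw [← hdot, hy]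
    linear_combination (-q.re) * np
  · simp only [Complex.mul_im]
    rw [← hdot, hy]
    linear_combination (-q.im) * np

theorem sum3 (F : Fin 3 → ℂ) (k : Fin 3) : ∑ m, F m = F k + F (k + 1) + F (k + 2) := by
  rw [Fin.sum_univ_three]
  rcases Basic.fin3_cases k with rfl | rfl | rfl
  · rfl
  · rw [Basic.e11, Basic.e12]; ring
  · rw [Basic.e21, Basic.e22]; ring

theorem closes (v : Fin 3 → ℂ) (hv : 0 < dd v) (k : Fin 3) :
    (len v k : ℂ) * dir v k + (len v (k + 1) : ℂ) * dir v (k + 1) +
      (len v (k + 2) : ℂ) * dir v (k + 2) = 0 := by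
  rw [← sum3 (fun m => (len v m : ℂ) * dir v m) k]
  rw [Fin.sum_univ_three, ← Basic.sd_eq v hv, ← Basic.sd_eq v hv, ← Basic.sd_eq v hv]
  simp only [sd]
  rw [Basic.e01, Basic.e02, Basic.e11, Basic.e12, Basic.e21, Basic.e22]
  ring

/-- the directions of a tile whose sides are `a, b, c` in counterclockwise order -/
theorem tile_dir (v : Fin 3 → ℂ) (hv : 0 < dd v) (k : Fin 3) (a b c : ℝ) (ha : 0 < a) (hb : 0 < b)
    (hc : 0 < c) (h : c ^ 2 = a ^ 2 + b ^ 2 + a * b) (h0 : len v k = a) (h1 : len v (k + 1) = b)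
    (h2 : len v (k + 2) = c) :
    dir v (k + 1) = om * dir v k ∧
      dir v (k + 2) = - (((a : ℂ) + b * om) / c) * dir v k := by
  have hcl := closes v hv k
  rw [h0, h1, h2] at hcl
  have ht := turn (dir v k) (dir v (k + 1)) (dir v (k + 2)) (Basic.norm_dir v hv k)
    (Basic.norm_dir v hv (k + 1)) (Basic.norm_dir v hv (k + 2)) a b c (1 / 2) ha hb hcl
    (by rw [h]; ring) (Odd.cr_dir_pos v hv k)
  have hom : (⟨1 / 2, √(1 - (1 / 2) ^ 2)⟩ : ℂ) = om := by
    unfold om
    congr 1
    have : (1 : ℝ) - (1 / 2) ^ 2 = 3 / 4 := by norm_num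
    rw [this, Real.sqrt_div (by norm_num), show (4 : ℝ) = 2 ^ 2 by norm_num,
      Real.sqrt_sq (by norm_num)]
  rw [hom] at ht
  refine ⟨ht, ?_⟩
  rw [ht] at hcl
  have hc0 : (c : ℂ) ≠ 0 := by exact_mod_cast hc.ne'
  field_simp
  linear_combination hcl

/-- the directions of an equilateral triangle -/
theorem equi_dir (v : Fin 3 → ℂ) (hv : 0 < dd v) (X : ℝ) (hX : 0 < X) (h : ∀ k, len v k = X) :
    dir v 1 = om ^ 2 * dir v 0 ∧ dir v 2 = - om * dir v 0 := by
  have hcl := closes v hv 0
  rw [h, h, h] at hcl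
  have e1 : (0 : Fin 3) + 1 = 1 := rfl
  have e2 : (0 : Fin 3) + 2 = 2 := rfl
  rw [e1, e2] at hcl
  have hpos := Odd.cr_dir_pos v hv 0
  rw [e1] at hpos
  have ht := turn (dir v 0) (dir v 1) (dir v 2) (Basic.norm_dir v hv 0)
    (Basic.norm_dir v hv 1) (Basic.norm_dir v hv 2) X X X (-1 / 2) hX hX hcl
    (by ring) hpos
  have hom : (⟨-1 / 2, √(1 - (-1 / 2) ^ 2)⟩ : ℂ) = om ^ 2 := by
    rw [om_sq]
    apply Complex.ext
    · simp only [om, Complex.sub_re, Complex.one_re]; norm_num
    · simp only [om, Complex.sub_im, Complex.one_im]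
      have : (1 : ℝ) - (-1 / 2) ^ 2 = 3 / 4 := by norm_num
      rw [this, Real.sqrt_div (by norm_num), show (4 : ℝ) = 2 ^ 2 by norm_num,
        Real.sqrt_sq (by norm_num), sub_zero]
  rw [hom] at ht
  refine ⟨ht, ?_⟩
  rw [ht] at hcl
  have hX0 : (X : ℂ) ≠ 0 := by exact_mod_cast hX.ne'
  have h2 : dir v 0 + om ^ 2 * dir v 0 + dir v 2 = 0 := by
    have h3 : (X : ℂ) * (dir v 0 + om ^ 2 * dir v 0 + dir v 2) = 0 := by
      linear_combination hcl
    rcases mul_eq_zero.1 h3 with h4 | h4
    · exact absurd h4 hX0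
    · exact h4
  rw [om_sq] at h2
  linear_combination h2

end Pool.Agent.V11171.TilW
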