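import Mathlib
import Pool.Agent.V11171.TilW

/-!
# The weight of a direction
-/

set_option autoImplicit false

noncomputable section

open scoped BigOperators

namespace Pool.Agent.V11171.TilX

open Pool.Agent.Helper549.Tri Pool.Agent.V11171.TilW

/-- the direction of the third side -/
def uu (a b c : ℕ) : ℂ := ((a : ℂ) + b * om) / c

theorem uu_mul (a b c : ℕ) (hc : 0 < c) (h : c ^ 2 = a ^ 2 + b ^ 2 + a * b) :
    uu a b c * (((b : ℂ) + a * om) / c) = om := by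
  have hc0 : (c : ℂ) ≠ 0 := by exact_mod_cast hc.ne'
  have hC : (c : ℂ) ^ 2 = (a : ℂ) ^ 2 + (b : ℂ) ^ 2 + a * b := by exact_mod_cast h
  unfold uu
  field_simp
  rw [hC]
  linear_combination (a * b : ℂ) * om_sq

theorem uu_ne (a b c : ℕ) (hc : 0 < c) (h : c ^ 2 = a ^ 2 + b ^ 2 + a * b) : uu a b c ≠ 0 := by
  intro h0
  have := uu_mul a b c hc h
  rw [h0, zero_mul] at this
  exact om_ne this.symm

theorem conj_om : (starRingEnd ℂ) om = 1 - om := by
  apply Complex.ext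
  · simp [om]; norm_num
  · simp [om]

/-- if `z` is a root of unity and `z + conj z` is rational, it is an integer -/
theorem trace_int (z : ℂ) (n : ℕ) (hn : 0 < n) (hz : z ^ n = 1) (r : ℚ)
    (hr : z + (starRingEnd ℂ) z = (r : ℂ)) : ∃ m : ℤ, r = m := by
  have h1 : IsIntegral ℤ z := by
    apply IsIntegral.of_pow hn
    rw [hz]; exact isIntegral_one
  have h2 : IsIntegral ℤ ((starRingEnd ℂ) z) := by
    apply IsIntegral.of_pow hn
    rw [← map_pow, hz, map_one]; exact isIntegral_one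
  have h3 : IsIntegral ℤ ((r : ℚ) : ℂ) := by
    rw [← hr]; exact h1.add h2
  have h4 : IsIntegral ℤ (algebraMap ℚ ℂ r) := by simpa using h3
  have h5 : IsIntegral ℤ r := (isIntegral_algebraMap_iff (algebraMap ℚ ℂ).injective).1 h4
  obtain ⟨m, hm⟩ := IsIntegrallyClosed.isIntegral_iff.1 h5
  exact ⟨m, by rw [← hm]; simp⟩

theorem not_root (a b c : ℕ) (ha : 0 < a) (hb : 0 < b) (hc : 0 < c) (hab : Nat.Coprime a b)
    (h : c ^ 2 = a ^ 2 + b ^ 2 + a * b) (n : ℕ) (hn : 0 < n) : uu a b c ^ n ≠ 1 := by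
  intro hu
  have hc0 : (c : ℂ) ≠ 0 := by exact_mod_cast hc.ne'
  have hcq : (c : ℚ) ≠ 0 := by exact_mod_cast hc.ne'
  have conj_uu : (starRingEnd ℂ) (uu a b c) = ((a : ℂ) + b * (1 - om)) / c := by
    unfold uu
    rw [map_div₀, map_add, map_mul, conj_om]
    simp
  obtain ⟨m, hm⟩ := trace_int (uu a b c) n hn hu ((2 * a + b) / c) (by
    rw [conj_uu]
    unfold uu
    push_cast
    field_simp
    ring)
  have hu6 : (om * uu a b c) ^ (6 * n) = 1 := by
    rw [mul_pow, pow_mul, om_six, one_pow, one_mul, mul_comm 6 n, pow_mul, hu, one_pow]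
  obtain ⟨m', hm'⟩ := trace_int (om * uu a b c) (6 * n) (by omega) hu6 ((a - b) / c) (by
    rw [map_mul, conj_uu, conj_om]
    unfold uu
    push_cast
    field_simp
    linear_combination (2 * b : ℂ) * om_sq)
  have e1 : (2 * a + b : ℤ) = m * c := by
    have : (2 * a + b : ℚ) = m * c := by rw [← hm]; field_simp
    exact_mod_cast this
  have e2 : (a - b : ℤ) = m' * c := by
    have : (a - b : ℚ) = m' * c := by rw [← hm']; field_simp
    exact_mod_cast this
  have d1 : (c : ℤ) ∣ 3 * a := ⟨m + m', by linear_combination e1 + e2⟩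
  have d2 : (c : ℤ) ∣ 3 * b := ⟨m - 2 * m', by linear_combination e1 - 2 * e2⟩
  have d3 : (c : ℤ) ∣ 3 := by
    have hcop : IsCoprime (a : ℤ) (b : ℤ) := Nat.isCoprime_iff_coprime.2 hab
    obtain ⟨x, y, hxy⟩ := hcop
    have : (3 : ℤ) = x * (3 * a) + y * (3 * b) := by linear_combination (-3 : ℤ) * hxy
    rw [this]
    exact dvd_add (dvd_mul_of_dvd_right d1 x) (dvd_mul_of_dvd_right d2 y)
  have d4 : c ∣ 3 := by exact_mod_cast d3
  have hc3 : c ≤ 3 := Nat.le_of_dvd (by norm_num) d4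
  have ha3 : a ≤ 3 := by nlinarith
  have hb3 : b ≤ 3 := by nlinarith
  interval_cases c <;> interval_cases a <;> interval_cases b <;> omega

theorem odd_of (k : ℤ) (h : om ^ k = 1) : (-1 : ℂ) ^ k = 1 := by
  have h1 : (om ^ k) ^ (3 : ℤ) = (-1 : ℂ) ^ k := by
    rw [← zpow_mul, mul_comm, zpow_mul]
    congr 1
    have := om_cube
    exact_mod_cast this
  rw [← h1, h, one_zpow]

theorem indep (a b c : ℕ) (ha : 0 < a) (hb : 0 < b) (hc : 0 < c) (hab : Nat.Coprime a b)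
    (h : c ^ 2 = a ^ 2 + b ^ 2 + a * b) (k j : ℤ) (hkj : om ^ k * uu a b c ^ j = 1) :
    j = 0 ∧ (-1 : ℂ) ^ k = 1 := by
  have hj : j = 0 := by
    by_contra hj
    have h6 : (uu a b c ^ j) ^ (6 : ℤ) = 1 := by
      have h1 : (om ^ k * uu a b c ^ j) ^ (6 : ℤ) = 1 := by rw [hkj, one_zpow]
      rw [mul_zpow, ← zpow_mul, mul_comm k 6, zpow_mul] at h1
      have h2 : om ^ (6 : ℤ) = 1 := by exact_mod_cast om_six
      rw [h2, one_zpow, one_mul] at h1
      exact h1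
    rw [← zpow_mul] at h6
    obtain ⟨n, hn⟩ : ∃ n : ℕ, n = (j * 6).natAbs := ⟨_, rfl⟩
    have hn0 : 0 < n := by omega
    apply not_root a b c ha hb hc hab h n hn0
    rcases Int.natAbs_eq (j * 6) with h3 | h3
    · rw [h3, ← hn, zpow_natCast] at h6
      exact h6
    · rw [h3, ← hn, zpow_neg, zpow_natCast, inv_eq_one] at h6
      exact h6
  subst hj
  rw [zpow_zero, mul_one] at hkj
  exact ⟨rfl, odd_of k hkj⟩

open Classical in
/-- the weight of a direction -/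
def wt (a b c : ℕ) (d : ℂ) (z : ℂ) : ℂ :=
  if h : ∃ p : ℤ × ℤ, z = d * om ^ p.1 * uu a b c ^ p.2 then
    (-1 : ℂ) ^ h.choose.1 * (((a : ℂ) - b) / c) ^ h.choose.2 else 0

section

variable (a b c : ℕ) (ha : 0 < a) (hb : 0 < b) (hc : 0 < c) (hab : Nat.Coprime a b)
    (h : c ^ 2 = a ^ 2 + b ^ 2 + a * b) (d : ℂ) (hd : d ≠ 0)

include ha hb hc hab h hd

theorem wt_val (k j : ℤ) : wt a b c d (d * om ^ k * uu a b c ^ j) =
    (-1 : ℂ) ^ k * (((a : ℂ) - b) / c) ^ j := by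
  have hex : ∃ p : ℤ × ℤ, d * om ^ k * uu a b c ^ j = d * om ^ p.1 * uu a b c ^ p.2 :=
    ⟨(k, j), rfl⟩
  unfold wt
  rw [dif_pos hex]
  have hs := hex.choose_spec
  obtain ⟨p, hp⟩ : ∃ p, p = hex.choose := ⟨_, rfl⟩
  rw [← hp] at hs ⊢
  have hu0 := uu_ne a b c hc h
  have ho0 := om_ne
  have h1 : om ^ (p.1 - k) * uu a b c ^ (p.2 - j) = 1 := by
    rw [zpow_sub₀ ho0, zpow_sub₀ hu0]
    have e1 : om ^ k * uu a b c ^ j = om ^ p.1 * uu a b c ^ p.2 := by
      have : d * (om ^ k * uu a b c ^ j) = d * (om ^ p.1 * uu a b c ^ p.2) := by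
        linear_combination hs
      exact mul_left_cancel₀ hd this
    have e2 : om ^ k ≠ 0 := zpow_ne_zero _ ho0
    have e3 : uu a b c ^ j ≠ 0 := zpow_ne_zero _ hu0
    field_simp
    linear_combination - e1
  obtain ⟨h2, h3⟩ := indep a b c ha hb hc hab h _ _ h1
  have h4 : p.2 = j := by omega
  rw [zpow_sub₀ (by norm_num : (-1 : ℂ) ≠ 0)] at h3
  have h5 : (-1 : ℂ) ^ p.1 = (-1) ^ k := by
    have e2 : (-1 : ℂ) ^ k ≠ 0 := zpow_ne_zero _ (by norm_num)
    field_simp at h3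
    exact h3
  rw [h4, h5]

omit ha hb hc hab h hd in
theorem wt_zero (z : ℂ) (hz : ¬ ∃ p : ℤ × ℤ, z = d * om ^ p.1 * uu a b c ^ p.2) :
    wt a b c d z = 0 := by
  unfold wt
  rw [dif_neg hz]

theorem wt_om (z : ℂ) : wt a b c d (om * z) = - wt a b c d z := by
  by_cases hz : ∃ p : ℤ × ℤ, z = d * om ^ p.1 * uu a b c ^ p.2
  · obtain ⟨⟨k, j⟩, rfl⟩ := hz
    have e : om * (d * om ^ k * uu a b c ^ j) = d * om ^ (k + 1) * uu a b c ^ j := by
      rw [zpow_add_one₀ om_ne]; ring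
    rw [e, wt_val a b c ha hb hc hab h d hd, wt_val a b c ha hb hc hab h d hd,
      zpow_add_one₀ (by norm_num : (-1 : ℂ) ≠ 0)]
    ring
  · rw [wt_zero a b c d z hz, wt_zero, neg_zero]
    rintro ⟨⟨k, j⟩, hk⟩
    apply hz
    refine ⟨(k - 1, j), ?_⟩
    show z = d * om ^ (k - 1) * uu a b c ^ j
    rw [zpow_sub_one₀ om_ne]
    have ho := om_ne
    have hk' : om * z = d * om ^ k * uu a b c ^ j := hk
    field_simp
    linear_combination hk'

theorem wt_uu (hne : a ≠ b) (z : ℂ) :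
    wt a b c d (uu a b c * z) = ((a : ℂ) - b) / c * wt a b c d z := by
  have hs0 : ((a : ℂ) - b) / c ≠ 0 := by
    apply div_ne_zero
    · rw [sub_ne_zero]
      exact_mod_cast hne
    · exact_mod_cast hc.ne'
  have hu0 := uu_ne a b c hc h
  by_cases hz : ∃ p : ℤ × ℤ, z = d * om ^ p.1 * uu a b c ^ p.2
  · obtain ⟨⟨k, j⟩, rfl⟩ := hz
    have e : uu a b c * (d * om ^ k * uu a b c ^ j) = d * om ^ k * uu a b c ^ (j + 1) := by
      rw [zpow_add_one₀ hu0]; ring
    rw [e, wt_val a b c ha hb hc hab h d hd, wt_val a b c ha hb hc hab h d hd,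
      zpow_add_one₀ hs0]
    ring
  · rw [wt_zero a b c d z hz, wt_zero, mul_zero]
    rintro ⟨⟨k, j⟩, hk⟩
    apply hz
    refine ⟨(k, j - 1), ?_⟩
    show z = d * om ^ k * uu a b c ^ (j - 1)
    rw [zpow_sub_one₀ hu0]
    have hk' : uu a b c * z = d * om ^ k * uu a b c ^ j := hk
    have : z = (uu a b c)⁻¹ * (uu a b c * z) := by
      rw [inv_mul_cancel_left₀ hu0]
    rw [this, hk']
    ring

theorem wt_neg (z : ℂ) : wt a b c d (-z) = - wt a b c d z := by
  have e : -z = om * (om * (om * z)) := by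
    linear_combination (-z) * om_cube
  rw [e, wt_om a b c ha hb hc hab h d hd, wt_om a b c ha hb hc hab h d hd,
    wt_om a b c ha hb hc hab h d hd]
  ring

/-- a power of `(a - b) c` turns a weight into an integer -/
theorem wt_int (hne : a ≠ b) (z : ℂ) : ∃ (K : ℕ) (M : ℤ),
    wt a b c d z * ((((a : ℤ) - b) * c : ℤ) : ℂ) ^ K = (M : ℂ) := by
  have hA : ((a : ℂ) - b) ≠ 0 := by
    rw [sub_ne_zero]
    exact_mod_cast hne
  have hC : (c : ℂ) ≠ 0 := by exact_mod_cast hc.ne'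
  by_cases hz : ∃ p : ℤ × ℤ, z = d * om ^ p.1 * uu a b c ^ p.2
  · obtain ⟨⟨k, j⟩, rfl⟩ := hz
    rw [wt_val a b c ha hb hc hab h d hd]
    have hpm : (-1 : ℂ) ^ k = 1 ∨ (-1 : ℂ) ^ k = -1 := by
      rcases Int.even_or_odd k with h1 | h1
      · left; exact h1.neg_one_zpow
      · right; exact h1.neg_one_zpow
    obtain ⟨e, he⟩ : ∃ e : ℤ, (-1 : ℂ) ^ k = (e : ℂ) := by
      rcases hpm with h1 | h1
      · exact ⟨1, by rw [h1]; simp⟩
      · exact ⟨-1, by rw [h1]; simp⟩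
    rw [he]
    refine ⟨j.natAbs, ?_⟩
    rcases Int.natAbs_eq j with h1 | h1
    · refine ⟨e * ((a : ℤ) - b) ^ (2 * j.natAbs), ?_⟩
      rw [h1, zpow_natCast]
      simp only [Int.natAbs_natCast]
      push_cast
      rw [mul_assoc, ← mul_pow]
      have : ((a : ℂ) - b) / c * ((a - b) * c) = (a - b) ^ 2 := by field_simp
      rw [this, ← pow_mul]
    · refine ⟨e * (c : ℤ) ^ (2 * j.natAbs), ?_⟩
      rw [h1, zpow_neg, zpow_natCast, Int.natAbs_neg, Int.natAbs_natCast]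
      push_cast
      rw [mul_assoc, ← inv_pow, ← mul_pow]
      have : (((a : ℂ) - b) / c)⁻¹ * ((a - b) * c) = c ^ 2 := by field_simp
      rw [this, ← pow_mul]
  · rw [wt_zero a b c d z hz]
    exact ⟨0, 0, by simp⟩

end

end Pool.Agent.V11171.TilX
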