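import Mathlib
import Pool.Agent.V11171.TilX

/-!
# Divisibility of the side of a tiled equilateral triangle
-/

set_option autoImplicit false

noncomputable section

open scoped BigOperators

namespace Pool.Agent.V11171.TilY

open Pool.Agent.Helper549.Tri Pool.Agent.V11171.TilW Pool.Agent.V11171.TilX

theorem perm_cases (τ : Equiv.Perm (Fin 3)) :
    ∃ k, (τ k = 0 ∧ τ (k + 1) = 1 ∧ τ (k + 2) = 2) ∨ (τ k = 1 ∧ τ (k + 1) = 0 ∧ τ (k + 2) = 2) := by
  revert τ
  decide

/-- the contribution of one tile -/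
theorem tile_sum (a b c : ℕ) (ha : 0 < a) (hb : 0 < b) (hc : 0 < c) (hab : Nat.Coprime a b)
    (h : c ^ 2 = a ^ 2 + b ^ 2 + a * b) (d : ℂ) (hd : d ≠ 0) (hne : a ≠ b)
    (v : Fin 3 → ℂ) (hv : 0 < dd v) (τ : Equiv.Perm (Fin 3))
    (hlen : ∀ m, len v m = (![(a : ℝ), b, c] : Fin 3 → ℝ) (τ m)) :
    ∃ (K : ℕ) (M : ℤ), ((a : ℂ) - b) * (∑ k, (len v k : ℂ) * wt a b c d (dir v k)) *
      ((((a : ℤ) - b) * c : ℤ) : ℂ) ^ K = 3 * a * b * (M : ℂ) := by
  have hR : (c : ℝ) ^ 2 = (a : ℝ) ^ 2 + (b : ℝ) ^ 2 + a * b := by exact_mod_cast h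
  have hC : (c : ℂ) ^ 2 = (a : ℂ) ^ 2 + (b : ℂ) ^ 2 + a * b := by exact_mod_cast h
  have haR : (0 : ℝ) < a := by exact_mod_cast ha
  have hbR : (0 : ℝ) < b := by exact_mod_cast hb
  have hcR : (0 : ℝ) < c := by exact_mod_cast hc
  have hA : ((a : ℂ) - b) ≠ 0 := by
    rw [sub_ne_zero]
    exact_mod_cast hne
  have hcC : (c : ℂ) ≠ 0 := by exact_mod_cast hc.ne'
  obtain ⟨k, hk | hk⟩ := perm_cases τ
  · obtain ⟨h0, h1, h2⟩ := hk
    have l0 : len v k = a := by rw [hlen, h0]; rfl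
    have l1 : len v (k + 1) = b := by rw [hlen, h1]; rfl
    have l2 : len v (k + 2) = c := by rw [hlen, h2]; rfl
    obtain ⟨d1, d2⟩ := tile_dir v hv k a b c haR hbR hcR hR l0 l1 l2
    have d2' : dir v (k + 2) = -(uu a b c * dir v k) := by
      rw [d2]; unfold uu; push_cast; ring
    refine ⟨0, 0, ?_⟩
    rw [sum3 _ k, l0, l1, l2, d1, d2', wt_neg a b c ha hb hc hab h d hd,
      wt_om a b c ha hb hc hab h d hd, wt_uu a b c ha hb hc hab h d hd hne]
    push_cast
    field_simp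
    ring
  · obtain ⟨h0, h1, h2⟩ := hk
    have l0 : len v k = b := by rw [hlen, h0]; rfl
    have l1 : len v (k + 1) = a := by rw [hlen, h1]; rfl
    have l2 : len v (k + 2) = c := by rw [hlen, h2]; rfl
    obtain ⟨d1, d2⟩ := tile_dir v hv k b a c hbR haR hcR (by rw [hR]; ring) l0 l1 l2
    obtain ⟨y, hy⟩ : ∃ y, y = (((b : ℂ) + a * om) / c) * dir v k := ⟨_, rfl⟩
    have d2' : dir v (k + 2) = -y := by
      rw [d2, hy]; push_cast; ring
    have huy : uu a b c * y = om * dir v k := by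
      rw [hy, ← mul_assoc, uu_mul a b c hc h]
    have hwy : ((a : ℂ) - b) / c * wt a b c d y = - wt a b c d (dir v k) := by
      rw [← wt_uu a b c ha hb hc hab h d hd hne, huy, wt_om a b c ha hb hc hab h d hd]
    obtain ⟨K, M, hKM⟩ := wt_int a b c ha hb hc hab h d hd hne (dir v k)
    refine ⟨K, M, ?_⟩
    rw [← hKM, sum3 _ k, l0, l1, l2, d1, d2', wt_neg a b c ha hb hc hab h d hd,
      wt_om a b c ha hb hc hab h d hd]
    have hwy' : ((a : ℂ) - b) * wt a b c d y = - (c * wt a b c d (dir v k)) := by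
      field_simp at hwy
      linear_combination hwy
    push_cast
    linear_combination (-(c : ℂ)) * (((a : ℂ) - b) * c) ^ K * hwy' +
      wt a b c d (dir v k) * (((a : ℂ) - b) * c) ^ K * hC

theorem nat_sum {ι : Type} (s : Finset ι) (f : ι → ℝ) (h : ∀ i ∈ s, ∃ n : ℕ, f i = n) :
    ∃ n : ℕ, ∑ i ∈ s, f i = n := by
  classical
  induction s using Finset.induction_on with
  | empty => exact ⟨0, by simp⟩
  | insert i s hi ih =>
    obtain ⟨n, hn⟩ := ih fun j hj => h j (Finset.mem_insert_of_mem hj)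
    obtain ⟨m, hm⟩ := h i (Finset.mem_insert_self i s)
    exact ⟨m + n, by rw [Finset.sum_insert hi, hn, hm]; push_cast; ring⟩

theorem core {N : ℕ} {T : Fin 3 → ℂ} {t : Fin N → Fin 3 → ℂ} (hD : Dis N T t)
    (a b c : ℕ) (ha : 0 < a) (hb : 0 < b) (hc : 0 < c) (hab : Nat.Coprime a b)
    (h : c ^ 2 = a ^ 2 + b ^ 2 + a * b) (τ : Fin N → Equiv.Perm (Fin 3))
    (hlen : ∀ i m, len (t i) m = (![(a : ℝ), b, c] : Fin 3 → ℝ) (τ i m)) (X : ℝ) (hX : 0 < X)
    (hT : ∀ k, len T k = X) : ∃ m : ℕ, 0 < m ∧ X = m * (a * b) := by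
  classical
  have hne : a ≠ b := by
    intro he
    subst he
    have h1 : a = 1 := by simpa using hab
    subst h1
    have : c ^ 2 = 3 := by rw [h]; norm_num
    have h2 : c ≤ 1 := by nlinarith
    interval_cases c
    omega
  -- X is a natural number
  obtain ⟨x, hx⟩ : ∃ x : ℕ, X = x := by
    have h1 := Odd.bd_len hD 0
    rw [hT] at h1
    rw [← h1]
    apply nat_sum
    intro i _
    apply nat_sum
    intro l _
    split_ifs
    · rw [hlen]
      obtain ⟨m, hm⟩ : ∃ m, m = τ i l := ⟨_, rfl⟩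
      rw [← hm]
      fin_cases m
      · exact ⟨a, rfl⟩
      · exact ⟨b, rfl⟩
      · exact ⟨c, rfl⟩
    · exact ⟨0, by simp⟩
  obtain ⟨d, hd'⟩ : ∃ d, d = dir T 0 := ⟨_, rfl⟩
  have hd : d ≠ 0 := by
    intro h0
    have := Basic.norm_dir T hD.ccwT 0
    rw [← hd', h0, norm_zero] at this
    exact zero_ne_one this
  have hsum := Odd.odd_sum hD (wt a b c d) (wt_neg a b c ha hb hc hab h d hd)
  -- the right-hand side
  have hw1 : wt a b c d d = 1 := by
    have := wt_val a b c ha hb hc hab h d hd 0 0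
    simpa using this
  obtain ⟨e1, e2⟩ := equi_dir T hD.ccwT X hX hT
  have hrhs : ∑ k, (len T k : ℂ) * wt a b c d (dir T k) = 3 * (x : ℂ) := by
    have f2 : dir T 2 = -(om * dir T 0) := by rw [e2]; ring
    have f1 : dir T 1 = om * (om * dir T 0) := by rw [e1]; ring
    rw [Fin.sum_univ_three, hT, hT, hT, f1, f2, ← hd', wt_neg a b c ha hb hc hab h d hd,
      wt_om a b c ha hb hc hab h d hd, wt_om a b c ha hb hc hab h d hd,
      hw1, hx]
    push_cast
    ring
  rw [hrhs] at hsum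
  choose K M hKM using fun i => tile_sum a b c ha hb hc hab h d hd hne (t i) (hD.ccwt i) (τ i)
    (hlen i)
  obtain ⟨Z, hZ⟩ : ∃ Z : ℤ, Z = ((a : ℤ) - b) * c := ⟨_, rfl⟩
  rw [← hZ] at hKM
  obtain ⟨L, hL⟩ : ∃ L : ℕ, L = ∑ i, K i := ⟨_, rfl⟩
  have hKL : ∀ i, K i ≤ L := fun i => by
    rw [hL]; exact Finset.single_le_sum (fun j _ => Nat.zero_le _) (Finset.mem_univ i)
  have key : ((a : ℂ) - b) * (3 * (x : ℂ)) * (Z : ℂ) ^ L =
      3 * a * b * (∑ i, (M i : ℂ) * (Z : ℂ) ^ (L - K i)) := by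
    rw [← hsum, Finset.mul_sum, Finset.sum_mul, Finset.mul_sum]
    refine Finset.sum_congr rfl fun i _ => ?_
    have h1 := hKM i
    have h2 : (Z : ℂ) ^ L = (Z : ℂ) ^ (K i) * (Z : ℂ) ^ (L - K i) := by
      rw [← pow_add]; congr 1; have := hKL i; omega
    rw [h2]
    linear_combination (Z : ℂ) ^ (L - K i) * h1
  have keyZ : ((a : ℤ) - b) * (x : ℤ) * Z ^ L = a * b * ∑ i, M i * Z ^ (L - K i) := by
    have h1 : ((((a : ℤ) - b) * (x : ℤ) * Z ^ L : ℤ) : ℂ) =
        ((a * b * ∑ i, M i * Z ^ (L - K i) : ℤ) : ℂ) := by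
      push_cast
      have h3 : (3 : ℂ) ≠ 0 := by norm_num
      apply mul_left_cancel₀ h3
      linear_combination key
    exact_mod_cast h1
  have hcopab : IsCoprime (a : ℤ) (b : ℤ) := Nat.isCoprime_iff_coprime.2 hab
  have hZc : (c : ℤ) ^ 2 = a ^ 2 + b ^ 2 + a * b := by exact_mod_cast h
  have cop1 : IsCoprime ((a : ℤ) * b) ((a : ℤ) - b) := by
    apply IsCoprime.mul_left
    · have : IsCoprime (a : ℤ) (-b) := hcopab.neg_right
      have h2 := this.add_mul_left_right 1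
      have e : (-b : ℤ) + a * 1 = a - b := by ring
      rw [e] at h2
      exact h2
    · have h2 := hcopab.symm.add_mul_left_right (-1)
      have e : (a : ℤ) + b * (-1) = a - b := by ring
      rw [e] at h2
      exact h2
  have cop2 : IsCoprime ((a : ℤ) * b) (c : ℤ) := by
    have h3 : IsCoprime ((a : ℤ) * b) ((c : ℤ) ^ 2) := by
      rw [hZc]
      apply IsCoprime.mul_left
      · have h4 : IsCoprime (a : ℤ) ((b : ℤ) ^ 2) := hcopab.pow_right
        have h5 := h4.add_mul_left_right (a + b)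
        have e : (b : ℤ) ^ 2 + a * (a + b) = a ^ 2 + b ^ 2 + a * b := by ring
        rw [e] at h5
        exact h5
      · have h4 : IsCoprime (b : ℤ) ((a : ℤ) ^ 2) := hcopab.symm.pow_right
        have h5 := h4.add_mul_left_right (a + b)
        have e : (a : ℤ) ^ 2 + b * (a + b) = a ^ 2 + b ^ 2 + a * b := by ring
        rw [e] at h5
        exact h5
    exact (IsCoprime.pow_right_iff (by norm_num : 0 < 2)).1 h3
  have cop3 : IsCoprime ((a : ℤ) * b) (((a : ℤ) - b) * Z ^ L) := by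
    apply IsCoprime.mul_right cop1
    apply IsCoprime.pow_right
    rw [hZ]
    exact IsCoprime.mul_right cop1 cop2
  have hdvd : ((a : ℤ) * b) ∣ (x : ℤ) := by
    apply cop3.dvd_of_dvd_mul_left
    refine ⟨∑ i, M i * Z ^ (L - K i), ?_⟩
    linear_combination keyZ
  have hdvd' : a * b ∣ x := by exact_mod_cast hdvd
  obtain ⟨m, hm⟩ := hdvd'
  refine ⟨m, ?_, ?_⟩
  · rcases Nat.eq_zero_or_pos m with h0 | h0
    · rw [hx, hm, h0] at hX
      simp at hX
    · exact h0
  · rw [hx, hm]; push_cast; ring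

end Pool.Agent.V11171.TilY
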