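import Mathlib

/-! Hankel determinants of the inverse Thue–Morse series: integer sequences and the
parity splitting of Hankel determinants. -/

namespace Pool.Agent.V11171.HankTM

open Matrix

/-- Hankel block of a sequence. -/
def M (f : ℕ → ℤ) (q a b : ℕ) : Matrix (Fin a) (Fin b) ℤ :=
  Matrix.of fun i j => f (q + i + j)

def H (f : ℕ → ℤ) (q n : ℕ) : ℤ := (M f q n n).det

lemma fun_bij (a b : ℕ) (h : a = b ∨ a = b + 1) :
    ∃ e : Fin a ⊕ Fin b ≃ Fin (a + b), (∀ i : Fin a, (e (Sum.inl i)).val = 2 * i.val) ∧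
      (∀ i : Fin b, (e (Sum.inr i)).val = 2 * i.val + 1) := by
  let g : Fin a ⊕ Fin b → Fin (a + b) := fun x => match x with
    | Sum.inl i => ⟨2 * i.val, by have := i.isLt; omega⟩
    | Sum.inr i => ⟨2 * i.val + 1, by have := i.isLt; omega⟩
  have hinj : Function.Injective g := by
    rintro (x | x) (y | y) hxy
    · have := congrArg Fin.val hxy
      simp only [g] at this
      congr 1
      ext; omega
    · have := congrArg Fin.val hxy
      simp only [g] at this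
      omega
    · have := congrArg Fin.val hxy
      simp only [g] at this
      omega
    · have := congrArg Fin.val hxy
      simp only [g] at this
      congr 1
      ext; omega
  have hbij : Function.Bijective g := by
    rw [Fintype.bijective_iff_injective_and_card]
    exact ⟨hinj, by simp⟩
  exact ⟨Equiv.ofBijective g hbij, fun i => rfl, fun i => rfl⟩

lemma split_even (f P Q : ℕ → ℤ) (hP : ∀ l, f (2 * l) = P l) (hQ : ∀ l, f (2 * l + 1) = Q l)
    (s a b : ℕ) (h : a = b ∨ a = b + 1) :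
    H f (2 * s) (a + b) =
      (fromBlocks (M P s a a) (M Q s a b) (M Q s b a) (M P (s + 1) b b)).det := by
  obtain ⟨e, he1, he2⟩ := fun_bij a b h
  rw [H, ← Matrix.det_submatrix_equiv_self e]
  congr 1
  ext x y
  rcases x with i | i <;> rcases y with j | j
  · simp only [submatrix_apply, M, of_apply, fromBlocks_apply₁₁, he1]
    rw [← hP]; congr 1; ring
  · simp only [submatrix_apply, M, of_apply, fromBlocks_apply₁₂, he1, he2]
    rw [← hQ]; congr 1; ring
  · simp only [submatrix_apply, M, of_apply, fromBlocks_apply₂₁, he1, he2]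
    rw [← hQ]; congr 1; ring
  · simp only [submatrix_apply, M, of_apply, fromBlocks_apply₂₂, he2]
    rw [← hP]; congr 1; ring

lemma split_odd (f P Q : ℕ → ℤ) (hP : ∀ l, f (2 * l) = P l) (hQ : ∀ l, f (2 * l + 1) = Q l)
    (s a b : ℕ) (h : a = b ∨ a = b + 1) :
    H f (2 * s + 1) (a + b) =
      (fromBlocks (M Q s a a) (M P (s + 1) a b) (M P (s + 1) b a) (M Q (s + 1) b b)).det := by
  obtain ⟨e, he1, he2⟩ := fun_bij a b h
  rw [H, ← Matrix.det_submatrix_equiv_self e]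
  congr 1
  ext x y
  rcases x with i | i <;> rcases y with j | j
  · simp only [submatrix_apply, M, of_apply, fromBlocks_apply₁₁, he1]
    rw [← hQ]; congr 1; ring
  · simp only [submatrix_apply, M, of_apply, fromBlocks_apply₁₂, he1, he2]
    rw [← hP]; congr 1; ring
  · simp only [submatrix_apply, M, of_apply, fromBlocks_apply₂₁, he1, he2]
    rw [← hP]; congr 1; ring
  · simp only [submatrix_apply, M, of_apply, fromBlocks_apply₂₂, he2]
    rw [← hQ]; congr 1; ring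

lemma det_blk {m n : Type*} [Fintype m] [Fintype n] [DecidableEq m] [DecidableEq n]
    (P : Matrix m m ℤ) (Q : Matrix m n ℤ) (J : Matrix n m ℤ) (S : Matrix n n ℤ) :
    (fromBlocks P Q (J * P) S).det = P.det * (S - J * Q).det := by
  have h : fromBlocks P Q (J * P) S = fromBlocks 1 0 J 1 * fromBlocks P Q 0 (S - J * Q) := by
    rw [fromBlocks_multiply]
    congr 1 <;> simp
  rw [h, det_mul, det_fromBlocks_zero₁₂, det_fromBlocks_zero₂₁]
  simp

def J (t b a : ℕ) : Matrix (Fin b) (Fin a) ℤ :=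
  Matrix.of fun i k => if k.val = i.val + t then 1 else 0

lemma J_mul (f : ℕ → ℤ) (t a b c s : ℕ) (h : b + t ≤ a) :
    J t b a * M f s a c = M f (s + t) b c := by
  ext i j
  rw [Matrix.mul_apply]
  have hi : i.val + t < a := by have := i.isLt; omega
  rw [Finset.sum_eq_single (⟨i.val + t, hi⟩ : Fin a)]
  · simp only [J, M, of_apply, if_true, one_mul]
    congr 1; ring
  · intro k _ hk
    have : k.val ≠ i.val + t := fun hh => hk (Fin.ext hh)
    simp [J, this]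
  · intro hh; exact absurd (Finset.mem_univ _) hh

lemma M_sub (F G : ℕ → ℤ) (hG : ∀ l, F (l + 1) - F l = G (l + 1)) (s b c : ℕ) :
    M F (s + 1) b c - M F s b c = M G (s + 1) b c := by
  ext i j
  simp only [M, of_apply, Matrix.sub_apply]
  have h1 : s + 1 + i.val + j.val = (s + i.val + j.val) + 1 := by ring
  rw [h1, hG]

/-- Lemma D, even shift. -/
lemma D_even (f F G : ℕ → ℤ) (h0 : ∀ l, f (2 * l) = F l) (h1 : ∀ l, f (2 * l + 1) = F l)
    (hG : ∀ l, F (l + 1) - F l = G (l + 1)) (s a b : ℕ) (h : a = b ∨ a = b + 1) :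
    H f (2 * s) (a + b) = H F s a * H G (s + 1) b := by
  rw [split_even f F F h0 h1 s a b h]
  have hba : b + 0 ≤ a := by omega
  have e1 : M F s b a = J 0 b a * M F s a a := by
    rw [J_mul F 0 a b a s hba]; rfl
  rw [e1, det_blk, J_mul F 0 a b b s hba]
  have e2 : M F (s + 1) b b - M F (s + 0) b b = M G (s + 1) b b := M_sub F G hG s b b
  rw [e2]; rfl

lemma D_odd_even (f F G : ℕ → ℤ) (h0 : ∀ l, f (2 * l) = F l) (h1 : ∀ l, f (2 * l + 1) = F l)
    (hG : ∀ l, F (l + 1) - F l = G (l + 1)) (s m : ℕ) :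
    H f (2 * s + 1) (m + m) = (-1) ^ m * (H F (s + 1) m * H G (s + 1) m) := by
  rw [split_odd f F F h0 h1 s m m (Or.inl rfl)]
  have e : fromBlocks (M F s m m) (M F (s + 1) m m) (M F (s + 1) m m) (M F (s + 1) m m)
      = fromBlocks 1 1 0 1 *
        fromBlocks (M F s m m - M F (s + 1) m m) 0 (M F (s + 1) m m) (M F (s + 1) m m) := by
    rw [fromBlocks_multiply]
    congr 1 <;> simp
  rw [e, det_mul, det_fromBlocks_zero₁₂, det_fromBlocks_zero₂₁]
  have e2 : M F s m m - M F (s + 1) m m = - M G (s + 1) m m := by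
    rw [← M_sub F G hG s m m]; abel
  rw [e2, det_neg, Fintype.card_fin]
  simp only [det_one, H]; ring

lemma D_odd_odd (f F G : ℕ → ℤ) (h0 : ∀ l, f (2 * l) = F l) (h1 : ∀ l, f (2 * l + 1) = F l)
    (hG : ∀ l, F (l + 1) - F l = G (l + 1)) (s m : ℕ) :
    H f (2 * s + 1) (m + 1 + m) = (-1) ^ m * (H F s (m + 1) * H G (s + 2) m) := by
  rw [split_odd f F F h0 h1 s (m + 1) m (Or.inr rfl)]
  have e1 : M F (s + 1) m (m + 1) = J 1 m (m + 1) * M F s (m + 1) (m + 1) := by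
    rw [J_mul F 1 (m + 1) m (m + 1) s le_rfl]
  rw [e1, det_blk, J_mul F 1 (m + 1) m m (s + 1) le_rfl]
  have e2 : M F (s + 1) m m - M F (s + 1 + 1) m m = - M G (s + 1 + 1) m m := by
    rw [← M_sub F G hG (s + 1) m m]; abel
  rw [e2, det_neg, Fintype.card_fin]
  simp only [H]; ring

lemma M_zero (f : ℕ → ℤ) (h : ∀ l, f l = 0) (s a b : ℕ) : M f s a b = 0 := by
  ext i j; simp [M, h]

lemma E_even (g G : ℕ → ℤ) (h0 : ∀ l, g (2 * l) = G l) (h1 : ∀ l, g (2 * l + 1) = 0)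
    (s a b : ℕ) (h : a = b ∨ a = b + 1) :
    H g (2 * s) (a + b) = H G s a * H G (s + 1) b := by
  rw [split_even g G (fun _ => 0) h0 h1 s a b h, M_zero _ (fun _ => rfl),
    M_zero _ (fun _ => rfl), det_fromBlocks_zero₁₂]
  rfl

lemma E_odd_even (g G : ℕ → ℤ) (h0 : ∀ l, g (2 * l) = G l) (h1 : ∀ l, g (2 * l + 1) = 0)
    (s m : ℕ) :
    H g (2 * s + 1) (m + m) = (-1) ^ m * (H G (s + 1) m) ^ 2 := by
  rw [split_odd g G (fun _ => 0) h0 h1 s m m (Or.inl rfl), M_zero _ (fun _ => rfl),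
    M_zero _ (fun _ => rfl)]
  set T := M G (s + 1) m m with hT
  have e1 : fromBlocks 0 T T 0 = fromBlocks 1 (-1) 0 1 * fromBlocks T T T 0 := by
    rw [fromBlocks_multiply]
    congr 1 <;> simp
  have e2 : fromBlocks T T T 0 = fromBlocks T 0 T (-T) * fromBlocks 1 1 0 1 := by
    rw [fromBlocks_multiply]
    congr 1 <;> simp
  rw [e1, e2, det_mul, det_mul, det_fromBlocks_zero₁₂, det_fromBlocks_zero₂₁,
    det_fromBlocks_zero₂₁, det_neg, Fintype.card_fin]
  simp only [det_one, H, ← hT]; ring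

lemma E_odd_odd (g G : ℕ → ℤ) (h0 : ∀ l, g (2 * l) = G l) (h1 : ∀ l, g (2 * l + 1) = 0)
    (s m : ℕ) :
    H g (2 * s + 1) (m + 1 + m) = 0 := by
  rw [split_odd g G (fun _ => 0) h0 h1 s (m + 1) m (Or.inr rfl), M_zero _ (fun _ => rfl),
    M_zero _ (fun _ => rfl)]
  set Q := M G (s + 1) (m + 1) m
  set R := M G (s + 1) m (m + 1)
  have e : (fromBlocks (-1) 0 0 1 : Matrix (Fin (m + 1) ⊕ Fin m) (Fin (m + 1) ⊕ Fin m) ℤ)
      * fromBlocks 0 Q R 0 = fromBlocks 0 Q R 0 * fromBlocks 1 0 0 (-1) := by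
    rw [fromBlocks_multiply, fromBlocks_multiply]
    congr 1 <;> simp
  have e' := congrArg Matrix.det e
  rw [det_mul, det_mul, det_fromBlocks_zero₁₂, det_fromBlocks_zero₁₂, det_neg, det_neg,
    Fintype.card_fin, Fintype.card_fin, det_one, det_one, pow_succ] at e'
  have hp : ((-1 : ℤ) ^ m) ^ 2 = 1 := by rw [← pow_mul, mul_comm, pow_mul]; simp
  set D := (fromBlocks 0 Q R 0).det
  have h3 : (-1 : ℤ) ^ m * D = 0 := by linarith
  have h4 : D = ((-1 : ℤ) ^ m) ^ 2 * D := by rw [hp, one_mul]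
  rw [h4, sq, mul_assoc, h3, mul_zero]

/-- indicator of the Moser–de Bruijn set, recursively. -/
def a (n : ℕ) : ℤ := if n = 0 then 1 else if n % 4 < 2 then a (n / 4) else 0
termination_by n
decreasing_by omega

lemma a_zero : a 0 = 1 := by rw [a]; simp

lemma a_lo (k r : ℕ) (hr : r < 2) : a (4 * k + r) = a k := by
  by_cases h : 4 * k + r = 0
  · have : k = 0 := by omega
    subst this
    rw [h]
  · rw [a, if_neg h, if_pos (by omega)]
    congr 1; omega

lemma a_hi (k r : ℕ) (hr : 2 ≤ r) (hr' : r < 4) : a (4 * k + r) = 0 := by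
  rw [a, if_neg (by omega), if_neg (by omega)]

def u (m : ℕ) : ℤ := a (m / 2)
def e (k : ℕ) : ℤ := if k % 2 = 0 then a (k / 2) else 0
def x (k : ℕ) : ℤ := (-1) ^ k * u k
def w (l : ℕ) : ℤ := if l % 2 = 0 then x (l / 2) else 0

lemma u0 (l : ℕ) : u (2 * l) = a l := by rw [u]; congr 1; omega
lemma u1 (l : ℕ) : u (2 * l + 1) = a l := by rw [u]; congr 1; omega
lemma e0 (l : ℕ) : e (2 * l) = a l := by rw [e, if_pos (by omega)]; congr 1; omega
lemma e1 (l : ℕ) : e (2 * l + 1) = 0 := by rw [e, if_neg (by omega)]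
lemma w0 (l : ℕ) : w (2 * l) = x l := by rw [w, if_pos (by omega)]; congr 1; omega
lemma w1 (l : ℕ) : w (2 * l + 1) = 0 := by rw [w, if_neg (by omega)]

lemma a0 (l : ℕ) : a (2 * l) = e l := by
  rcases Nat.even_or_odd' l with ⟨k, rfl | rfl⟩
  · rw [e0, show 2 * (2 * k) = 4 * k + 0 by ring, a_lo k 0 (by norm_num)]
  · rw [e1, show 2 * (2 * k + 1) = 4 * k + 2 by ring, a_hi k 2 (by norm_num) (by norm_num)]

lemma a1 (l : ℕ) : a (2 * l + 1) = e l := by
  rcases Nat.even_or_odd' l with ⟨k, rfl | rfl⟩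
  · rw [e0, show 2 * (2 * k) + 1 = 4 * k + 1 by ring, a_lo k 1 (by norm_num)]
  · rw [e1, show 2 * (2 * k + 1) + 1 = 4 * k + 3 by ring, a_hi k 3 (by norm_num) (by norm_num)]

lemma e_diff (l : ℕ) : e (l + 1) - e l = x (l + 1) := by
  rcases Nat.even_or_odd' l with ⟨k, rfl | rfl⟩
  · rw [e1, e0, x, u1, pow_succ, pow_mul]; norm_num
  · rw [show 2 * k + 1 + 1 = 2 * (k + 1) by ring, e1, e0, x, u0, pow_mul]; norm_num

lemma a_diff (l : ℕ) : a (l + 1) - a l = w (l + 1) := by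
  rcases Nat.even_or_odd' l with ⟨k, rfl | rfl⟩
  · rw [a1, a0, w1]; ring
  · rw [show 2 * k + 1 + 1 = 2 * (k + 1) by ring, a0, a1, w0, e_diff]

lemma X_eq (s m : ℕ) : H x s m = (-1) ^ (s * m) * H u s m := by
  have h1 : M x s m m = (-1 : ℤ) ^ s • Matrix.of (fun i j : Fin m => ((-1 : ℤ) ^ i.val) *
      (Matrix.of (fun i j : Fin m => ((-1 : ℤ) ^ j.val) * M u s m m i j)) i j) := by
    ext i j
    simp only [M, of_apply, x, Matrix.smul_apply, smul_eq_mul]
    rw [pow_add, pow_add]; ring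
  rw [H, h1, det_smul, Fintype.card_fin, det_mul_column, det_mul_row, H, ← pow_mul]
  have hp : (∏ i : Fin m, (-1 : ℤ) ^ i.val) * (∏ i : Fin m, (-1 : ℤ) ^ i.val) = 1 := by
    rw [← Finset.prod_mul_distrib]
    apply Finset.prod_eq_one
    intro i _
    rw [← mul_pow]; norm_num
  calc _ = (-1) ^ (s * m) * (((∏ i : Fin m, (-1 : ℤ) ^ i.val) * (∏ i : Fin m, (-1 : ℤ) ^ i.val))
        * (M u s m m).det) := by ring
    _ = _ := by rw [hp, one_mul]


/-! ### The recursions -/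

lemma U_e (s m b : ℕ) (h : m = b ∨ m = b + 1) :
    H u (2 * s) (m + b) = H a s m * H w (s + 1) b := D_even u a w u0 u1 a_diff s m b h
lemma U_oe (s m : ℕ) : H u (2 * s + 1) (m + m) = (-1) ^ m * (H a (s + 1) m * H w (s + 1) m) :=
  D_odd_even u a w u0 u1 a_diff s m
lemma U_oo (s m : ℕ) :
    H u (2 * s + 1) (m + 1 + m) = (-1) ^ m * (H a s (m + 1) * H w (s + 2) m) :=
  D_odd_odd u a w u0 u1 a_diff s m
lemma A_e (s m b : ℕ) (h : m = b ∨ m = b + 1) :
    H a (2 * s) (m + b) = H e s m * H x (s + 1) b := D_even a e x a0 a1 e_diff s m b h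
lemma A_oe (s m : ℕ) : H a (2 * s + 1) (m + m) = (-1) ^ m * (H e (s + 1) m * H x (s + 1) m) :=
  D_odd_even a e x a0 a1 e_diff s m
lemma A_oo (s m : ℕ) :
    H a (2 * s + 1) (m + 1 + m) = (-1) ^ m * (H e s (m + 1) * H x (s + 2) m) :=
  D_odd_odd a e x a0 a1 e_diff s m
lemma W_e (s m b : ℕ) (h : m = b ∨ m = b + 1) :
    H w (2 * s) (m + b) = H x s m * H x (s + 1) b := E_even w x w0 w1 s m b h
lemma W_oe (s m : ℕ) : H w (2 * s + 1) (m + m) = (-1) ^ m * (H x (s + 1) m) ^ 2 :=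
  E_odd_even w x w0 w1 s m
lemma W_oo (s m : ℕ) : H w (2 * s + 1) (m + 1 + m) = 0 := E_odd_odd w x w0 w1 s m
lemma E_e (s m b : ℕ) (h : m = b ∨ m = b + 1) :
    H e (2 * s) (m + b) = H a s m * H a (s + 1) b := E_even e a e0 e1 s m b h
lemma E_oe (s m : ℕ) : H e (2 * s + 1) (m + m) = (-1) ^ m * (H a (s + 1) m) ^ 2 :=
  E_odd_even e a e0 e1 s m
lemma E_oo (s m : ℕ) : H e (2 * s + 1) (m + 1 + m) = 0 := E_odd_odd e a e0 e1 s m

/-- specialised forms -/
lemma A_11e (m : ℕ) : H a (2 * m + 1) (2 * m) = (-1) ^ m * (H e (m + 1) m * H x (m + 1) m) := by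
  rw [show H a (2 * m + 1) (2 * m) = H a (2 * m + 1) (m + m) by rw [two_mul]]; exact A_oe m m
lemma A_11o (m : ℕ) :
    H a (2 * m + 1) (2 * m + 1) = (-1) ^ m * (H e m (m + 1) * H x (m + 2) m) := by
  rw [show H a (2 * m + 1) (2 * m + 1) = H a (2 * m + 1) (m + 1 + m) by congr 1; ring]
  exact A_oo m m

structure Good (k : ℕ) : Prop where
  E1 : H e (k + 1) k = 1
  U1 : (H u (k + 1) k) ^ 2 = 1
  E2 : H e k (k + 1) = (-1) ^ k
  U2 : H u (k + 2) k = 1

lemma good_zero : Good 0 := by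
  refine ⟨?_, ?_, ?_, ?_⟩
  · simp [H]
  · simp [H]
  · simp [H, M, e, a_zero]
  · simp [H]

lemma sq_neg (n : ℕ) : ((-1 : ℤ) ^ n) ^ 2 = 1 := by
  rw [← pow_mul, mul_comm, pow_mul]; simp

lemma X1_sq (m : ℕ) : (H x (m + 1) m) ^ 2 = (H u (m + 1) m) ^ 2 := by
  rw [X_eq, mul_pow, sq_neg, one_mul]

lemma X2 (m : ℕ) : H x (m + 2) m = (-1) ^ m * H u (m + 2) m := by
  rw [X_eq]; congr 1
  rcases Nat.even_or_odd m with h | h
  · rw [h.neg_one_pow, (h.mul_left _).neg_one_pow]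
  · rw [h.neg_one_pow, Odd.neg_one_pow]
    exact (h.add_even (by decide)).mul h

/-- all the `4m`/`4m+1` recursions -/
lemma rec_U2_0 (m : ℕ) : H u (4 * m + 2) (4 * m) =
    H e (m + 1) m * (H u (m + 1) m) ^ 2 * H u (m + 2) m := by
  rw [show H u (4 * m + 2) (4 * m) = H u (2 * (2 * m + 1)) (2 * m + 2 * m) by congr 1 <;> ring,
    U_e _ _ _ (Or.inl rfl), A_11e,
    show H w (2 * m + 1 + 1) (2 * m) = H w (2 * (m + 1)) (m + m) by congr 1 <;> ring,
    W_e _ _ _ (Or.inl rfl), ← X1_sq, show m + 1 + 1 = m + 2 from rfl, X2]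
  have := sq_neg m
  linear_combination (H e (m + 1) m * H x (m + 1) m ^ 2 * H u (m + 2) m) * this

lemma rec_U2_1 (m : ℕ) : H u (4 * m + 3) (4 * m + 1) =
    (-1) ^ m * H e m (m + 1) * (H u (m + 2) m) ^ 3 := by
  rw [show H u (4 * m + 3) (4 * m + 1) = H u (2 * (2 * m + 1) + 1) (2 * m + 1 + 2 * m) by
      congr 1 <;> ring,
    U_oo, A_11o,
    show H w (2 * m + 1 + 2) (2 * m) = H w (2 * (m + 1) + 1) (m + m) by congr 1 <;> ring,
    W_oe, show m + 1 + 1 = m + 2 from rfl, X2]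
  have h1 : (-1 : ℤ) ^ (2 * m) = 1 := by rw [pow_mul]; simp
  have := sq_neg m
  rw [h1]
  set z := (-1 : ℤ) ^ m
  linear_combination (H e m (m + 1) * H u (m + 2) m ^ 3 * z * (z ^ 2 + 1)) * this

lemma rec_E1_0 (m : ℕ) : H e (4 * m + 1) (4 * m) = (H e (m + 1) m) ^ 2 * (H u (m + 1) m) ^ 2 := by
  rw [show H e (4 * m + 1) (4 * m) = H e (2 * (2 * m) + 1) (2 * m + 2 * m) by congr 1 <;> ring,
    E_oe, A_11e, ← X1_sq]
  have h1 : (-1 : ℤ) ^ (2 * m) = 1 := by rw [pow_mul]; simp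
  have := sq_neg m
  rw [h1]
  linear_combination (H e (m + 1) m ^ 2 * H x (m + 1) m ^ 2) * this

lemma rec_E1_1 (m : ℕ) : H e (4 * m + 2) (4 * m + 1) =
    (-1) ^ m * H e m (m + 1) * H e (m + 1) m * (H u (m + 2) m) ^ 2 := by
  rw [show H e (4 * m + 2) (4 * m + 1) = H e (2 * (2 * m + 1)) (2 * m + 1 + 2 * m) by
      congr 1 <;> ring,
    E_e _ _ _ (Or.inr rfl), A_11o,
    show H a (2 * m + 1 + 1) (2 * m) = H a (2 * (m + 1)) (m + m) by congr 1 <;> ring,
    A_e _ _ _ (Or.inl rfl), show m + 1 + 1 = m + 2 from rfl, X2]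
  have := sq_neg m
  set z := (-1 : ℤ) ^ m
  linear_combination (H e m (m + 1) * H e (m + 1) m * H u (m + 2) m ^ 2 * z) * this

lemma rec_U1_0 (m : ℕ) : (H u (4 * m + 1) (4 * m)) ^ 2 =
    (H e (m + 1) m) ^ 2 * ((H u (m + 1) m) ^ 2) ^ 3 := by
  rw [show H u (4 * m + 1) (4 * m) = H u (2 * (2 * m) + 1) (2 * m + 2 * m) by congr 1 <;> ring,
    U_oe, A_11e,
    show H w (2 * m + 1) (2 * m) = H w (2 * m + 1) (m + m) by congr 1; ring,
    W_oe, ← X1_sq]
  have h1 : (-1 : ℤ) ^ (2 * m) = 1 := by rw [pow_mul]; simp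
  have := sq_neg m
  rw [h1]
  set z := (-1 : ℤ) ^ m
  linear_combination (H e (m + 1) m ^ 2 * H x (m + 1) m ^ 6 * (z ^ 2 + 1)) * this

lemma rec_U1_1 (m : ℕ) : (H u (4 * m + 2) (4 * m + 1)) ^ 2 =
    (H e m (m + 1)) ^ 2 * (H u (m + 1) m) ^ 2 * ((H u (m + 2) m) ^ 2) ^ 2 := by
  rw [show H u (4 * m + 2) (4 * m + 1) = H u (2 * (2 * m + 1)) (2 * m + 1 + 2 * m) by
      congr 1 <;> ring,
    U_e _ _ _ (Or.inr rfl), A_11o,
    show H w (2 * m + 1 + 1) (2 * m) = H w (2 * (m + 1)) (m + m) by congr 1 <;> ring,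
    W_e _ _ _ (Or.inl rfl), show m + 1 + 1 = m + 2 from rfl, X2, ← X1_sq]
  have := sq_neg m
  set z := (-1 : ℤ) ^ m
  linear_combination (H e m (m + 1) ^ 2 * H x (m + 1) m ^ 2 * H u (m + 2) m ^ 4 *
    (z ^ 4 + z ^ 2 + 1)) * this

lemma rec_E2_0 (m : ℕ) : H e (4 * m) (4 * m + 1) =
    (-1) ^ m * H e m (m + 1) * H e (m + 1) m * (H u (m + 1) m) ^ 2 := by
  rw [show H e (4 * m) (4 * m + 1) = H e (2 * (2 * m)) (2 * m + 1 + 2 * m) by congr 1 <;> ring,
    E_e _ _ _ (Or.inr rfl), A_11e,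
    show H a (2 * m) (2 * m + 1) = H a (2 * m) (m + 1 + m) by congr 1; ring,
    A_e _ _ _ (Or.inr rfl), ← X1_sq]
  ring

lemma rec_E2_1 (m : ℕ) : H e (4 * m + 1) (4 * m + 2) =
    - (H e m (m + 1)) ^ 2 * (H u (m + 2) m) ^ 2 := by
  rw [show H e (4 * m + 1) (4 * m + 2) = H e (2 * (2 * m) + 1) (2 * m + 1 + (2 * m + 1)) by
      congr 1 <;> ring,
    E_oe, A_11o, X2]
  have h1 : (-1 : ℤ) ^ (2 * m + 1) = -1 := by rw [pow_succ, pow_mul]; simp
  have := sq_neg m
  rw [h1]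
  set z := (-1 : ℤ) ^ m
  linear_combination (-(H e m (m + 1) ^ 2 * H u (m + 2) m ^ 2 * (z ^ 2 + 1))) * this

lemma good_4 (m : ℕ) (h : Good m) : Good (4 * m) := by
  obtain ⟨h1, h2, h3, h4⟩ := h
  refine ⟨?_, ?_, ?_, ?_⟩
  · rw [rec_E1_0, h1, h2]; norm_num
  · rw [rec_U1_0, h1, h2]; norm_num
  · rw [rec_E2_0, h1, h2, h3, show 4 * m = 2 * (2 * m) by ring, pow_mul]
    have := sq_neg m
    norm_num
    linear_combination this
  · rw [rec_U2_0, h1, h2, h4]; norm_num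

lemma good_41 (m : ℕ) (h : Good m) : Good (4 * m + 1) := by
  obtain ⟨h1, h2, h3, h4⟩ := h
  have := sq_neg m
  refine ⟨?_, ?_, ?_, ?_⟩
  · rw [rec_E1_1, h1, h3, h4]; linear_combination this
  · rw [rec_U1_1, h3, h2, h4, sq_neg]; norm_num
  · have h5 : (-1 : ℤ) ^ (4 * m + 1) = -1 := by
      rw [pow_succ, show 4 * m = 2 * (2 * m) by ring, pow_mul]; norm_num
    rw [rec_E2_1, h3, h4, sq_neg, h5]; norm_num
  · rw [rec_U2_1, h3, h4]; linear_combination this

/-- the auxiliary vanishing statements -/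
def S (k : ℕ) : Prop :=
  H a (k + 1) (k + 1) * H a (k + 2) (k + 1) * H w (k + 2) (k + 1) * H w (k + 3) k = 0

def Z (m : ℕ) : Prop :=
  H e (m + 1) (m + 1) * H u (m + 2) (m + 1) * H u (m + 3) m = 0

lemma E_oo' (j : ℕ) : H e (2 * j + 1) (2 * j + 1) = 0 := by
  rw [show H e (2 * j + 1) (2 * j + 1) = H e (2 * j + 1) (j + 1 + j) by congr 1; ring, E_oo]

lemma Z_of_S (k : ℕ) (h : S k) : Z (2 * k + 1) := by
  unfold Z
  rw [show H e (2 * k + 1 + 1) (2 * k + 1 + 1) = H e (2 * (k + 1)) (k + 1 + (k + 1)) by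
      congr 1 <;> ring, E_e _ _ _ (Or.inl rfl),
    show H u (2 * k + 1 + 2) (2 * k + 1 + 1) = H u (2 * (k + 1) + 1) (k + 1 + (k + 1)) by
      congr 1 <;> ring, U_oe,
    show H u (2 * k + 1 + 3) (2 * k + 1) = H u (2 * (k + 2)) (k + 1 + k) by
      congr 1 <;> ring, U_e _ _ _ (Or.inr rfl)]
  unfold S at h
  rw [show k + 1 + 1 = k + 2 from rfl, show k + 2 + 1 = k + 3 from rfl]
  linear_combination ((-1) ^ (k + 1) * (H a (k + 2) (k + 1)) ^ 2) * h

lemma S_all (k : ℕ) : S k := by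
  induction k using Nat.strong_induction_on with
  | _ k ih =>
    rcases Nat.even_or_odd' k with ⟨l, rfl | rfl⟩
    · -- k = 2l
      have hprod : H e l (l + 1) * H e (l + 1) (l + 1) * H x (l + 1) (l + 1) * H x (l + 2) l = 0 := by
        rcases Nat.even_or_odd' l with ⟨j, rfl | rfl⟩
        · rw [E_oo']; ring
        · have hS := ih j (by omega)
          unfold S at hS
          rw [X_eq, X_eq,
            show H e (2 * j + 1) (2 * j + 1 + 1) = H e (2 * j + 1) (j + 1 + (j + 1)) by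
              congr 1; ring, E_oe,
            show H e (2 * j + 1 + 1) (2 * j + 1 + 1) = H e (2 * (j + 1)) (j + 1 + (j + 1)) by
              congr 1 <;> ring, E_e _ _ _ (Or.inl rfl),
            show H u (2 * j + 1 + 1) (2 * j + 1 + 1) = H u (2 * (j + 1)) (j + 1 + (j + 1)) by
              congr 1 <;> ring, U_e _ _ _ (Or.inl rfl),
            show H u (2 * j + 1 + 2) (2 * j + 1) = H u (2 * (j + 1) + 1) (j + 1 + j) by
              congr 1 <;> ring, U_oo]
          rw [show j + 1 + 1 = j + 2 from rfl, show j + 1 + 2 = j + 3 from rfl]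
          linear_combination ((-1) ^ (j + 1) * (H a (j + 1) (j + 1)) ^ 4 *
            (-1) ^ ((2 * j + 1 + 1) * (2 * j + 1 + 1)) * (-1) ^ ((2 * j + 1 + 2) * (2 * j + 1))
            * (-1) ^ j) * hS
      unfold S
      rw [show H a (2 * l + 1) (2 * l + 1) = H a (2 * l + 1) (l + 1 + l) by congr 1; ring, A_oo,
        show H a (2 * l + 2) (2 * l + 1) = H a (2 * (l + 1)) (l + 1 + l) by congr 1 <;> ring,
        A_e _ _ _ (Or.inr rfl),
        show H w (2 * l + 2) (2 * l + 1) = H w (2 * (l + 1)) (l + 1 + l) by congr 1 <;> ring,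
        W_e _ _ _ (Or.inr rfl),
        show H w (2 * l + 3) (2 * l) = H w (2 * (l + 1) + 1) (l + l) by congr 1 <;> ring, W_oe]
      rw [show l + 1 + 1 = l + 2 from rfl]
      linear_combination ((-1) ^ l * (-1) ^ l * (H x (l + 2) l) ^ 4) * hprod
    · -- k = 2l+1
      have hprod : H e (l + 1) (l + 1) * H x (l + 2) (l + 1) * H x (l + 3) l = 0 := by
        rw [X_eq, X_eq]
        rcases Nat.even_or_odd' l with ⟨j, rfl | rfl⟩
        · rw [E_oo']; ring
        · have hZ := Z_of_S j (ih j (by omega))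
          unfold Z at hZ
          linear_combination ((-1) ^ ((2 * j + 1 + 2) * (2 * j + 1 + 1)) *
            (-1) ^ ((2 * j + 1 + 3) * (2 * j + 1))) * hZ
      unfold S
      rw [show H a (2 * l + 1 + 1) (2 * l + 1 + 1) = H a (2 * (l + 1)) (l + 1 + (l + 1)) by
          congr 1 <;> ring, A_e _ _ _ (Or.inl rfl),
        show H a (2 * l + 1 + 2) (2 * l + 1 + 1) = H a (2 * (l + 1) + 1) (l + 1 + (l + 1)) by
          congr 1 <;> ring, A_oe,
        show H w (2 * l + 1 + 2) (2 * l + 1 + 1) = H w (2 * (l + 1) + 1) (l + 1 + (l + 1)) by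
          congr 1 <;> ring, W_oe,
        show H w (2 * l + 1 + 3) (2 * l + 1) = H w (2 * (l + 2)) (l + 1 + l) by
          congr 1 <;> ring, W_e _ _ _ (Or.inr rfl)]
      rw [show l + 1 + 1 = l + 2 from rfl, show l + 2 + 1 = l + 3 from rfl]
      linear_combination ((-1) ^ (l + 1) * (-1) ^ (l + 1) * H e (l + 2) (l + 1) *
        (H x (l + 2) (l + 1)) ^ 4) * hprod

lemma Z_all (m : ℕ) : Z m := by
  rcases Nat.even_or_odd' m with ⟨k, rfl | rfl⟩
  · unfold Z; rw [E_oo']; ring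
  · exact Z_of_S k (S_all k)

lemma rec_U2_2 (m : ℕ) : H u (4 * m + 4) (4 * m + 2) = 0 := by
  rw [show H u (4 * m + 4) (4 * m + 2) = H u (2 * (2 * m + 2)) (2 * m + 1 + (2 * m + 1)) by
      congr 1 <;> ring, U_e _ _ _ (Or.inl rfl),
    show H w (2 * m + 2 + 1) (2 * m + 1) = H w (2 * (m + 1) + 1) (m + 1 + m) by
      congr 1 <;> ring, W_oo, mul_zero]

lemma rec_U2_3 (m : ℕ) : H u (4 * m + 5) (4 * m + 3) = 0 := by
  rw [show H u (4 * m + 5) (4 * m + 3) =
      H u (2 * (2 * m + 2) + 1) (2 * m + 1 + 1 + (2 * m + 1)) by congr 1 <;> ring, U_oo,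
    show H a (2 * m + 2) (2 * m + 1 + 1) = H a (2 * (m + 1)) (m + 1 + (m + 1)) by
      congr 1 <;> ring, A_e _ _ _ (Or.inl rfl),
    show H w (2 * m + 2 + 2) (2 * m + 1) = H w (2 * (m + 2)) (m + 1 + m) by
      congr 1 <;> ring, W_e _ _ _ (Or.inr rfl)]
  have hZ := Z_all m
  unfold Z at hZ
  rw [show m + 1 + 1 = m + 2 from rfl, show m + 2 + 1 = m + 3 from rfl, X_eq, X_eq]
  linear_combination ((-1) ^ (2 * m + 1) * ((-1) ^ ((m + 2) * (m + 1)) *
    (-1) ^ ((m + 2) * (m + 1)) * (-1) ^ ((m + 3) * m)) * H u (m + 2) (m + 1)) * hZ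

/-- For every `n`: either `n` is a Moser–de Bruijn number and everything is good, or the
determinant vanishes; the indicator is `a n`. -/
theorem main (n : ℕ) : (a n = 1 ∧ Good n) ∨ (a n = 0 ∧ H u (n + 2) n = 0) := by
  induction n using Nat.strong_induction_on with
  | _ n ih =>
    rcases Nat.eq_zero_or_pos n with rfl | hn
    · exact Or.inl ⟨a_zero, good_zero⟩
    obtain ⟨m, r, hr, rfl⟩ : ∃ m r, r < 4 ∧ n = 4 * m + r := ⟨n / 4, n % 4, by omega, by omega⟩
    have hm : m < 4 * m + r := by omega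
    interval_cases r
    · rcases ih m hm with ⟨h1, h2⟩ | ⟨h1, h2⟩
      · left; exact ⟨by rw [a_lo m 0 (by norm_num), h1], good_4 m h2⟩
      · right
        refine ⟨by rw [a_lo m 0 (by norm_num), h1], ?_⟩
        rw [add_zero, rec_U2_0, h2]; ring
    · rcases ih m hm with ⟨h1, h2⟩ | ⟨h1, h2⟩
      · left; exact ⟨by rw [a_lo m 1 (by norm_num), h1], good_41 m h2⟩
      · right
        refine ⟨by rw [a_lo m 1 (by norm_num), h1], ?_⟩
        rw [show 4 * m + 1 + 2 = 4 * m + 3 by ring, rec_U2_1, h2]; ring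
    · right
      exact ⟨a_hi m 2 (by norm_num) (by norm_num), rec_U2_2 m⟩
    · right
      exact ⟨a_hi m 3 (by norm_num) (by norm_num), rec_U2_3 m⟩

theorem main' (n : ℕ) : H u (n + 2) n = a n := by
  rcases main n with ⟨h1, h2⟩ | ⟨h1, h2⟩
  · rw [h1, h2.U2]
  · rw [h1, h2]

end Pool.Agent.V11171.HankTM
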