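import Mathlib
import Pool.Agent.V11171.HankTM

/-! The inverse Thue–Morse series over `ZMod 2`. -/

namespace Pool.Agent.V11171.HankTM

open PowerSeries

/-- The Thue–Morse series `∑ tₙ Xⁿ`, `tₙ = s₂(n) mod 2`. -/
noncomputable def F : PowerSeries (ZMod 2) :=
  PowerSeries.mk fun n => (((Nat.digits 2 n).sum : ℕ) : ZMod 2)

lemma two0 (x : ZMod 2) : x + x = 0 := by revert x; decide

lemma ps2 (f : PowerSeries (ZMod 2)) : f + f = 0 := by
  ext n; rw [map_add, two0, map_zero]

lemma coeff_sq (f : PowerSeries (ZMod 2)) (n : ℕ) :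
    coeff n (f ^ 2) = if 2 ∣ n then coeff (n / 2) f else 0 := by
  have h : f ^ 2 = f.expand 2 two_ne_zero := by
    have h1 := MvPowerSeries.map_frobenius_expand (σ := Unit) (R := ZMod 2) 2 two_ne_zero (f := f)
    rw [ZMod.frobenius_zmod] at h1
    rw [← h1]
    exact (MvPowerSeries.ext fun n => by simp [PowerSeries.expand])
  rw [h, coeff_expand]

lemma t_even (n : ℕ) : (Nat.digits 2 (2 * n)).sum = (Nat.digits 2 n).sum := by
  rcases Nat.eq_zero_or_pos n with rfl | h
  · simp
  · rw [Nat.digits_eq_cons_digits_div (by norm_num) (by omega : 2 * n ≠ 0)]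
    have h1 : 2 * n % 2 = 0 := by omega
    have h2 : 2 * n / 2 = n := by omega
    rw [h1, h2, List.sum_cons, zero_add]

lemma t_odd (n : ℕ) : (Nat.digits 2 (2 * n + 1)).sum = (Nat.digits 2 n).sum + 1 := by
  rw [Nat.digits_eq_cons_digits_div (by norm_num) (by omega : 2 * n + 1 ≠ 0)]
  have h1 : (2 * n + 1) % 2 = 1 := by omega
  have h2 : (2 * n + 1) / 2 = n := by omega
  rw [h1, h2, List.sum_cons, add_comm]

lemma cF (n : ℕ) : coeff n F = (((Nat.digits 2 n).sum : ℕ) : ZMod 2) := by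
  rw [F, coeff_mk]

lemma cF_even (n : ℕ) : coeff (2 * n) F = coeff n F := by rw [cF, cF, t_even]
lemma cF_odd (n : ℕ) : coeff (2 * n + 1) F = coeff n F + 1 := by
  rw [cF, cF, t_odd]; push_cast; rfl

noncomputable def V : PowerSeries (ZMod 2) := PowerSeries.mk fun n => if n % 2 = 1 then 1 else 0

lemma V_eq : F + (1 + X) * F ^ 2 = V := by
  ext n
  rw [add_mul, one_mul, map_add, map_add, coeff_sq]
  rcases n with _ | n
  · rw [coeff_zero_X_mul, cF]; simp [V, cF]
  · rw [coeff_succ_X_mul, coeff_sq, V, coeff_mk]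
    rcases Nat.even_or_odd' n with ⟨k, rfl | rfl⟩
    · rw [if_neg (by omega), if_pos (by omega), if_pos (by omega),
        show 2 * k / 2 = k by omega, cF_odd, zero_add, add_right_comm, two0, zero_add]
    · rw [if_pos (by omega), if_neg (by omega), if_neg (by omega),
        show 2 * k + 1 + 1 = 2 * (k + 1) by ring, cF_even, show 2 * (k + 1) / 2 = k + 1 by omega,
        add_zero, two0]

lemma V_mul : (1 + X) ^ 2 * V = X := by
  have h : (1 + X) ^ 2 * V = V + X * (X * V) := by
    linear_combination ps2 (X * V)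
  rw [h]
  ext n
  rw [map_add]
  rcases n with _ | _ | n
  · rw [coeff_zero_X_mul, V, coeff_mk]; simp
  · rw [coeff_succ_X_mul, coeff_zero_X_mul, V, coeff_mk]; simp
  · rw [coeff_succ_X_mul, coeff_succ_X_mul, V, coeff_mk, coeff_mk, coeff_X,
      if_neg (by omega : ¬ n + 1 + 1 = 1)]
    rcases Nat.even_or_odd' n with ⟨k, rfl | rfl⟩
    · rw [if_neg (by omega), if_neg (by omega), add_zero]
    · rw [if_pos (by omega), if_pos (by omega), two0]

lemma F_eq : (1 + X) ^ 2 * F + (1 + X) ^ 3 * F ^ 2 = X := by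
  have h : (1 + X) ^ 2 * (F + (1 + X) * F ^ 2) = X := by rw [V_eq, V_mul]
  linear_combination h

lemma K_eq (G : PowerSeries (ZMod 2)) (h0 : constantCoeff G = 0) (hG : F.subst G = X) :
    (1 + X) * (1 + G) = 1 + X ^ 3 * ((1 + G) ^ 2) ^ 2 := by
  have hs : HasSubst G := HasSubst.of_constantCoeff_zero' h0
  have h := congrArg (substAlgHom (R := ZMod 2) hs) F_eq
  rw [map_add, map_mul, map_mul, map_pow, map_pow, map_pow, map_add, map_one,
    substAlgHom_X, coe_substAlgHom] at h
  have hG' : subst G F = X := hG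
  rw [hG'] at h
  have h2 : (2 : PowerSeries (ZMod 2)) = 0 := by
    have := ps2 1; rw [← this]; norm_num
  have h3 : (1 + G) + X * (1 + G) ^ 2 + X ^ 2 * (1 + G) ^ 3 = 1 := by
    linear_combination h + G * h2
  linear_combination (1 + X * (1 + G)) * h3 +
    (X * (1 + G) - X * (1 + G) ^ 2 - X ^ 2 * (1 + G) ^ 3 - X ^ 3 * (1 + G) ^ 4) * h2

lemma K_coeff (G : PowerSeries (ZMod 2)) (h0 : constantCoeff G = 0) (hG : F.subst G = X)
    (m : ℕ) : coeff m (1 + G) = ((u (m + 1) : ℤ) : ZMod 2) := by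
  have hK := K_eq G h0 hG
  obtain ⟨K, hKdef⟩ : ∃ K, K = 1 + G := ⟨_, rfl⟩
  rw [← hKdef] at hK ⊢
  induction m using Nat.strong_induction_on with
  | _ m ih =>
    rcases m with _ | m
    · rw [hKdef, map_add, coeff_zero_eq_constantCoeff, h0]
      simp [u, a_zero]
    · have h1 := congrArg (coeff (m + 1)) hK
      rw [add_mul, one_mul, map_add, coeff_succ_X_mul, map_add, coeff_X_pow_mul', coeff_one,
        if_neg (by omega), zero_add] at h1
      have h2 : coeff (m + 1) K = coeff m K +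
          (if 3 ≤ m + 1 then coeff (m + 1 - 3) ((K ^ 2) ^ 2) else 0) := by
        rw [← h1, add_comm (coeff (m + 1) K), ← add_assoc, two0, zero_add]
      rw [h2, ih m (by omega)]
      obtain ⟨n, r, hr, hm⟩ : ∃ n r, r < 4 ∧ m + 1 = 4 * n + r :=
        ⟨(m + 1) / 4, (m + 1) % 4, by omega, by omega⟩
      interval_cases r
      · have hz : (if 3 ≤ m + 1 then coeff (m + 1 - 3) ((K ^ 2) ^ 2) else 0) = 0 := by
          split_ifs with h
          · rw [coeff_sq, if_neg (by omega)]
          · rfl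
        rw [hz, add_zero, u, u, show (m + 1 + 1) / 2 = (m + 1) / 2 by omega]
      · have hz : (if 3 ≤ m + 1 then coeff (m + 1 - 3) ((K ^ 2) ^ 2) else 0) = 0 := by
          split_ifs with h
          · rw [coeff_sq, if_pos (by omega), coeff_sq, if_neg (by omega)]
          · rfl
        rw [hz, add_zero, u, u, show (m + 1 + 1) / 2 = 2 * n + 1 by omega,
          show (m + 1) / 2 = 2 * n by omega, a0, a1]
      · have hz : (if 3 ≤ m + 1 then coeff (m + 1 - 3) ((K ^ 2) ^ 2) else 0) = 0 := by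
          split_ifs with h
          · rw [coeff_sq, if_neg (by omega)]
          · rfl
        rw [hz, add_zero, u, u, show (m + 1 + 1) / 2 = (m + 1) / 2 by omega]
      · rw [if_pos (by omega), coeff_sq, if_pos (by omega), coeff_sq, if_pos (by omega),
          show (m + 1 - 3) / 2 / 2 = n by omega, ih n (by omega),
          show u (m + 1) = a ((m + 1) / 2) from rfl,
          show (m + 1) / 2 = 2 * n + 1 by omega, a1,
          show u (m + 1 + 1) = a ((m + 1 + 1) / 2) from rfl,
          show (m + 1 + 1) / 2 = 2 * (n + 1) by omega, a0]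
        have hd := congrArg (Int.cast : ℤ → ZMod 2) (e_diff n)
        rw [x] at hd
        push_cast at hd
        rw [show (-1 : ZMod 2) = 1 by decide, one_pow, one_mul] at hd
        rw [← hd]; ring

lemma a01 (n : ℕ) : a n = 0 ∨ a n = 1 := by
  rcases main n with ⟨h, _⟩ | ⟨h, _⟩
  · exact Or.inr h
  · exact Or.inl h

lemma G_coeff (G : PowerSeries (ZMod 2)) (h0 : constantCoeff G = 0) (hG : F.subst G = X)
    (m : ℕ) (hm : 1 ≤ m) : ((coeff m G).val : ℤ) = u (m + 1) := by
  have h := K_coeff G h0 hG m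
  rw [map_add, coeff_one, if_neg (by omega), zero_add] at h
  rw [h, u]
  rcases a01 ((m + 1) / 2) with h' | h' <;> rw [h'] <;> simp
  decide

lemma sum_shift (s : Finset ℕ) : ∑ k ∈ s, 4 ^ k =
    4 * (∑ k ∈ (s.erase 0).image Nat.pred, 4 ^ k) + (if 0 ∈ s then 1 else 0) := by
  have h1 : ∑ k ∈ (s.erase 0).image Nat.pred, 4 ^ k = ∑ k ∈ s.erase 0, 4 ^ (Nat.pred k) := by
    apply Finset.sum_image
    intro x hx y hy hxy
    have hx' : x ≠ 0 := (Finset.mem_erase.mp hx).1
    have hy' : y ≠ 0 := (Finset.mem_erase.mp hy).1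
    exact Nat.pred_inj (Nat.pos_of_ne_zero hx') (Nat.pos_of_ne_zero hy') hxy
  have h2 : 4 * (∑ k ∈ s.erase 0, 4 ^ (Nat.pred k)) = ∑ k ∈ s.erase 0, 4 ^ k := by
    rw [Finset.mul_sum]
    apply Finset.sum_congr rfl
    intro k hk
    have hk' : k ≠ 0 := (Finset.mem_erase.mp hk).1
    obtain ⟨j, rfl⟩ := Nat.exists_eq_succ_of_ne_zero hk'
    rw [Nat.pred_succ, Nat.succ_eq_add_one, pow_succ]; ring
  rw [h1, h2]
  split_ifs with h
  · rw [← Finset.add_sum_erase s _ h]; ring
  · rw [Finset.erase_eq_of_notMem h, add_zero]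

lemma a_of_sum (N : ℕ) : ∀ s : Finset ℕ, ∑ k ∈ s, 4 ^ k = N → a N = 1 := by
  induction N using Nat.strong_induction_on with
  | _ N ih =>
    intro s hs
    rcases Nat.eq_zero_or_pos N with rfl | hN
    · exact a_zero
    rw [sum_shift] at hs
    set T := ∑ k ∈ (s.erase 0).image Nat.pred, 4 ^ k with hT
    split_ifs at hs with h
    · rw [← hs, a_lo T 1 (by norm_num)]
      exact ih T (by omega) _ hT.symm
    · rw [← hs, a_lo T 0 (by norm_num)]
      exact ih T (by omega) _ hT.symm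

lemma sum_of_a (N : ℕ) : a N = 1 → ∃ s : Finset ℕ, N = ∑ k ∈ s, 4 ^ k := by
  induction N using Nat.strong_induction_on with
  | _ N ih =>
    intro h
    rcases Nat.eq_zero_or_pos N with rfl | hN
    · exact ⟨∅, by simp⟩
    obtain ⟨m, r, hr, rfl⟩ : ∃ m r, r < 4 ∧ N = 4 * m + r := ⟨N / 4, N % 4, by omega, by omega⟩
    have key : ∀ s : Finset ℕ, ∑ k ∈ s.map ⟨Nat.succ, Nat.succ_injective⟩, 4 ^ k
        = 4 * ∑ k ∈ s, 4 ^ k := by
      intro s
      rw [Finset.sum_map, Finset.mul_sum]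
      apply Finset.sum_congr rfl
      intro k _
      simp only [Function.Embedding.coeFn_mk, Nat.succ_eq_add_one, pow_succ]; ring
    interval_cases r
    · rw [a_lo m 0 (by norm_num)] at h
      obtain ⟨s, hs⟩ := ih m (by omega) h
      exact ⟨s.map ⟨Nat.succ, Nat.succ_injective⟩, by rw [key, ← hs, add_zero]⟩
    · rw [a_lo m 1 (by norm_num)] at h
      obtain ⟨s, hs⟩ := ih m (by omega) h
      refine ⟨insert 0 (s.map ⟨Nat.succ, Nat.succ_injective⟩), ?_⟩
      rw [Finset.sum_insert (by simp), key, ← hs]; ring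
    · rw [a_hi m 2 (by norm_num) (by norm_num)] at h; norm_num at h
    · rw [a_hi m 3 (by norm_num) (by norm_num)] at h; norm_num at h

end Pool.Agent.V11171.HankTM
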