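import Mathlib

set_option autoImplicit false

namespace Pool.Agent.V11171.AbReg

/-! ### Digit counts in base 7 -/

/-- number of digits `d` in the base-7 expansion of `x` -/
def D (d x : ℕ) : ℤ := ((Nat.digits 7 x).count d : ℕ)

def w (d t : ℕ) : ℤ := if t = d then 1 else 0

theorem w_nonneg (d t : ℕ) : 0 ≤ w d t := by unfold w; split_ifs <;> norm_num
theorem w_le (d t : ℕ) : w d t ≤ 1 := by unfold w; split_ifs <;> norm_num

theorem D_zero (d : ℕ) : D d 0 = 0 := by simp [D]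

theorem D_rec {d x t : ℕ} (hd : d ≠ 0) (ht : t < 7) : D d (7 * x + t) = D d x + w d t := by
  by_cases h : t = 0 ∧ x = 0
  · obtain ⟨rfl, rfl⟩ := h
    simp [D, w, hd.symm]
  · have h2 : t ≠ 0 ∨ x ≠ 0 := by
      by_contra hcon
      push Not at hcon
      exact h hcon
    have h3 := Nat.digits_add 7 (by norm_num) t x ht h2
    rw [add_comm] at h3
    unfold D w
    rw [h3, List.count_cons]
    push_cast
    congr 1
    split_ifs with h4 h5 h5
    · rfl
    · exact absurd (by simpa using h4) h5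
    · exact absurd (by simpa using h5) h4
    · rfl

theorem D_split {d : ℕ} (hd : d ≠ 0) (a : ℕ) : ∀ q r, r < 7 ^ a →
    D d (7 ^ a * q + r) = D d q + D d r := by
  induction a with
  | zero =>
    intro q r hr
    have : r = 0 := by simpa using hr
    subst this
    simp [D_zero]
  | succ a ih =>
    intro q r hr
    have h1 := Nat.div_add_mod r 7
    have h2 : r % 7 < 7 := Nat.mod_lt _ (by norm_num)
    have h3 : r / 7 < 7 ^ a := by
      apply Nat.div_lt_of_lt_mul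
      rw [pow_succ] at hr
      omega
    have e : 7 ^ (a + 1) * q + r = 7 * (7 ^ a * q + r / 7) + r % 7 := by
      rw [pow_succ]
      nlinarith
    rw [e, D_rec hd h2, ih q _ h3]
    have e2 : D d r = D d (r / 7) + w d (r % 7) := by
      rw [← D_rec hd h2, h1]
    rw [e2]
    ring

theorem D_nonneg (d x : ℕ) : 0 ≤ D d x := by unfold D; positivity

theorem D_bound {d : ℕ} (hd : d ≠ 0) (a : ℕ) : ∀ r, r < 7 ^ a → D d r ≤ a := by
  induction a with
  | zero =>
    intro r hr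
    have : r = 0 := by simpa using hr
    subst this
    simp [D_zero]
  | succ a ih =>
    intro r hr
    have h1 := Nat.div_add_mod r 7
    have h2 : r % 7 < 7 := Nat.mod_lt _ (by norm_num)
    have h3 : r / 7 < 7 ^ a := by
      apply Nat.div_lt_of_lt_mul
      rw [pow_succ] at hr
      omega
    have e2 : D d r = D d (r / 7) + w d (r % 7) := by
      rw [← D_rec hd h2, h1]
    have h4 := ih _ h3
    have h5 := w_le d (r % 7)
    push_cast
    omega

/-- the last digit different from 6 -/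
def nd (m : ℕ) : ℕ := if m % 7 < 6 then m % 7 else nd (m / 7)
termination_by m
decreasing_by omega

theorem nd_rec (x t : ℕ) (ht : t < 7) : nd (7 * x + t) = if t < 6 then t else nd x := by
  rw [nd]
  have e1 : (7 * x + t) % 7 = t := by omega
  have e2 : (7 * x + t) / 7 = x := by omega
  rw [e1, e2]

theorem nd_lt (m : ℕ) : nd m < 7 := by
  induction m using Nat.strong_induction_on with
  | _ m ih =>
    rw [nd]
    split_ifs with h
    · omega
    · exact ih _ (by omega)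

theorem D_succ {d : ℕ} (h0 : d ≠ 0) (h6 : d ≠ 6) (m : ℕ) :
    D d (m + 1) - D d m = w d (nd m + 1) - w d (nd m) := by
  induction m using Nat.strong_induction_on with
  | _ m ih =>
    obtain ⟨x, t, ht, rfl⟩ : ∃ x t, t < 7 ∧ m = 7 * x + t :=
      ⟨m / 7, m % 7, Nat.mod_lt _ (by norm_num), (Nat.div_add_mod m 7).symm⟩
    rw [nd_rec x t ht, D_rec h0 ht]
    split_ifs with h
    · rw [add_assoc, D_rec h0 (by omega)]
      ring
    · have ht6 : t = 6 := by omega
      subst ht6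
      have e : 7 * x + 6 + 1 = 7 * (x + 1) + 0 := by ring
      rw [e, D_rec h0 (by norm_num)]
      have h7 := ih x (by omega)
      have e1 : w d 0 = 0 := by simp [w, h0.symm]
      have e2 : w d 6 = 0 := by simp [w, h6.symm]
      rw [e1, e2]
      linarith

theorem D_succ_abs {d : ℕ} (h0 : d ≠ 0) (h6 : d ≠ 6) (m : ℕ) : |D d (m + 1) - D d m| ≤ 1 := by
  rw [D_succ h0 h6]
  have a1 := w_nonneg d (nd m + 1)
  have a2 := w_le d (nd m + 1)
  have a3 := w_nonneg d (nd m)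
  have a4 := w_le d (nd m)
  rw [abs_le]
  constructor <;> linarith

theorem D_add_pow {d : ℕ} (h0 : d ≠ 0) (h6 : d ≠ 6) (m a : ℕ) :
    |D d (m + 7 ^ a) - D d m| ≤ 1 := by
  have hp : 0 < 7 ^ a := by positivity
  have e := Nat.div_add_mod m (7 ^ a)
  have hr := Nat.mod_lt m hp
  have e1 : m + 7 ^ a = 7 ^ a * (m / 7 ^ a + 1) + m % 7 ^ a := by
    rw [mul_add, mul_one]; omega
  rw [e1, D_split h0 a _ _ hr]
  have e2 : D d m = D d (m / 7 ^ a) + D d (m % 7 ^ a) := by
    rw [← D_split h0 a _ _ hr, e]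
  rw [e2]
  have := D_succ_abs h0 h6 (m / 7 ^ a)
  have e3 : D d (m / 7 ^ a + 1) + D d (m % 7 ^ a) - (D d (m / 7 ^ a) + D d (m % 7 ^ a)) =
    D d (m / 7 ^ a + 1) - D d (m / 7 ^ a) := by ring
  rw [e3]
  exact this

theorem D_add_lt {d : ℕ} (h0 : d ≠ 0) (h6 : d ≠ 6) (m a s : ℕ) (hs : s < 7 ^ a) :
    |D d (m + s) - D d m| ≤ a + 1 := by
  have hp : 0 < 7 ^ a := by positivity
  have e := Nat.div_add_mod m (7 ^ a)
  have hr := Nat.mod_lt m hp
  have e2 : D d m = D d (m / 7 ^ a) + D d (m % 7 ^ a) := by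
    rw [← D_split h0 a _ _ hr, e]
  have b1 := D_bound h0 a _ hr
  have b2 := D_nonneg d (m % 7 ^ a)
  rcases Nat.lt_or_ge (m % 7 ^ a + s) (7 ^ a) with h | h
  · have e1 : m + s = 7 ^ a * (m / 7 ^ a) + (m % 7 ^ a + s) := by omega
    rw [e1, D_split h0 a _ _ h, e2]
    have b3 := D_bound h0 a _ h
    have b4 := D_nonneg d (m % 7 ^ a + s)
    rw [abs_le]
    constructor <;> linarith
  · have e1 : m + s = 7 ^ a * (m / 7 ^ a + 1) + (m % 7 ^ a + s - 7 ^ a) := by
      rw [mul_add, mul_one]; omega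
    have h5 : m % 7 ^ a + s - 7 ^ a < 7 ^ a := by omega
    rw [e1, D_split h0 a _ _ h5, e2]
    have b3 := D_bound h0 a _ h5
    have b4 := D_nonneg d (m % 7 ^ a + s - 7 ^ a)
    have b5 := abs_le.1 (D_succ_abs h0 h6 (m / 7 ^ a))
    rw [abs_le]
    constructor <;> linarith [b5.1, b5.2]

/-! ### The lengths -/

def U : ℕ → ℕ
  | 0 => 0
  | j + 1 => 7 * U j + 3

def V : ℕ → ℕ
  | 0 => 0
  | i + 1 => 7 * V i + 2

theorem U_eq (j : ℕ) : 2 * U j + 1 = 7 ^ j := by
  induction j with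
  | zero => rfl
  | succ j ih => rw [U, pow_succ]; omega

theorem V_eq (i : ℕ) : 3 * V i + 1 = 7 ^ i := by
  induction i with
  | zero => rfl
  | succ j ih => rw [V, pow_succ]; omega

def NN (i j : ℕ) : ℕ := 7 ^ i * U j + V i

theorem NN_succ (i j : ℕ) : NN (i + 1) j = 7 * NN i j + 2 := by
  unfold NN
  rw [V, pow_succ]
  ring

theorem NN_lt (i j : ℕ) : 2 * NN i j < 7 ^ (i + j) := by
  unfold NN
  have h1 := U_eq j
  have h2 := V_eq i
  rw [pow_add, ← h1]
  nlinarith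

theorem XX_bound (n i j : ℕ) : |D 3 (2 * (n + NN i j)) - D 3 (2 * n)| ≤ i + 3 := by
  have h1 := U_eq j
  have h2 := V_eq i
  have e : 2 * (n + NN i j) + 7 ^ i = (2 * n + 2 * V i) + 7 ^ (i + j) := by
    unfold NN
    rw [pow_add, ← h1]
    ring
  have a1 := abs_le.1 (D_add_pow (d := 3) (by norm_num) (by norm_num) (2 * (n + NN i j)) i)
  rw [e] at a1
  have a2 := abs_le.1 (D_add_pow (d := 3) (by norm_num) (by norm_num) (2 * n + 2 * V i) (i + j))
  have a3 := abs_le.1 (D_add_lt (d := 3) (by norm_num) (by norm_num) (2 * n) i (2 * V i) (by omega))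
  rw [abs_le]
  constructor <;> linarith [a1.1, a1.2, a2.1, a2.2, a3.1, a3.2]

theorem YY_bound (n i j : ℕ) : |D 1 (3 * (n + NN i j)) - D 1 (3 * n)| ≤ j + 3 := by
  have h1 := U_eq j
  have h2 := V_eq i
  have hp : 0 < 7 ^ i := by positivity
  have a1 := abs_le.1 (D_succ_abs (d := 1) (by norm_num) (by norm_num) (3 * (n + NN i j)))
  have e : 3 * (n + NN i j) + 1 = 3 * n + 7 ^ i * (3 * U j + 1) := by
    unfold NN
    rw [← h2]
    ring
  rw [e] at a1
  have e0 := Nat.div_add_mod (3 * n) (7 ^ i)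
  have hr := Nat.mod_lt (3 * n) hp
  have e1' : ∀ Q, 3 * n + 7 ^ i * Q = 7 ^ i * (3 * n / 7 ^ i + Q) + 3 * n % 7 ^ i := by
    intro Q
    rw [mul_add]; omega
  have e1 := e1' (3 * U j + 1)
  have e2 : D 1 (3 * n) = D 1 (3 * n / 7 ^ i) + D 1 (3 * n % 7 ^ i) := by
    rw [← D_split (by norm_num) i _ _ hr, e0]
  rw [e1, D_split (by norm_num) i _ _ hr] at a1
  have a3 := abs_le.1 (D_add_lt (d := 1) (by norm_num) (by norm_num) (3 * n / 7 ^ i) (j + 1)
    (3 * U j + 1) (by rw [pow_succ]; omega))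
  push_cast at a3
  rw [e2, abs_le]
  constructor <;> linarith [a1.1, a1.2, a3.1, a3.2]

/-! ### Comparing `D 1 (3 y)` and `D 3 (2 y)` -/

/-- digit counts of three-digit blocks -/
def c3 (d x : ℕ) : ℤ := w d (x % 7) + w d (x / 7 % 7) + w d (x / 49)

theorem D_c3 {d : ℕ} (hd : d ≠ 0) (q x : ℕ) (hx : x < 343) :
    D d (343 * q + x) = D d q + c3 d x := by
  have e : 343 * q + x = 7 * (7 * (7 * q + x / 49) + x / 7 % 7) + x % 7 := by omega
  rw [e, D_rec hd (by omega), D_rec hd (by omega), D_rec hd (by omega)]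
  unfold c3
  ring

def chk (y c t : ℕ) : Bool :=
  if c + 343 ≤ 2 * y + 343 * t + 1 then
    if (2 * y + 343 * t + 1 - c - 343) % 3 = 0 then
      if (2 * y + 343 * t + 1 - c - 343) / 3 < 343 then
        decide (-2 ≤ c3 1 y - c3 3 ((2 * y + 343 * t + 1 - c - 343) / 3) ∧
          c3 1 y - c3 3 ((2 * y + 343 * t + 1 - c - 343) / 3) ≤ 2)
      else true
    else true
  else true

set_option maxRecDepth 10000 in
theorem chk_all : ((List.range 343).all fun y => (List.range 4).all fun c =>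
    (List.range 4).all fun t => chk y c t) = true := by
  decide +kernel

/-- finite check -/
theorem block_check (y c t z : ℕ) (hy : y < 343) (hc : c < 4) (ht : t < 4) (hz : z < 343)
    (h : 2 * y + 343 * t + 1 = 3 * z + c + 343) :
      (-2 ≤ c3 1 y - c3 3 z ∧ c3 1 y - c3 3 z ≤ 2) := by
  have h1 := chk_all
  rw [List.all_eq_true] at h1
  have h2 := h1 y (List.mem_range.2 hy)
  rw [List.all_eq_true] at h2
  have h3 := h2 c (List.mem_range.2 hc)
  rw [List.all_eq_true] at h3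
  have h4 := h3 t (List.mem_range.2 ht)
  unfold chk at h4
  have e : (2 * y + 343 * t + 1 - c - 343) / 3 = z := by omega
  rw [if_pos (by omega), if_pos (by omega), e, if_pos hz] at h4
  exact of_decide_eq_true h4

/-- the relation between `3y` and `2y` on all levels -/
def Rel (Y Z : ℕ) : Prop := 3 * Z ≤ 2 * Y + 1 ∧ 2 * Y ≤ 3 * Z + 2

theorem rel_step {Y Z : ℕ} (h : Rel Y Z) : Rel (Y / 343) (Z / 343) ∧
    |(D 1 Y - D 3 Z) - (D 1 (Y / 343) - D 3 (Z / 343))| ≤ 2 := by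
  unfold Rel at h ⊢
  have hY := Nat.div_add_mod Y 343
  have hZ := Nat.div_add_mod Z 343
  have rY := Nat.mod_lt Y (by norm_num : 0 < 343)
  have rZ := Nat.mod_lt Z (by norm_num : 0 < 343)
  have hR : 3 * (Z / 343) ≤ 2 * (Y / 343) + 1 ∧ 2 * (Y / 343) ≤ 3 * (Z / 343) + 2 := by
    omega
  refine ⟨hR, ?_⟩
  have e1 : D 1 Y = D 1 (Y / 343) + c3 1 (Y % 343) := by
    rw [← D_c3 (by norm_num) _ _ rY, hY]
  have e2 : D 3 Z = D 3 (Z / 343) + c3 3 (Z % 343) := by
    rw [← D_c3 (by norm_num) _ _ rZ, hZ]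
  have h5 := block_check (Y % 343) (2 * Y + 1 - 3 * Z) (2 * (Y / 343) + 1 - 3 * (Z / 343)) (Z % 343)
    rY (by omega) (by omega) rZ (by omega)
  rw [e1, e2, abs_le]
  constructor <;> linarith [h5.1, h5.2]

theorem rel_iter (a : ℕ) : ∀ Y Z, Rel Y Z → Rel (Y / 343 ^ a) (Z / 343 ^ a) ∧
    |(D 1 Y - D 3 Z) - (D 1 (Y / 343 ^ a) - D 3 (Z / 343 ^ a))| ≤ 2 * a := by
  induction a with
  | zero => intro Y Z h; simpa using h
  | succ a ih =>
    intro Y Z h
    obtain ⟨h1, h2⟩ := ih Y Z h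
    obtain ⟨h3, h4⟩ := rel_step h1
    rw [Nat.div_div_eq_div_mul, Nat.div_div_eq_div_mul, ← pow_succ] at h3 h4
    refine ⟨h3, ?_⟩
    rw [abs_le] at h2 h4 ⊢
    push_cast
    constructor <;> linarith [h2.1, h2.2, h4.1, h4.2]

theorem rel_mul (y : ℕ) : Rel (3 * y) (2 * y) := by
  unfold Rel
  omega

/-! ### High parts near a boundary -/

theorem D_pow_mul {d : ℕ} (hd : d ≠ 0) (a q : ℕ) : D d (q * 7 ^ a) = D d q := by
  have := D_split hd a q 0 (by positivity)
  rw [D_zero, add_zero, add_zero, mul_comm] at this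
  exact this

theorem D_pow_mul_sub {d : ℕ} (hd : d ≠ 0) (hd6 : d ≠ 6) (a q : ℕ) (hq : 0 < q) :
    D d (q * 7 ^ a - 1) = D d (q - 1) := by
  induction a with
  | zero => simp
  | succ a ih =>
    have hp : 0 < q * 7 ^ a := by positivity
    have e : q * 7 ^ (a + 1) - 1 = 7 * (q * 7 ^ a - 1) + 6 := by
      rw [pow_succ]
      have : q * (7 ^ a * 7) = 7 * (q * 7 ^ a) := by ring
      omega
    rw [e, D_rec hd (by norm_num), ih]
    have e2 : w d 6 = 0 := by simp [w, hd6.symm]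
    rw [e2, add_zero]

theorem D_small (d x : ℕ) (hd : d ≠ 0) (hx : x < 7) : D d x = w d x := by
  have := D_rec (d := d) (x := 0) hd hx
  rw [D_zero, mul_zero, zero_add, zero_add] at this
  exact this

/-- The number `y` is near a boundary (compared with `7 ^ M`). -/
def Near (M y : ℕ) : Prop :=
  (3 * y / 7 ^ M < 3 ∧ 2 * y / 7 ^ M < 3) ∨
  (∃ a, 3 * y / 7 ^ M = 6 * 7 ^ a ∧ 2 * y / 7 ^ M = 4 * 7 ^ a) ∨
  (∃ a, 3 * y / 7 ^ M = 3 * 7 ^ a - 1 ∧ 2 * y / 7 ^ M = 2 * 7 ^ a - 1)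

theorem near_bound (a y : ℕ) (h : Near (3 * a) y) : |D 1 (3 * y) - D 3 (2 * y)| ≤ 2 * a + 1 := by
  obtain ⟨_, h2⟩ := rel_iter a _ _ (rel_mul y)
  have e : (343 : ℕ) ^ a = 7 ^ (3 * a) := by rw [pow_mul]; norm_num
  rw [e] at h2
  have h3 : 0 ≤ D 1 (3 * y / 7 ^ (3 * a)) - D 3 (2 * y / 7 ^ (3 * a)) ∧
      D 1 (3 * y / 7 ^ (3 * a)) - D 3 (2 * y / 7 ^ (3 * a)) ≤ 1 := by
    rcases h with ⟨h4, h5⟩ | ⟨b, h4, h5⟩ | ⟨b, h4, h5⟩
    · rw [D_small 1 _ (by norm_num) (by omega), D_small 3 _ (by norm_num) (by omega)]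
      have h6 : w 3 (2 * y / 7 ^ (3 * a)) = 0 := by
        unfold w
        rw [if_neg (by omega)]
      rw [h6]
      have := w_nonneg 1 (3 * y / 7 ^ (3 * a))
      have := w_le 1 (3 * y / 7 ^ (3 * a))
      constructor <;> linarith
    · rw [h4, h5, D_pow_mul (by norm_num), D_pow_mul (by norm_num), D_small 1 _ (by norm_num)
        (by norm_num), D_small 3 _ (by norm_num) (by norm_num)]
      simp [w]
    · rw [h4, h5, D_pow_mul_sub (by norm_num) (by norm_num) _ _ (by norm_num),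
        D_pow_mul_sub (by norm_num) (by norm_num) _ _ (by norm_num), D_small 1 _ (by norm_num)
        (by norm_num), D_small 3 _ (by norm_num) (by norm_num)]
      simp [w]
  rw [abs_le] at h2 ⊢
  constructor <;> linarith [h2.1, h2.2, h3.1, h3.2]

/-! ### The height function -/

def X (n : ℕ) : Prop := ∃ L, 7 ^ L ≤ n ∧ n < 2 * 7 ^ L

open Classical in
noncomputable def H (n : ℕ) : ℤ := if X n then D 3 (2 * n) else D 1 (3 * n)

theorem H_X {n : ℕ} (h : X n) : H n = D 3 (2 * n) := if_pos h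
theorem H_Y {n : ℕ} (h : ¬ X n) : H n = D 1 (3 * n) := if_neg h

theorem X_zero : ¬ X 0 := by
  rintro ⟨L, h1, _⟩
  have : 0 < 7 ^ L := by positivity
  omega

theorem H_zero : H 0 = 0 := by rw [H_Y X_zero, mul_zero, D_zero]

theorem X_small {r : ℕ} (hr : r < 7) : X r ↔ r = 1 := by
  constructor
  · rintro ⟨L, h1, h2⟩
    cases L with
    | zero => simp at h1 h2; omega
    | succ L =>
      have : 0 < 7 ^ L := by positivity
      rw [pow_succ] at h1
      omega
  · rintro rfl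
    exact ⟨0, by norm_num, by norm_num⟩

theorem X_rec {n r : ℕ} (hn : 0 < n) (hr : r < 7) : X (7 * n + r) ↔ X n := by
  constructor
  · rintro ⟨L, h1, h2⟩
    cases L with
    | zero => simp at h1 h2; omega
    | succ L =>
      refine ⟨L, ?_, ?_⟩
      · rw [pow_succ] at h1; omega
      · rw [pow_succ] at h2; omega
  · rintro ⟨L, h1, h2⟩
    refine ⟨L + 1, ?_, ?_⟩
    · rw [pow_succ]; omega
    · rw [pow_succ]; omega

theorem H_succ_X {n : ℕ} (h : X n) : H (n + 1) = D 3 (2 * (n + 1)) := by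
  by_cases h1 : X (n + 1)
  · exact H_X h1
  · obtain ⟨L, h2, h3⟩ := h
    have h4 : n + 1 = 2 * 7 ^ L := by
      by_contra hne
      exact h1 ⟨L, by omega, by omega⟩
    rw [H_Y h1, h4]
    have e1 : 3 * (2 * 7 ^ L) = 6 * 7 ^ L := by ring
    have e2 : 2 * (2 * 7 ^ L) = 4 * 7 ^ L := by ring
    rw [e1, e2, D_pow_mul (by norm_num), D_pow_mul (by norm_num), D_small 1 _ (by norm_num)
        (by norm_num), D_small 3 _ (by norm_num) (by norm_num)]
    simp [w]

theorem H_succ_Y {n : ℕ} (h : ¬ X n) : H (n + 1) = D 1 (3 * (n + 1)) := by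
  by_cases h1 : X (n + 1)
  · obtain ⟨L, h2, h3⟩ := id h1
    have h4 : n + 1 = 7 ^ L := by
      by_contra hne
      exact h ⟨L, by omega, by omega⟩
    rw [H_X h1, h4, D_pow_mul (by norm_num), D_pow_mul (by norm_num), D_small 1 _ (by norm_num)
        (by norm_num), D_small 3 _ (by norm_num) (by norm_num)]
    simp [w]
  · exact H_Y h1

theorem H_step (n : ℕ) : |H (n + 1) - H n| ≤ 3 := by
  by_cases h : X n
  · rw [H_succ_X h, H_X h]
    have a1 := abs_le.1 (D_succ_abs (d := 3) (by norm_num) (by norm_num) (2 * n))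
    have a2 := abs_le.1 (D_succ_abs (d := 3) (by norm_num) (by norm_num) (2 * n + 1))
    have e : 2 * (n + 1) = 2 * n + 1 + 1 := by ring
    rw [e, abs_le]
    constructor <;> linarith [a1.1, a1.2, a2.1, a2.2]
  · rw [H_succ_Y h, H_Y h]
    have a1 := abs_le.1 (D_succ_abs (d := 1) (by norm_num) (by norm_num) (3 * n))
    have a2 := abs_le.1 (D_succ_abs (d := 1) (by norm_num) (by norm_num) (3 * n + 1))
    have a3 := abs_le.1 (D_succ_abs (d := 1) (by norm_num) (by norm_num) (3 * n + 1 + 1))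
    have e : 3 * (n + 1) = 3 * n + 1 + 1 + 1 := by ring
    rw [e, abs_le]
    constructor <;> linarith [a1.1, a1.2, a2.1, a2.2, a3.1, a3.2]

theorem H_digit (n r : ℕ) (hr : r < 7) : |H (7 * n + r) - H n| ≤ 3 := by
  rcases Nat.eq_zero_or_pos n with hn | hn
  · subst hn
    rw [H_zero, mul_zero, zero_add, sub_zero]
    by_cases h : X r
    · rw [H_X h]
      have hr1 := (X_small hr).1 h
      subst hr1
      rw [D_small 3 _ (by norm_num) (by norm_num)]
      simp [w]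
    · rw [H_Y h]
      have e : 3 * r = 7 * (3 * r / 7) + 3 * r % 7 := (Nat.div_add_mod _ _).symm
      rw [e, D_rec (by norm_num) (Nat.mod_lt _ (by norm_num)), D_small 1 _ (by norm_num) (by omega)]
      have a1 := w_nonneg 1 (3 * r / 7)
      have a2 := w_le 1 (3 * r / 7)
      have a3 := w_nonneg 1 (3 * r % 7)
      have a4 := w_le 1 (3 * r % 7)
      rw [abs_le]
      constructor <;> linarith
  · by_cases h : X n
    · rw [H_X h, H_X ((X_rec hn hr).2 h)]
      have e : 2 * (7 * n + r) = 7 * (2 * n + 2 * r / 7) + 2 * r % 7 := by omega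
      rw [e, D_rec (by norm_num) (Nat.mod_lt _ (by norm_num))]
      have a1 := abs_le.1 (D_add_lt (d := 3) (by norm_num) (by norm_num) (2 * n) 1 (2 * r / 7)
        (by omega))
      have a3 := w_nonneg 3 (2 * r % 7)
      have a4 := w_le 3 (2 * r % 7)
      push_cast at a1
      rw [abs_le]
      constructor <;> linarith [a1.1, a1.2]
    · have h' : ¬ X (7 * n + r) := fun h1 => h ((X_rec hn hr).1 h1)
      rw [H_Y h, H_Y h']
      have e : 3 * (7 * n + r) = 7 * (3 * n + 3 * r / 7) + 3 * r % 7 := by omega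
      rw [e, D_rec (by norm_num) (Nat.mod_lt _ (by norm_num))]
      have a1 := abs_le.1 (D_add_lt (d := 1) (by norm_num) (by norm_num) (3 * n) 1 (3 * r / 7)
        (by omega))
      have a3 := w_nonneg 1 (3 * r % 7)
      have a4 := w_le 1 (3 * r % 7)
      push_cast at a1
      rw [abs_le]
      constructor <;> linarith [a1.1, a1.2]

/-! ### Upper bound -/

theorem div_eq_of {m x k : ℕ} (_hm : 0 < m) (h1 : k * m ≤ x) (h2 : x < (k + 1) * m) : x / m = k := by
  apply Nat.div_eq_of_lt_le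
  · exact h1
  · exact h2

theorem near_XY {n N m a : ℕ} (h : X n) (h' : ¬ X (n + N)) (hN : 2 * N < 7 ^ m)
    (ha : m + 1 ≤ 3 * a) : Near (3 * a) (n + N) := by
  obtain ⟨L, h1, h2⟩ := h
  have h3 : 2 * 7 ^ L ≤ n + N := by
    by_contra hcon
    exact h' ⟨L, by omega, by omega⟩
  have hN3 : 3 * N < 7 ^ (3 * a) := by
    have h4 : 7 ^ (m + 1) ≤ 7 ^ (3 * a) := Nat.pow_le_pow_right (by norm_num) ha
    rw [pow_succ] at h4
    omega
  have hp : 0 < 7 ^ (3 * a) := by positivity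
  rcases Nat.lt_or_ge L (3 * a) with hL | hL
  · left
    have h5 : 7 ^ L ≤ 7 ^ (3 * a - 1) := Nat.pow_le_pow_right (by norm_num) (by omega)
    have h6 : 7 ^ (3 * a) = 7 ^ (3 * a - 1) * 7 := by
      rw [← pow_succ]
      congr 1
      omega
    constructor
    · rw [Nat.div_lt_iff_lt_mul hp]
      omega
    · rw [Nat.div_lt_iff_lt_mul hp]
      omega
  · right; left
    refine ⟨L - 3 * a, ?_, ?_⟩
    · have e : 7 ^ L = 7 ^ (L - 3 * a) * 7 ^ (3 * a) := by
        rw [← pow_add]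
        congr 1
        omega
      apply div_eq_of hp
      · rw [mul_assoc, ← e]; omega
      · rw [add_mul, mul_assoc, ← e]; omega
    · have e : 7 ^ L = 7 ^ (L - 3 * a) * 7 ^ (3 * a) := by
        rw [← pow_add]
        congr 1
        omega
      apply div_eq_of hp
      · rw [mul_assoc, ← e]; omega
      · rw [add_mul, mul_assoc, ← e]; omega

theorem near_YX {n N m a : ℕ} (h : ¬ X n) (h' : X (n + N)) (hN : 2 * N < 7 ^ m)
    (ha : m + 1 ≤ 3 * a) : Near (3 * a) n := by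
  obtain ⟨L, h1, h2⟩ := h'
  have h3 : n < 7 ^ L := by
    by_contra hcon
    exact h ⟨L, by omega, by omega⟩
  have hN3 : 3 * N < 7 ^ (3 * a) := by
    have h4 : 7 ^ (m + 1) ≤ 7 ^ (3 * a) := Nat.pow_le_pow_right (by norm_num) ha
    rw [pow_succ] at h4
    omega
  have hp : 0 < 7 ^ (3 * a) := by positivity
  rcases Nat.lt_or_ge L (3 * a) with hL | hL
  · left
    have h5 : 7 ^ L ≤ 7 ^ (3 * a) := Nat.pow_le_pow_right (by norm_num) (by omega)
    constructor
    · rw [Nat.div_lt_iff_lt_mul hp]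
      omega
    · rw [Nat.div_lt_iff_lt_mul hp]
      omega
  · right; right
    have e : 7 ^ L = 7 ^ (L - 3 * a) * 7 ^ (3 * a) := by
      rw [← pow_add]
      congr 1
      omega
    have hq : 0 < 7 ^ (L - 3 * a) := by positivity
    refine ⟨L - 3 * a, ?_, ?_⟩
    · apply div_eq_of hp
      · rw [Nat.sub_mul, mul_assoc, ← e]; omega
      · have e2 : 3 * 7 ^ (L - 3 * a) - 1 + 1 = 3 * 7 ^ (L - 3 * a) := by omega
        rw [e2, mul_assoc, ← e]; omega
    · apply div_eq_of hp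
      · rw [Nat.sub_mul, mul_assoc, ← e]; omega
      · have e2 : 2 * 7 ^ (L - 3 * a) - 1 + 1 = 2 * 7 ^ (L - 3 * a) := by omega
        rw [e2, mul_assoc, ← e]; omega

theorem H_upper (i j n : ℕ) (hij : 5 * i ≤ j) : |H (n + NN i j) - H n| ≤ j + 6 := by
  have hX := XX_bound n i j
  have hY := YY_bound n i j
  have hN := NN_lt i j
  by_cases h : X n
  · by_cases h' : X (n + NN i j)
    · rw [H_X h, H_X h']
      refine hX.trans ?_
      omega
    · rw [H_X h, H_Y h']
      have h1 := near_bound _ _ (near_XY (a := (i + j) / 3 + 1) h h' hN (by omega))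
      rw [abs_le] at h1 hX ⊢
      push_cast at h1
      constructor <;> omega
  · by_cases h' : X (n + NN i j)
    · rw [H_Y h, H_X h']
      have h1 := near_bound _ _ (near_YX (a := (i + j) / 3 + 1) h h' hN (by omega))
      rw [abs_le] at h1 hX ⊢
      push_cast at h1
      constructor <;> omega
    · rw [H_Y h, H_Y h']
      refine hY.trans ?_
      omega

/-! ### Lower bounds -/

def W : ℕ → ℕ
  | 0 => 0
  | i + 1 => 7 * W i + 5

def O : ℕ → ℕ
  | 0 => 0
  | i + 1 => 7 * O i + 1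

theorem W_eq (i : ℕ) : W i + 2 * V i + 1 = 7 ^ i + U i := by
  induction i with
  | zero => rfl
  | succ i ih => rw [W, V, U, pow_succ]; omega

theorem O_eq (i : ℕ) : 6 * O i + 1 = 7 ^ i := by
  induction i with
  | zero => rfl
  | succ i ih => rw [O, pow_succ]; omega

theorem D3_U (i : ℕ) : D 3 (U i) = i := by
  induction i with
  | zero => exact D_zero 3
  | succ i ih =>
    rw [U, D_rec (by norm_num) (by norm_num), ih]
    simp [w]

theorem D1_O (i : ℕ) : D 1 (O i) = i := by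
  induction i with
  | zero => exact D_zero 1
  | succ i ih =>
    rw [O, D_rec (by norm_num) (by norm_num), ih]
    simp [w]

theorem D3_O (i : ℕ) : D 3 (O i) = 0 := by
  induction i with
  | zero => exact D_zero 3
  | succ i ih =>
    rw [O, D_rec (by norm_num) (by norm_num), ih]
    simp [w]

theorem D3_W (i : ℕ) : D 3 (W i) = 0 := by
  induction i with
  | zero => exact D_zero 3
  | succ i ih =>
    rw [W, D_rec (by norm_num) (by norm_num), ih]
    simp [w]

theorem D1_V2 (i : ℕ) : D 1 (2 * V i) = 0 := by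
  induction i with
  | zero => exact D_zero 1
  | succ i ih =>
    have e : 2 * V (i + 1) = 7 * (2 * V i) + 4 := by rw [V]; ring
    rw [e, D_rec (by norm_num) (by norm_num), ih]
    simp [w]

/-- A point of type `X`: lower digits of `2n` are `r` -/
theorem X_point (i j r e : ℕ) (hr : r < 7 ^ (i + 1)) (he : e ≤ 1)
    (hpar : (e * 7 ^ (i + j + 2) + r) % 2 = 0) :
    ∃ n, 2 * n = 7 ^ (i + j + 2) * (14 + e) + r ∧ X n ∧ X (n + NN (i + 1) j) := by
  obtain ⟨q, hq⟩ : ∃ q, e * 7 ^ (i + j + 2) + r = 2 * q :=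
    ⟨(e * 7 ^ (i + j + 2) + r) / 2, by omega⟩
  have h1 : 7 ^ (i + 1) ≤ 7 ^ (i + j + 2) := Nat.pow_le_pow_right (by norm_num) (by omega)
  have hN := NN_lt (i + 1) j
  have h2 : 7 ^ (i + j + 2) = 7 ^ (i + 1 + j) * 7 := by rw [← pow_succ]; congr 1; ring
  have h3 : 7 ^ (i + j + 3) = 7 ^ (i + j + 2) * 7 := by rw [← pow_succ]
  have he2 : e * 7 ^ (i + j + 2) ≤ 1 * 7 ^ (i + j + 2) := Nat.mul_le_mul_right _ he
  refine ⟨7 ^ (i + j + 3) + q, ?_, ⟨i + j + 3, by omega, by omega⟩,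
    ⟨i + j + 3, by omega, by omega⟩⟩
  rw [mul_add, ← hq, h3]
  ring

theorem X_high (e : ℕ) (he : e ≤ 1) : D 3 (14 + e) = 0 ∧ D 3 (7 * (14 + e) + 1) = 0 := by
  have h1 : D 3 (14 + e) = 0 := by
    have e1 : 14 + e = 7 * 2 + e := by ring
    rw [e1, D_rec (by norm_num) (by omega), D_small 3 2 (by norm_num) (by norm_num)]
    have : w 3 e = 0 := by unfold w; rw [if_neg (by omega)]
    rw [this]
    simp [w]
  refine ⟨h1, ?_⟩
  rw [D_rec (by norm_num) (by norm_num), h1]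
  simp [w]

theorem X_lower (i j : ℕ) : (∃ n, H (n + NN (i + 1) j) - H n = i + 1) ∧
    (∃ n, H (n + NN (i + 1) j) - H n = -(i + 1)) := by
  have hs : 7 ^ (i + j + 2) = 7 ^ (i + 1 + j) * 7 := by rw [← pow_succ]; congr 1; ring
  have hpow : 7 ^ (i + 1 + j) = 7 ^ (i + 1) * (2 * U j + 1) := by rw [pow_add, U_eq]
  have hodd : 7 ^ (i + j + 2) % 2 = 1 := by
    rw [Nat.pow_mod]; norm_num
  have hle : 7 ^ (i + 1) ≤ 7 ^ (i + 1 + j) := Nat.pow_le_pow_right (by norm_num) (by omega)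
  have hle2 : 7 ^ (i + 1) ≤ 7 ^ (i + j + 2) := Nat.pow_le_pow_right (by norm_num) (by omega)
  have hN : 2 * NN (i + 1) j + 7 ^ (i + 1) = 7 ^ (i + 1 + j) + 2 * V (i + 1) := by
    unfold NN
    rw [hpow]
    ring
  have hU := U_eq (i + 1)
  have hpar : ∀ r, ((r % 2) * 7 ^ (i + j + 2) + r) % 2 = 0 := by
    intro r
    rcases Nat.mod_two_eq_zero_or_one r with h | h
    · rw [h]; omega
    · rw [h]; omega
  constructor
  · -- maximum
    have hW := W_eq i
    have hr : 7 * W i + 6 < 7 ^ (i + 1) := by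
      have := V_eq i
      have := U_eq i
      rw [pow_succ]
      omega
    obtain ⟨n, h1, h2, h3⟩ := X_point i j (7 * W i + 6) ((7 * W i + 6) % 2) hr (by omega) (hpar _)
    refine ⟨n, ?_⟩
    obtain ⟨g1, g2⟩ := X_high ((7 * W i + 6) % 2) (by omega)
    rw [H_X h2, H_X h3, h1, D_split (by norm_num) _ _ _ (lt_of_lt_of_le hr hle2), g1,
      D_rec (by norm_num) (by norm_num), D3_W]
    have e : 2 * (n + NN (i + 1) j) =
        7 ^ (i + 1 + j) * (7 * (14 + (7 * W i + 6) % 2) + 1) + U (i + 1) := by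
      have e1 : 7 * W i + 6 + 2 * V (i + 1) = 7 ^ (i + 1) + U (i + 1) := by
        rw [V, U, pow_succ]; omega
      have e2 : 7 ^ (i + 1 + j) * (7 * (14 + (7 * W i + 6) % 2) + 1) =
          7 ^ (i + j + 2) * (14 + (7 * W i + 6) % 2) + 7 ^ (i + 1 + j) := by rw [hs]; ring
      rw [e2]
      omega
    rw [e, D_split (by norm_num) _ _ _ (by omega), g2, D3_U]
    simp [w]
  · -- minimum
    have hr : U (i + 1) < 7 ^ (i + 1) := by omega
    obtain ⟨n, h1, h2, h3⟩ := X_point i j (U (i + 1)) (U (i + 1) % 2) hr (by omega) (hpar _)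
    refine ⟨n, ?_⟩
    obtain ⟨g1, g2⟩ := X_high (U (i + 1) % 2) (by omega)
    rw [H_X h2, H_X h3, h1, D_split (by norm_num) _ _ _ (lt_of_lt_of_le hr hle2), g1, D3_U]
    have e : 2 * (n + NN (i + 1) j) =
        7 ^ (i + 1 + j) * (7 * (14 + U (i + 1) % 2) + 1) + (7 * O i + 0) := by
      have e1 : U (i + 1) + 2 * V (i + 1) = 7 ^ (i + 1) + 7 * O i := by
        have a1 := U_eq i
        have a2 := V_eq i
        have a3 := O_eq i
        rw [V, U, pow_succ]; omega
      have e2 : 7 ^ (i + 1 + j) * (7 * (14 + U (i + 1) % 2) + 1) =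
          7 ^ (i + j + 2) * (14 + U (i + 1) % 2) + 7 ^ (i + 1 + j) := by rw [hs]; ring
      rw [e2]
      omega
    have hO : 7 * O i + 0 < 7 ^ (i + 1 + j) := by
      have a3 := O_eq i
      have a4 : 7 ^ (i + 1) = 7 ^ i * 7 := pow_succ _ _
      omega
    rw [e, D_split (by norm_num) _ _ _ hO, g2, D_rec (by norm_num) (by norm_num), D3_O]
    simp [w]

theorem notX {L n : ℕ} (h1 : 2 * 7 ^ L ≤ n) (h2 : n < 7 ^ (L + 1)) : ¬ X n := by
  rintro ⟨L', h3, h4⟩
  rcases Nat.lt_or_ge L L' with h | h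
  · have : 7 ^ (L + 1) ≤ 7 ^ L' := Nat.pow_le_pow_right (by norm_num) h
    omega
  · have : 7 ^ L' ≤ 7 ^ L := Nat.pow_le_pow_right (by norm_num) h
    omega

theorem Y_point (j r e : ℕ) (hr : r < 7 ^ (j + 1)) (he : e ≤ 2)
    (hpar : (e * 7 ^ (j + 2) + r) % 3 = 0) :
    ∃ n, 3 * n = 7 ^ (j + 2) * (42 + e) + r ∧ ¬ X n ∧ ¬ X (n + NN 0 (j + 1)) := by
  obtain ⟨q, hq⟩ : ∃ q, e * 7 ^ (j + 2) + r = 3 * q :=
    ⟨(e * 7 ^ (j + 2) + r) / 3, by omega⟩
  have h1 : 7 ^ (j + 1) ≤ 7 ^ (j + 2) := Nat.pow_le_pow_right (by norm_num) (by omega)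
  have hN := NN_lt 0 (j + 1)
  rw [zero_add] at hN
  have h3 : 7 ^ (j + 3) = 7 ^ (j + 2) * 7 := by rw [← pow_succ]
  have h4 : 7 ^ (j + 3 + 1) = 7 ^ (j + 3) * 7 := by rw [← pow_succ]
  have he2 : e * 7 ^ (j + 2) ≤ 2 * 7 ^ (j + 2) := Nat.mul_le_mul_right _ he
  refine ⟨2 * 7 ^ (j + 3) + q, ?_, notX (L := j + 3) (by omega) (by omega),
    notX (L := j + 3) (by omega) (by omega)⟩
  rw [mul_add, ← hq, h3]
  ring

theorem arith1 (j : ℕ) : 3 * U (j + 1) + (7 * (2 * V j) + 6) = 2 * 7 ^ (j + 1) + O (j + 1) := by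
  have hU := U_eq (j + 1)
  have hVj := V_eq j
  have hO := O_eq (j + 1)
  have hp : 7 ^ (j + 1) = 7 ^ j * 7 := pow_succ _ _
  omega

theorem arith2 (j : ℕ) : 3 * U (j + 1) + O (j + 1) = 7 ^ (j + 1) + (7 * (2 * V j) + 3) := by
  have hU := U_eq (j + 1)
  have hVj := V_eq j
  have hO := O_eq (j + 1)
  have hp : 7 ^ (j + 1) = 7 ^ j * 7 := pow_succ _ _
  omega

theorem arith3 (j : ℕ) : 7 * (2 * V j) + 6 < 7 ^ (j + 1) := by
  have hVj := V_eq j
  have hp : 7 ^ (j + 1) = 7 ^ j * 7 := pow_succ _ _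
  omega

theorem Y_lower (j : ℕ) : (∃ n, H (n + NN 0 (j + 1)) - H n = j + 1) ∧
    (∃ n, H (n + NN 0 (j + 1)) - H n = -j) := by
  have hs : 7 ^ (j + 2) = 7 ^ (j + 1) * 7 := by rw [← pow_succ]
  have hmod : 7 ^ (j + 2) % 3 = 1 := by
    rw [Nat.pow_mod]; norm_num
  have hle2 : 7 ^ (j + 1) ≤ 7 ^ (j + 2) := Nat.pow_le_pow_right (by norm_num) (by omega)
  have hN : NN 0 (j + 1) = U (j + 1) := by
    unfold NN
    rw [V]
    ring
  have hpar : ∀ r, ((2 * r % 3) * 7 ^ (j + 2) + r) % 3 = 0 := by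
    intro r
    rw [Nat.add_mod, Nat.mul_mod, hmod]
    omega
  have a1 := arith1 j
  have a2 := arith2 j
  have a3 := arith3 j
  have hO : O (j + 1) < 7 ^ (j + 1) := by
    have := O_eq (j + 1)
    omega
  constructor
  · obtain ⟨n, h1, h2, h3⟩ := Y_point j (7 * (2 * V j) + 6) (2 * (7 * (2 * V j) + 6) % 3) a3
      (by omega) (hpar _)
    refine ⟨n, ?_⟩
    generalize 2 * (7 * (2 * V j) + 6) % 3 = e at h1
    rw [H_Y h2, H_Y h3, h1, D_split (by norm_num) _ _ _ (lt_of_lt_of_le a3 hle2),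
      D_rec (by norm_num) (by norm_num), D1_V2]
    have e1 : 3 * (n + NN 0 (j + 1)) = 7 ^ (j + 1) * (7 * (42 + e) + 2) + O (j + 1) := by
      have e2 : 7 ^ (j + 1) * (7 * (42 + e) + 2) = 7 ^ (j + 2) * (42 + e) + 2 * 7 ^ (j + 1) := by
        rw [hs]; ring
      rw [e2, hN, mul_add, h1]
      linarith
    rw [e1, D_split (by norm_num) _ _ _ hO, D_rec (by norm_num) (by norm_num), D1_O]
    simp [w]
  · obtain ⟨n, h1, h2, h3⟩ := Y_point j (O (j + 1)) (2 * O (j + 1) % 3) hO (by omega) (hpar _)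
    refine ⟨n, ?_⟩
    generalize 2 * O (j + 1) % 3 = e at h1
    rw [H_Y h2, H_Y h3, h1, D_split (by norm_num) _ _ _ (lt_of_lt_of_le hO hle2), D1_O]
    have e1 : 3 * (n + NN 0 (j + 1)) = 7 ^ (j + 1) * (7 * (42 + e) + 1) + (7 * (2 * V j) + 3) := by
      have e2 : 7 ^ (j + 1) * (7 * (42 + e) + 1) = 7 ^ (j + 2) * (42 + e) + 7 ^ (j + 1) := by
        rw [hs]; ring
      rw [e2, hN, mul_add, h1]
      linarith
    rw [e1, D_split (by norm_num) _ _ _ (lt_trans (by omega) a3), D_rec (by norm_num) (by norm_num),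
      D_rec (by norm_num) (by norm_num), D1_V2]
    simp [w]

/-! ### The word -/

noncomputable def z (p : ℕ) : Fin 2 :=
  if ((p % 7 : ℕ) : ℤ) < 3 + (H (p / 7 + 1) - H (p / 7)) then 1 else 0

theorem z_block (n r : ℕ) (hr : r < 7) :
    z (7 * n + r) = if (r : ℤ) < 3 + (H (n + 1) - H n) then 1 else 0 := by
  unfold z
  have e1 : (7 * n + r) % 7 = r := by omega
  have e2 : (7 * n + r) / 7 = n := by omega
  rw [e1, e2]

noncomputable def P (p : ℕ) : ℤ := ∑ j ∈ Finset.range p, if z j = 1 then 1 else 0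

theorem P_succ (p : ℕ) : P (p + 1) = P p + if z p = 1 then 1 else 0 := by
  unfold P
  rw [Finset.sum_range_succ]

theorem P_mono (a b : ℕ) : 0 ≤ P (a + b) - P a ∧ P (a + b) - P a ≤ b := by
  induction b with
  | zero => simp
  | succ b ih =>
    rw [← add_assoc, P_succ]
    push_cast
    split_ifs <;> constructor <;> linarith [ih.1, ih.2]

theorem blk (s : ℤ) (h1 : -3 ≤ s) (h2 : s ≤ 3) :
    (if (0 : ℤ) < 3 + s then (1 : ℤ) else 0) + (if (1 : ℤ) < 3 + s then 1 else 0) +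
    (if (2 : ℤ) < 3 + s then 1 else 0) + (if (3 : ℤ) < 3 + s then 1 else 0) +
    (if (4 : ℤ) < 3 + s then 1 else 0) + (if (5 : ℤ) < 3 + s then 1 else 0) +
    (if (6 : ℤ) < 3 + s then 1 else 0) = 3 + s := by
  interval_cases s <;> rfl

theorem z_one (n r : ℕ) (hr : r < 7) : (if z (7 * n + r) = 1 then (1 : ℤ) else 0) =
    if (r : ℤ) < 3 + (H (n + 1) - H n) then 1 else 0 := by
  rw [z_block n r hr]
  split_ifs <;> simp_all

theorem P_block (n : ℕ) : P (7 * n) = 3 * n + H n := by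
  induction n with
  | zero => simp [P, H_zero]
  | succ n ih =>
    have e : 7 * (n + 1) = 7 * n + 6 + 1 := by ring
    rw [e, P_succ, P_succ (7 * n + 5), P_succ (7 * n + 4), P_succ (7 * n + 3), P_succ (7 * n + 2),
      P_succ (7 * n + 1)]
    have e0 := P_succ (7 * n)
    rw [e0, ih]
    have h0 := z_one n 0 (by norm_num)
    have h1 := z_one n 1 (by norm_num)
    have h2 := z_one n 2 (by norm_num)
    have h3 := z_one n 3 (by norm_num)
    have h4 := z_one n 4 (by norm_num)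
    have h5 := z_one n 5 (by norm_num)
    have h6 := z_one n 6 (by norm_num)
    rw [add_zero] at h0
    rw [h0, h1, h2, h3, h4, h5, h6]
    have hs := abs_le.1 (H_step n)
    have hb := blk (H (n + 1) - H n) hs.1 hs.2
    push_cast at hb ⊢
    linarith

/-- count of ones in the window of length `l` at `p` -/
noncomputable def cc (l p : ℕ) : ℤ := P (p + l) - P p

theorem cc_step (l p : ℕ) : |cc l (p + 1) - cc l p| ≤ 1 := by
  unfold cc
  have e : p + 1 + l = p + l + 1 := by ring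
  rw [e, P_succ, P_succ, abs_le]
  split_ifs <;> constructor <;> linarith

theorem cc_range (l p : ℕ) : 0 ≤ cc l p ∧ cc l p ≤ l := P_mono p l

theorem cc_block (N n : ℕ) : cc (7 * N) (7 * n) = 3 * N + (H (n + N) - H n) := by
  unfold cc
  rw [← mul_add, P_block, P_block]
  push_cast
  ring

theorem cc_near (N p : ℕ) : |cc (7 * N) p - (3 * N + (H (p / 7 + N) - H (p / 7)))| ≤ 6 := by
  rw [← cc_block]
  have h := Nat.div_add_mod p 7
  have hr := Nat.mod_lt p (by norm_num : 0 < 7)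
  have a1 := P_mono (7 * (p / 7)) (p % 7)
  have a2 := P_mono (7 * (p / 7) + 7 * N) (p % 7)
  have e1 : 7 * (p / 7) + 7 * N + p % 7 = p + 7 * N := by omega
  rw [e1] at a2
  rw [h] at a1
  unfold cc
  have hr' : ((p % 7 : ℕ) : ℤ) ≤ 6 := by omega
  rw [abs_le]
  constructor <;> linarith [a1.1, a1.2, a2.1, a2.2]

/-! ### Integer sequences with small steps -/

theorem ivt (c : ℕ → ℤ) (hc : ∀ p, |c (p + 1) - c p| ≤ 1) (a k : ℕ) (v : ℤ)
    (h : (c a ≤ v ∧ v ≤ c (a + k)) ∨ (c (a + k) ≤ v ∧ v ≤ c a)) : ∃ p, c p = v := by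
  induction k with
  | zero =>
    refine ⟨a, ?_⟩
    rw [add_zero] at h
    omega
  | succ k ih =>
    by_cases h1 : (c a ≤ v ∧ v ≤ c (a + k)) ∨ (c (a + k) ≤ v ∧ v ≤ c a)
    · exact ih h1
    · refine ⟨a + (k + 1), ?_⟩
      have h2 := abs_le.1 (hc (a + k))
      rw [add_assoc] at h2
      omega

theorem ivt' (c : ℕ → ℤ) (hc : ∀ p, |c (p + 1) - c p| ≤ 1) (a b : ℕ) (v : ℤ)
    (h1 : c a ≤ v) (h2 : v ≤ c b) : ∃ p, c p = v := by
  rcases Nat.le_total a b with h | h
  · obtain ⟨k, rfl⟩ := Nat.exists_eq_add_of_le h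
    exact ivt c hc a k v (Or.inl ⟨h1, h2⟩)
  · obtain ⟨k, rfl⟩ := Nat.exists_eq_add_of_le h
    exact ivt c hc b k v (Or.inr ⟨h1, h2⟩)

theorem ncard_ge (c : ℕ → ℤ) (hc : ∀ p, |c (p + 1) - c p| ≤ 1) (hf : (Set.range c).Finite)
    (a b : ℕ) : c b - c a + 1 ≤ ((Set.range c).ncard : ℤ) := by
  have h1 : Set.Icc (c a) (c b) ⊆ Set.range c := by
    intro v hv
    exact ivt' c hc a b v hv.1 hv.2
  have h2 := Set.ncard_le_ncard h1 hf
  have h3 : (Set.Icc (c a) (c b)).ncard = (c b + 1 - c a).toNat := by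
    rw [← Int.card_Icc, ← Set.ncard_coe_finset, Finset.coe_Icc]
  rw [h3] at h2
  omega

theorem ncard_le (c : ℕ → ℤ) (lo hi : ℤ) (h : ∀ p, lo ≤ c p ∧ c p ≤ hi) :
    ((Set.range c).ncard : ℤ) ≤ hi - lo + 1 := by
  have h1 : Set.range c ⊆ Set.Icc lo hi := by
    rintro _ ⟨p, rfl⟩
    exact h p
  have h2 := Set.ncard_le_ncard h1 (Set.finite_Icc lo hi)
  have h3 : (Set.Icc lo hi).ncard = (hi + 1 - lo).toNat := by
    rw [← Int.card_Icc, ← Set.ncard_coe_finset, Finset.coe_Icc]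
  rw [h3] at h2
  have h4 := h 0
  omega

theorem compare (c c' : ℕ → ℤ) (hc : ∀ p, |c (p + 1) - c p| ≤ 1) (hf : (Set.range c).Finite)
    (K C : ℤ) (h : ∀ p', ∃ p, |c' p' - K - c p| ≤ C) :
    ((Set.range c').ncard : ℤ) ≤ (Set.range c).ncard + 2 * C := by
  obtain ⟨_, ⟨a, rfl⟩, ha⟩ := Set.exists_min_image (Set.range c) id hf ⟨c 0, 0, rfl⟩
  obtain ⟨_, ⟨b, rfl⟩, hb⟩ := Set.exists_max_image (Set.range c) id hf ⟨c 0, 0, rfl⟩
  have h1 := ncard_ge c hc hf a b
  have h2 := ncard_le c' (c a + K - C) (c b + K + C) (by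
    intro p'
    obtain ⟨p, hp⟩ := h p'
    have h3 := ha (c p) ⟨p, rfl⟩
    have h4 := hb (c p) ⟨p, rfl⟩
    simp only [id] at h3 h4
    have h5 := abs_le.1 hp
    constructor <;> linarith [h5.1, h5.2])
  linarith

theorem cc_finite (l : ℕ) : (Set.range (cc l)).Finite := by
  apply (Set.finite_Icc (0 : ℤ) l).subset
  rintro _ ⟨p, rfl⟩
  exact cc_range l p

/-- the number of abelian classes -/
noncomputable def rr (l : ℕ) : ℤ := (Set.range (cc l)).ncard

theorem rr_upper (N : ℕ) (B : ℤ) (h : ∀ n, |H (n + N) - H n| ≤ B) : rr (7 * N) ≤ 2 * B + 13 := by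
  have h1 := ncard_le (cc (7 * N)) (3 * N - B - 6) (3 * N + B + 6) (by
    intro p
    have h2 := abs_le.1 (cc_near N p)
    have h3 := abs_le.1 (h (p / 7))
    constructor <;> linarith [h2.1, h2.2, h3.1, h3.2])
  unfold rr
  linarith

theorem rr_lower (N a b : ℕ) : (H (b + N) - H b) - (H (a + N) - H a) + 1 ≤ rr (7 * N) := by
  have h1 := ncard_ge (cc (7 * N)) (cc_step _) (cc_finite _) (7 * a) (7 * b)
  rw [cc_block, cc_block] at h1
  unfold rr
  linarith

theorem H_near (n k : ℕ) (hk : k < 7) : |H (n + k) - H n| ≤ 3 * k := by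
  induction k with
  | zero => simp
  | succ k ih =>
    have h1 := abs_le.1 (ih (by omega))
    have h2 := abs_le.1 (H_step (n + k))
    rw [← add_assoc, abs_le]
    push_cast
    constructor <;> linarith [h1.1, h1.2, h2.1, h2.2]

theorem rr_step (N : ℕ) : |rr (7 * (7 * N + 2)) - rr (7 * N)| ≤ 42 := by
  have h1 : rr (7 * (7 * N + 2)) ≤ rr (7 * N) + 2 * 21 := by
    apply compare (cc (7 * N)) (cc (7 * (7 * N + 2))) (cc_step _) (cc_finite _)
      (3 * (7 * N + 2) - 3 * N) 21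
    intro p'
    refine ⟨7 * (p' / 7 / 7), ?_⟩
    rw [cc_block]
    have a1 := abs_le.1 (cc_near (7 * N + 2) p')
    set n' := p' / 7 with hn'
    have e1 := Nat.div_add_mod n' 7
    have r1 := Nat.mod_lt n' (by norm_num : 0 < 7)
    have a2 := abs_le.1 (H_digit (n' / 7) (n' % 7) r1)
    rw [e1] at a2
    have e2 : n' + (7 * N + 2) = 7 * (n' / 7 + N + (n' % 7 + 2) / 7) + (n' % 7 + 2) % 7 := by omega
    have a3 := abs_le.1 (H_digit (n' / 7 + N + (n' % 7 + 2) / 7) ((n' % 7 + 2) % 7)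
      (Nat.mod_lt _ (by norm_num)))
    rw [← e2] at a3
    have a4 := abs_le.1 (H_near (n' / 7 + N) ((n' % 7 + 2) / 7) (by omega))
    have a5 : (((n' % 7 + 2) / 7 : ℕ) : ℤ) ≤ 1 := by omega
    rw [abs_le]
    push_cast at a1 ⊢
    constructor <;> linarith [a1.1, a1.2, a2.1, a2.2, a3.1, a3.2, a4.1, a4.2]
  have h2 : rr (7 * N) ≤ rr (7 * (7 * N + 2)) + 2 * 21 := by
    apply compare (cc (7 * (7 * N + 2))) (cc (7 * N)) (cc_step _) (cc_finite _)
      (3 * N - 3 * (7 * N + 2)) 21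
    intro p
    refine ⟨7 * (7 * (p / 7)), ?_⟩
    rw [cc_block]
    have a1 := abs_le.1 (cc_near N p)
    set n := p / 7 with hn
    have a2 := abs_le.1 (H_digit n 0 (by norm_num))
    rw [add_zero] at a2
    have e2 : 7 * n + (7 * N + 2) = 7 * (n + N) + 2 := by ring
    have a3 := abs_le.1 (H_digit (n + N) 2 (by norm_num))
    rw [e2, abs_le]
    push_cast
    constructor <;> linarith [a1.1, a1.2, a2.1, a2.2, a3.1, a3.2]
  rw [abs_le]
  constructor <;> linarith

end Pool.Agent.V11171.AbReg
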