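import Mathlib

set_option autoImplicit false

namespace Pool.Agent.V11171.Walk

/-! ### Parameters -/

theorem exists_pr (t : ℕ) : ∃ p : ℕ, p.Prime ∧ 2 ^ (t + 7) < p ∧ p ≤ 2 ^ (t + 8) := by
  obtain ⟨p, h1, h2, h3⟩ := Nat.exists_prime_lt_and_le_two_mul (2 ^ (t + 7)) (by positivity)
  refine ⟨p, h1, h2, ?_⟩
  have e : 2 ^ (t + 8) = 2 * 2 ^ (t + 7) := by rw [pow_succ 2 (t + 7)]; ring
  omega

noncomputable def pr (t : ℕ) : ℕ := (exists_pr t).choose

theorem pr_prime (t : ℕ) : (pr t).Prime := (exists_pr t).choose_spec.1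
theorem pr_gt (t : ℕ) : 2 ^ (t + 7) < pr t := (exists_pr t).choose_spec.2.1
theorem pr_le (t : ℕ) : pr t ≤ 2 ^ (t + 8) := (exists_pr t).choose_spec.2.2

theorem pr_gt128 (t : ℕ) : 128 < pr t := by
  have h1 := pr_gt t
  have h2 : 2 ^ 7 ≤ 2 ^ (t + 7) := Nat.pow_le_pow_right (by norm_num) (by omega)
  omega

theorem pr_lt_succ (t : ℕ) : pr t < pr (t + 1) := by
  have h1 := pr_le t
  have h2 := pr_gt (t + 1)
  rw [show t + 1 + 7 = t + 8 by ring] at h2
  omega

theorem pr_succ_le (t : ℕ) : pr (t + 1) ≤ 4 * pr t := by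
  have h1 := pr_gt t
  have h2 := pr_le (t + 1)
  rw [show t + 1 + 8 = t + 7 + 2 by ring, pow_add] at h2
  omega

noncomputable def m : ℕ → ℕ
  | 0 => 1
  | t + 1 => pr t * (pr (t + 1) * m t)

noncomputable def g : ℕ → ℕ
  | 0 => 1
  | t + 1 => pr (t + 1) * m t

noncomputable def c : ℕ → ℕ
  | 0 => 1
  | t + 1 => pr t

noncomputable def lam : ℕ → ℕ
  | 0 => 2
  | t + 1 => 2 * pr (t + 1) * lam t

theorem m_succ (t : ℕ) : m (t + 1) = pr t * (pr (t + 1) * m t) := rfl
theorem g_succ (t : ℕ) : g (t + 1) = pr (t + 1) * m t := rfl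
theorem c_succ (t : ℕ) : c (t + 1) = pr t := rfl
theorem lam_succ (t : ℕ) : lam (t + 1) = 2 * pr (t + 1) * lam t := rfl

theorem m_eq (t : ℕ) : m t = c t * g t := by
  cases t with
  | zero => rfl
  | succ t => rfl

theorem m_pos (t : ℕ) : 0 < m t := by
  induction t with
  | zero => exact Nat.one_pos
  | succ t ih =>
    rw [m_succ]
    have := pr_gt128 t
    have := pr_gt128 (t + 1)
    positivity

theorem g_pos (t : ℕ) : 0 < g t := by
  cases t with
  | zero => exact Nat.one_pos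
  | succ t =>
    rw [g_succ]
    have := pr_gt128 (t + 1)
    have := m_pos t
    positivity

theorem c_pos (t : ℕ) : 0 < c t := by
  cases t with
  | zero => exact Nat.one_pos
  | succ t =>
    rw [c_succ]
    have := pr_gt128 t
    omega

theorem lam_ge (t : ℕ) : 2 ≤ lam t := by
  induction t with
  | zero => exact le_rfl
  | succ t ih =>
    rw [lam_succ]
    have := pr_gt128 (t + 1)
    nlinarith

theorem m_dvd_succ (t : ℕ) : m t ∣ m (t + 1) := by
  rw [m_succ]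
  exact Dvd.dvd.mul_left (Dvd.intro_left _ rfl) _

theorem m_dvd {s t : ℕ} (h : s ≤ t) : m s ∣ m t := by
  induction t, h using Nat.le_induction with
  | base => exact dvd_rfl
  | succ t _ ih => exact ih.trans (m_dvd_succ t)

theorem m_dvd_g {s t : ℕ} (h : s < t) : m s ∣ g t := by
  obtain ⟨t, rfl⟩ : ∃ t', t = t' + 1 := ⟨t - 1, by omega⟩
  rw [g_succ]
  exact (m_dvd (by omega)).mul_left _

theorem div_m_succ (t i : ℕ) : i / m (t + 1) = i / m t / (pr t * pr (t + 1)) := by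
  rw [Nat.div_div_eq_div_mul, m_succ]
  congr 1
  ring

theorem div_g_succ (t i : ℕ) : i / g (t + 1) = i / m t / pr (t + 1) := by
  rw [Nat.div_div_eq_div_mul, g_succ]
  congr 1
  ring

theorem div_m_eq (t i : ℕ) : i / m t = i / g t / c t := by
  rw [Nat.div_div_eq_div_mul, m_eq]
  congr 1
  ring

theorem div_eq_of_dvd {a b i j : ℕ} (hab : a ∣ b) (h : i / a = j / a) : i / b = j / b := by
  obtain ⟨k, rfl⟩ := hab
  rw [← Nat.div_div_eq_div_mul, ← Nat.div_div_eq_div_mul, h]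

theorem m_ge (t : ℕ) : 2 ^ t ≤ m t := by
  induction t with
  | zero => exact le_rfl
  | succ t ih =>
    rw [m_succ, pow_succ]
    have h1 := pr_gt128 t
    have h2 := pr_gt128 (t + 1)
    have h3 : 2 * (1 * 2 ^ t) ≤ pr t * (pr (t + 1) * m t) :=
      Nat.mul_le_mul (by omega) (Nat.mul_le_mul (by omega) ih)
    omega

theorem sixteen_m (t : ℕ) : 16 * m t ≤ m (t + 1) := by
  rw [m_succ]
  have h1 := pr_gt128 t
  have h2 := pr_gt128 (t + 1)
  have h3 : 16 * (1 * m t) ≤ pr t * (pr (t + 1) * m t) :=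
    Nat.mul_le_mul (by omega) (Nat.mul_le_mul (by omega) le_rfl)
  omega

/-! ### Linear interpolation -/

noncomputable def lin (F : ℕ → ℝ) (g i : ℕ) : ℝ :=
  F (i / g) + (F (i / g + 1) - F (i / g)) * ((i % g : ℕ) : ℝ) / g

theorem lin_diff (F : ℕ → ℝ) (g i : ℕ) (hg : 0 < g) :
    lin F g (i + 1) - lin F g i = (F (i / g + 1) - F (i / g)) / g := by
  obtain ⟨s, r, hr, rfl⟩ : ∃ s r, r < g ∧ i = g * s + r :=
    ⟨i / g, i % g, Nat.mod_lt _ hg, (Nat.div_add_mod i g).symm⟩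
  have hg' : (g : ℝ) ≠ 0 := by
    have : (0 : ℝ) < g := by exact_mod_cast hg
    exact ne_of_gt this
  have e1 : (g * s + r) / g = s := by
    rw [Nat.mul_add_div hg, Nat.div_eq_of_lt hr, add_zero]
  have e2 : (g * s + r) % g = r := by
    rw [Nat.mul_add_mod, Nat.mod_eq_of_lt hr]
  unfold lin
  rw [e1, e2]
  by_cases h : r + 1 < g
  · have e3 : (g * s + r + 1) / g = s := by
      rw [add_assoc, Nat.mul_add_div hg, Nat.div_eq_of_lt h, add_zero]
    have e4 : (g * s + r + 1) % g = r + 1 := by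
      rw [add_assoc, Nat.mul_add_mod, Nat.mod_eq_of_lt h]
    rw [e3, e4]
    push_cast
    field_simp
    ring
  · have hr1 : r + 1 = g := by omega
    have e3 : (g * s + r + 1) / g = s + 1 := by
      rw [add_assoc, hr1, Nat.mul_add_div hg, Nat.div_self hg]
    have e4 : (g * s + r + 1) % g = 0 := by
      rw [add_assoc, hr1, Nat.mul_add_mod, Nat.mod_self]
    rw [e3, e4]
    have hr2 : (r : ℝ) = g - 1 := by
      have : ((r + 1 : ℕ) : ℝ) = g := by rw [hr1]
      push_cast at this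
      linarith
    rw [hr2]
    push_cast
    field_simp
    ring

theorem lin_affine (F : ℕ → ℝ) (g s i : ℕ) (hg : 0 < g) (h : i / g = s) :
    lin F g i = (F s - (F (s + 1) - F s) * s) + ((F (s + 1) - F s) / g) * i := by
  have hg' : (g : ℝ) ≠ 0 := by
    have : (0 : ℝ) < g := by exact_mod_cast hg
    exact ne_of_gt this
  have h1 := Nat.div_add_mod i g
  rw [h] at h1
  have h2 : (i : ℝ) = g * s + ((i % g : ℕ) : ℝ) := by exact_mod_cast h1.symm
  unfold lin
  rw [h]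
  have h3 : ((i % g : ℕ) : ℝ) = i - g * s := by linarith
  rw [h3]
  field_simp
  ring

/-! ### The levels -/

section Levels

variable (f : ℕ → ℕ → ℕ)

noncomputable def R (t i : ℕ) : ℝ := lin (fun s => ((f t (s / c t) : ℕ) : ℝ)) (g t) i

noncomputable def S (i : ℕ) : ℝ := ∑ t ∈ Finset.range (i + 1), (lam t : ℝ) * R f t i

variable {f}

theorem R_zero (hf0 : ∀ t, f t 0 = 0) {t i : ℕ} (h : i < t) : R f t i = 0 := by
  obtain ⟨t, rfl⟩ : ∃ t', t = t' + 1 := ⟨t - 1, by omega⟩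
  have h1 : i / g (t + 1) = 0 := by
    apply Nat.div_eq_of_lt
    rw [g_succ]
    have h2 := m_ge t
    have h3 := pr_gt128 (t + 1)
    have h4 : t < 2 ^ t := Nat.lt_two_pow_self
    nlinarith
  unfold R lin
  rw [h1]
  have h5 := pr_gt128 t
  have h6 : (0 + 1) / c (t + 1) = 0 := by
    rw [c_succ]
    exact Nat.div_eq_of_lt (by omega)
  simp only [h6, Nat.zero_div, hf0]
  simp

theorem S_eq (hf0 : ∀ t, f t 0 = 0) (i L : ℕ) (h : i + 1 ≤ L) :
    S f i = ∑ t ∈ Finset.range L, (lam t : ℝ) * R f t i := by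
  unfold S
  apply Finset.sum_subset (Finset.range_mono h)
  intro t _ h2
  rw [Finset.mem_range] at h2
  rw [R_zero hf0 (by omega), mul_zero]

theorem R_step (hf : ∀ t q, f t q < pr (t + 1)) (t i : ℕ) :
    |R f t (i + 1) - R f t i| ≤ (pr (t + 1) : ℝ) / g t := by
  unfold R
  rw [lin_diff _ _ _ (g_pos t), abs_div]
  have hg : (0 : ℝ) < g t := by exact_mod_cast g_pos t
  rw [abs_of_pos hg]
  apply div_le_div_of_nonneg_right _ hg.le
  have h1 := hf t ((i / g t + 1) / c t)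
  have h2 := hf t (i / g t / c t)
  have h3 : ((f t ((i / g t + 1) / c t) : ℕ) : ℝ) < pr (t + 1) := by exact_mod_cast h1
  have h4 : ((f t (i / g t / c t) : ℕ) : ℝ) < pr (t + 1) := by exact_mod_cast h2
  have h5 : (0 : ℝ) ≤ ((f t ((i / g t + 1) / c t) : ℕ) : ℝ) := by positivity
  have h6 : (0 : ℝ) ≤ ((f t (i / g t / c t) : ℕ) : ℝ) := by positivity
  rw [abs_le]
  constructor <;> linarith

theorem slope_nat (t : ℕ) : lam t * pr (t + 1) * 2 ^ t ≤ 2 ^ 17 * g t := by
  induction t with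
  | zero =>
    have h1 := pr_le 1
    simp only [lam, g]
    norm_num at h1 ⊢
    omega
  | succ t ih =>
    rw [lam_succ, g_succ]
    cases t with
    | zero =>
      have h1 := pr_le 2
      simp only [lam, m]
      norm_num at h1 ⊢
      nlinarith
    | succ t =>
      have h1 := pr_succ_le (t + 1 + 1)
      have h2 := pr_gt128 t
      rw [m_eq, c_succ, pow_succ]
      calc 2 * pr (t + 1 + 1) * lam (t + 1) * pr (t + 1 + 1 + 1) * (2 ^ (t + 1) * 2)
          = 4 * pr (t + 1 + 1) * (lam (t + 1) * pr (t + 1 + 1 + 1) * 2 ^ (t + 1)) := by ring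
        _ ≤ 4 * pr (t + 1 + 1) * (lam (t + 1) * (4 * pr (t + 1 + 1)) * 2 ^ (t + 1)) := by gcongr
        _ = 16 * pr (t + 1 + 1) * (lam (t + 1) * pr (t + 1 + 1) * 2 ^ (t + 1)) := by ring
        _ ≤ 16 * pr (t + 1 + 1) * (2 ^ 17 * g (t + 1)) := Nat.mul_le_mul_left _ ih
        _ ≤ pr t * pr (t + 1 + 1) * (2 ^ 17 * g (t + 1)) := by gcongr; omega
        _ = 2 ^ 17 * (pr (t + 1 + 1) * (pr t * g (t + 1))) := by ring

theorem slope (t : ℕ) : (lam t : ℝ) * ((pr (t + 1) : ℝ) / g t) ≤ 2 ^ 17 * (1 / 2) ^ t := by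
  have hg : (0 : ℝ) < g t := by exact_mod_cast g_pos t
  have h1 : ((lam t * pr (t + 1) * 2 ^ t : ℕ) : ℝ) ≤ ((2 ^ 17 * g t : ℕ) : ℝ) := by
    exact_mod_cast slope_nat t
  push_cast at h1
  rw [one_div, inv_pow, ← mul_div_assoc, div_le_iff₀ hg]
  have h2 : (0 : ℝ) < 2 ^ t := by positivity
  rw [← sub_nonneg]
  have : 2 ^ 17 * (2 ^ t : ℝ)⁻¹ * g t - (lam t : ℝ) * pr (t + 1) =
      (2 ^ 17 * g t - (lam t : ℝ) * pr (t + 1) * 2 ^ t) * (2 ^ t : ℝ)⁻¹ := by
    field_simp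
  rw [this]
  apply mul_nonneg
  · linarith
  · positivity

theorem S_step (hf0 : ∀ t, f t 0 = 0) (hf : ∀ t q, f t q < pr (t + 1)) (i : ℕ) :
    |S f (i + 1) - S f i| ≤ 2 ^ 18 := by
  rw [S_eq hf0 (i + 1) (i + 2) (by omega), S_eq hf0 i (i + 2) (by omega), ← Finset.sum_sub_distrib]
  calc |∑ t ∈ Finset.range (i + 2), ((lam t : ℝ) * R f t (i + 1) - (lam t : ℝ) * R f t i)|
      ≤ ∑ t ∈ Finset.range (i + 2), |(lam t : ℝ) * R f t (i + 1) - (lam t : ℝ) * R f t i| :=
        Finset.abs_sum_le_sum_abs _ _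
    _ ≤ ∑ t ∈ Finset.range (i + 2), 2 ^ 17 * (1 / 2 : ℝ) ^ t := by
        apply Finset.sum_le_sum
        intro t _
        rw [← mul_sub, abs_mul]
        have h0 : (0 : ℝ) ≤ lam t := by positivity
        rw [abs_of_nonneg h0]
        exact (mul_le_mul_of_nonneg_left (R_step hf t i) h0).trans (slope t)
    _ = 2 ^ 17 * ∑ t ∈ Finset.range (i + 2), (1 / 2 : ℝ) ^ t := by rw [Finset.mul_sum]
    _ ≤ 2 ^ 17 * 2 := by
        apply mul_le_mul_of_nonneg_left _ (by norm_num)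
        exact sum_geometric_two_le _
    _ = 2 ^ 18 := by norm_num

end Levels

/-! ### Vanishing of the digits -/

theorem digits_bound (T : ℕ) (Δ : ℕ → ℤ) (h : ∀ t < T, |Δ t| ≤ 2 * ((pr (t + 1) : ℤ) - 1)) :
    |∑ t ∈ Finset.range T, (lam t : ℤ) * Δ t| ≤ (lam T : ℤ) - 2 := by
  induction T with
  | zero => simp [lam]
  | succ T ih =>
    rw [Finset.sum_range_succ]
    have h1 := ih (fun t ht => h t (by omega))
    have h2 := h T (by omega)
    have h3 : |(lam T : ℤ) * Δ T| ≤ (lam T : ℤ) * (2 * ((pr (T + 1) : ℤ) - 1)) := by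
      rw [abs_mul, abs_of_nonneg (by positivity : (0 : ℤ) ≤ lam T)]
      exact mul_le_mul_of_nonneg_left h2 (by positivity)
    have h4 := abs_add_le (∑ t ∈ Finset.range T, (lam t : ℤ) * Δ t) ((lam T : ℤ) * Δ T)
    have h5 : ((lam (T + 1) : ℕ) : ℤ) = 2 * pr (T + 1) * lam T := by
      rw [lam_succ]; push_cast; ring
    rw [h5]
    have h6 : (0 : ℤ) ≤ lam T := by positivity
    nlinarith

theorem digits_zero (T : ℕ) : ∀ (Δ : ℕ → ℤ), (∀ t < T, |Δ t| ≤ 2 * ((pr (t + 1) : ℤ) - 1)) →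
    |∑ t ∈ Finset.range T, (lam t : ℤ) * Δ t| < 2 → ∀ t < T, Δ t = 0 := by
  induction T with
  | zero => intro Δ _ _ t ht; omega
  | succ T ih =>
    intro Δ h hs
    rw [Finset.sum_range_succ] at hs
    have h1 := digits_bound T Δ (fun t ht => h t (by omega))
    have hT : Δ T = 0 := by
      by_contra hne
      have h2 : 1 ≤ |Δ T| := Int.one_le_abs hne
      have h3 : |(lam T : ℤ) * Δ T| = (lam T : ℤ) * |Δ T| := by
        rw [abs_mul, abs_of_nonneg (by positivity : (0 : ℤ) ≤ lam T)]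
      have h4 : (lam T : ℤ) * 1 ≤ (lam T : ℤ) * |Δ T| :=
        mul_le_mul_of_nonneg_left h2 (by positivity)
      have h5 : |(lam T : ℤ) * Δ T| ≤
          |∑ t ∈ Finset.range T, (lam t : ℤ) * Δ t + (lam T : ℤ) * Δ T| +
          |∑ t ∈ Finset.range T, (lam t : ℤ) * Δ t| := by
        have := abs_sub (∑ t ∈ Finset.range T, (lam t : ℤ) * Δ t + (lam T : ℤ) * Δ T)
          (∑ t ∈ Finset.range T, (lam t : ℤ) * Δ t)
        have e : (∑ t ∈ Finset.range T, (lam t : ℤ) * Δ t + (lam T : ℤ) * Δ T) -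
          (∑ t ∈ Finset.range T, (lam t : ℤ) * Δ t) = (lam T : ℤ) * Δ T := by ring
        rw [e] at this
        exact this
      omega
    rw [hT, mul_zero, add_zero] at hs
    have h2 := ih Δ (fun t ht => h t (by omega)) hs
    intro t ht
    rcases Nat.lt_succ_iff_lt_or_eq.1 ht with h3 | h3
    · exact h2 t h3
    · rw [h3]; exact hT

/-! ### One step of the decoding -/

theorem prime_step {P : ℕ} (hP : P.Prime) (hP2 : 2 < P) (a b x : ℤ)
    (hab : ¬ (P : ℤ) ∣ (a - b))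
    (h : (P : ℤ) ∣ ((b ^ 2 - a ^ 2) - ((b + x) ^ 2 - (a + x) ^ 2))) : (P : ℤ) ∣ x := by
  have e : (b ^ 2 - a ^ 2) - ((b + x) ^ 2 - (a + x) ^ 2) = 2 * x * (a - b) := by ring
  rw [e] at h
  have hP' : Prime (P : ℤ) := Nat.prime_iff_prime_int.1 hP
  rcases hP'.dvd_or_dvd h with h1 | h1
  · rcases hP'.dvd_or_dvd h1 with h2 | h2
    · exfalso
      have := Int.le_of_dvd (by norm_num) h2
      omega
    · exact h2
  · exact absurd h1 hab

theorem mod_dvd (P : ℕ) (a : ℕ) : (P : ℤ) ∣ ((a : ℤ) - ((a % P : ℕ) : ℤ)) := by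
  have h := Nat.div_add_mod a P
  refine ⟨((a / P : ℕ) : ℤ), ?_⟩
  have h2 : ((P * (a / P) + a % P : ℕ) : ℤ) = (a : ℤ) := by rw [h]
  push_cast at h2 ⊢
  linarith

theorem sq_dvd {P : ℕ} (a b a' b' : ℕ)
    (h : (((b ^ 2 % P : ℕ) : ℤ) - ((a ^ 2 % P : ℕ) : ℤ)) -
      (((b' ^ 2 % P : ℕ) : ℤ) - ((a' ^ 2 % P : ℕ) : ℤ)) = 0) :
    (P : ℤ) ∣ (((b : ℤ) ^ 2 - (a : ℤ) ^ 2) - ((b' : ℤ) ^ 2 - (a' : ℤ) ^ 2)) := by
  have h1 := mod_dvd P (b ^ 2)
  have h2 := mod_dvd P (a ^ 2)
  have h3 := mod_dvd P (b' ^ 2)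
  have h4 := mod_dvd P (a' ^ 2)
  have h5 := dvd_sub (dvd_sub h1 h2) (dvd_sub h3 h4)
  have e : (((b : ℤ) ^ 2 - (a : ℤ) ^ 2) - ((b' : ℤ) ^ 2 - (a' : ℤ) ^ 2)) =
      (((((b ^ 2 : ℕ) : ℤ) - ((b ^ 2 % P : ℕ) : ℤ)) - (((a ^ 2 : ℕ) : ℤ) - ((a ^ 2 % P : ℕ) : ℤ))) -
      ((((b' ^ 2 : ℕ) : ℤ) - ((b' ^ 2 % P : ℕ) : ℤ)) -
        (((a' ^ 2 : ℕ) : ℤ) - ((a' ^ 2 % P : ℕ) : ℤ)))) +
      ((((b ^ 2 % P : ℕ) : ℤ) - ((a ^ 2 % P : ℕ) : ℤ)) -
      (((b' ^ 2 % P : ℕ) : ℤ) - ((a' ^ 2 % P : ℕ) : ℤ))) := by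
    push_cast
    ring
  rw [e, h, add_zero]
  exact h5

theorem not_dvd_of_mod_ne {P a b : ℕ} (h : a % P ≠ b % P) : ¬ (P : ℤ) ∣ ((a : ℤ) - b) := by
  intro h1
  apply h
  have h2 : (b : ℤ) ≡ a [ZMOD P] := (Int.modEq_iff_dvd).2 h1
  exact ((Int.natCast_modEq_iff.1 h2).symm)

/-- the decoding step -/
theorem decode {P P' : ℕ} (hP : P.Prime) (hP' : P'.Prime) (h2 : 2 < P) (hlt : P < P')
    (a b a' b' : ℕ) (haa : a / (P * P') = a' / (P * P'))
    (hc : ((b' : ℤ) - b) - ((a' : ℤ) - a) ≤ 1) (hc' : -1 ≤ ((b' : ℤ) - b) - ((a' : ℤ) - a))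
    (hn : a % P ≠ b % P) (hn' : a % P' ≠ b % P')
    (h0 : (((b % 3 : ℕ) : ℤ) - ((a % 3 : ℕ) : ℤ)) - (((b' % 3 : ℕ) : ℤ) - ((a' % 3 : ℕ) : ℤ)) = 0)
    (h1 : (((b ^ 2 % P : ℕ) : ℤ) - ((a ^ 2 % P : ℕ) : ℤ)) -
      (((b' ^ 2 % P : ℕ) : ℤ) - ((a' ^ 2 % P : ℕ) : ℤ)) = 0)
    (h1' : (((b ^ 2 % P' : ℕ) : ℤ) - ((a ^ 2 % P' : ℕ) : ℤ)) -
      (((b' ^ 2 % P' : ℕ) : ℤ) - ((a' ^ 2 % P' : ℕ) : ℤ)) = 0) : a = a' ∧ b = b' := by
  have hx : ((b' : ℤ) - b) = ((a' : ℤ) - a) := by omega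
  set x : ℤ := (a' : ℤ) - a with hxdef
  have ea : (a' : ℤ) = a + x := by omega
  have eb : (b' : ℤ) = b + x := by omega
  have d1 := sq_dvd a b a' b' h1
  have d2 := sq_dvd a b a' b' h1'
  rw [ea, eb] at d1 d2
  have d3 := prime_step hP h2 a b x (not_dvd_of_mod_ne hn) d1
  have d4 := prime_step hP' (by omega) a b x (not_dvd_of_mod_ne hn') d2
  have hcop : IsCoprime (P : ℤ) (P' : ℤ) := by
    rw [Nat.isCoprime_iff_coprime]
    rw [Nat.coprime_primes hP hP']
    omega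
  have d5 : ((P : ℤ) * P') ∣ x := hcop.mul_dvd d3 d4
  have hM : 0 < P * P' := Nat.mul_pos (by omega) (by omega)
  have hx0 : x = 0 := by
    by_contra hne
    have h5 := Int.le_of_dvd (abs_pos.2 hne) ((dvd_abs _ _).2 d5)
    have e1 := Nat.div_add_mod a (P * P')
    have e2 := Nat.div_add_mod a' (P * P')
    rw [← haa] at e2
    have r1 := Nat.mod_lt a hM
    have r2 := Nat.mod_lt a' hM
    have e3 : (a : ℤ) = (P * P' : ℕ) * ((a / (P * P') : ℕ) : ℤ) + ((a % (P * P') : ℕ) : ℤ) := by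
      exact_mod_cast e1.symm
    have e4 : (a' : ℤ) = (P * P' : ℕ) * ((a / (P * P') : ℕ) : ℤ) + ((a' % (P * P') : ℕ) : ℤ) := by
      exact_mod_cast e2.symm
    have e5 : x = ((a' % (P * P') : ℕ) : ℤ) - ((a % (P * P') : ℕ) : ℤ) := by
      rw [hxdef, e3, e4]
      push_cast
      ring
    have e6 : ((P * P' : ℕ) : ℤ) = (P : ℤ) * P' := by push_cast; ring
    rw [← e6] at h5
    rcases abs_cases x with h6 | h6 <;> omega
  constructor <;> omega

theorem carry {m i j i' j' : ℕ} (hm : 0 < m) (h : (j : ℤ) - i = (j' : ℤ) - i') :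
    (((j' / m : ℕ) : ℤ) - ((j / m : ℕ) : ℤ)) - (((i' / m : ℕ) : ℤ) - ((i / m : ℕ) : ℤ)) ≤ 1 ∧
    -1 ≤ (((j' / m : ℕ) : ℤ) - ((j / m : ℕ) : ℤ)) - (((i' / m : ℕ) : ℤ) - ((i / m : ℕ) : ℤ)) := by
  have e1 := Nat.div_add_mod i m
  have e2 := Nat.div_add_mod j m
  have e3 := Nat.div_add_mod i' m
  have e4 := Nat.div_add_mod j' m
  have r1 := Nat.mod_lt i hm
  have r2 := Nat.mod_lt j hm
  have r3 := Nat.mod_lt i' hm
  have r4 := Nat.mod_lt j' hm
  have key : (m : ℤ) * ((((j' / m : ℕ) : ℤ) - ((j / m : ℕ) : ℤ)) -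
      (((i' / m : ℕ) : ℤ) - ((i / m : ℕ) : ℤ))) =
      ((j % m : ℕ) : ℤ) + ((i' % m : ℕ) : ℤ) - ((j' % m : ℕ) : ℤ) - ((i % m : ℕ) : ℤ) := by
    have f1 : (m : ℤ) * ((i / m : ℕ) : ℤ) + ((i % m : ℕ) : ℤ) = i := by exact_mod_cast e1
    have f2 : (m : ℤ) * ((j / m : ℕ) : ℤ) + ((j % m : ℕ) : ℤ) = j := by exact_mod_cast e2
    have f3 : (m : ℤ) * ((i' / m : ℕ) : ℤ) + ((i' % m : ℕ) : ℤ) = i' := by exact_mod_cast e3
    have f4 : (m : ℤ) * ((j' / m : ℕ) : ℤ) + ((j' % m : ℕ) : ℤ) = j' := by exact_mod_cast e4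
    linarith
  set y := (((j' / m : ℕ) : ℤ) - ((j / m : ℕ) : ℤ)) - (((i' / m : ℕ) : ℤ) - ((i / m : ℕ) : ℤ))
  have hm' : (0 : ℤ) < m := by exact_mod_cast hm
  constructor
  · by_contra hcon
    have : (m : ℤ) * 2 ≤ m * y := mul_le_mul_of_nonneg_left (by omega) hm'.le
    omega
  · by_contra hcon
    have : (m : ℤ) * y ≤ m * (-2) := mul_le_mul_of_nonneg_left (by omega) hm'.le
    omega

/-! ### Good pairs -/

/-- `i` is in the plateau of level `t + 1` -/
def PL (t i : ℕ) : Prop := (i / g (t + 1)) % pr t + 1 < pr t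

/-- the digits of level `t` of `i` and `j` are incongruent -/
def NC (t i j : ℕ) : Prop :=
  (i / m t) % pr t ≠ (j / m t) % pr t ∧ (i / m t) % pr (t + 1) ≠ (j / m t) % pr (t + 1)

def GP (T i j : ℕ) : Prop := ∀ t < T, NC t i j ∧ PL t i ∧ PL t j

theorem R_level0 (f : ℕ → ℕ → ℕ) (i : ℕ) : R f 0 i = (f 0 (i / m 0) : ℕ) := by
  unfold R lin
  simp [g, c, m, Nat.mod_one]

theorem R_pl (f : ℕ → ℕ → ℕ) (t i : ℕ) (h : PL t i) : R f (t + 1) i = (f (t + 1) (i / m (t + 1)) : ℕ) := by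
  unfold PL at h
  have hp : 0 < pr t := by omega
  have h1 : (i / g (t + 1) + 1) / c (t + 1) = i / g (t + 1) / c (t + 1) := by
    rw [c_succ]
    have e := Nat.div_add_mod (i / g (t + 1)) (pr t)
    set s := i / g (t + 1)
    have e2 : s + 1 = pr t * (s / pr t) + (s % pr t + 1) := by omega
    rw [e2, Nat.mul_add_div hp, Nat.div_eq_of_lt h, add_zero]
  unfold R lin
  beta_reduce
  rw [h1, div_m_eq, sub_self, zero_mul, zero_div, add_zero]

theorem R_good (f : ℕ → ℕ → ℕ) (T i : ℕ) (h : ∀ t < T, PL t i) :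
    ∀ t ≤ T, R f t i = (f t (i / m t) : ℕ) := by
  intro t ht
  cases t with
  | zero => exact R_level0 f i
  | succ t => exact R_pl f t i (h t (by omega))

/-- the levels above `T` are affine on `X` -/
def Aff (f : ℕ → ℕ → ℕ) (T : ℕ) (X : ℕ → Prop) : Prop :=
  ∀ t, T < t → ∃ a b : ℝ, ∀ i, X i → R f t i = a + b * i

theorem second_diff {f : ℕ → ℕ → ℕ} (hf0 : ∀ t, f t 0 = 0) {T : ℕ} {X : ℕ → Prop}
    (hX : Aff f T X) {i j i' j' : ℕ} (hi : X i) (hj : X j) (hi' : X i') (hj' : X j')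
    (hij : (j : ℤ) - i = (j' : ℤ) - i')
    (ri : ∀ t ≤ T, R f t i = (f t (i / m t) : ℕ)) (rj : ∀ t ≤ T, R f t j = (f t (j / m t) : ℕ))
    (ri' : ∀ t ≤ T, R f t i' = (f t (i' / m t) : ℕ))
    (rj' : ∀ t ≤ T, R f t j' = (f t (j' / m t) : ℕ)) :
    (S f j - S f i) - (S f j' - S f i') =
      ((∑ t ∈ Finset.range (T + 1), (lam t : ℤ) * ((((f t (j / m t) : ℕ) : ℤ) -
        ((f t (i / m t) : ℕ) : ℤ)) - (((f t (j' / m t) : ℕ) : ℤ) - ((f t (i' / m t) : ℕ) : ℤ))) : ℤ) : ℝ) := by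
  set L := T + 1 + (i + 1) + (j + 1) + (i' + 1) + (j' + 1) with hL
  rw [S_eq hf0 i L (by omega), S_eq hf0 j L (by omega), S_eq hf0 i' L (by omega),
    S_eq hf0 j' L (by omega), ← Finset.sum_sub_distrib, ← Finset.sum_sub_distrib,
    ← Finset.sum_sub_distrib]
  have h1 : ∑ t ∈ Finset.range (T + 1), ((lam t : ℝ) * R f t j - (lam t : ℝ) * R f t i -
      ((lam t : ℝ) * R f t j' - (lam t : ℝ) * R f t i')) =
      ∑ t ∈ Finset.range L, ((lam t : ℝ) * R f t j - (lam t : ℝ) * R f t i -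
      ((lam t : ℝ) * R f t j' - (lam t : ℝ) * R f t i')) := by
    apply Finset.sum_subset (Finset.range_mono (by omega))
    intro t _ ht
    rw [Finset.mem_range] at ht
    obtain ⟨a, b, hab⟩ := hX t (by omega)
    rw [hab i hi, hab j hj, hab i' hi', hab j' hj']
    have e : (j : ℝ) - i - (j' - i') = 0 := by
      have : (((j : ℤ) - i : ℤ) : ℝ) = (((j' : ℤ) - i' : ℤ) : ℝ) := by rw [hij]
      push_cast at this
      linarith
    linear_combination ((lam t : ℝ) * b) * e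
  rw [← h1]
  push_cast
  apply Finset.sum_congr rfl
  intro t ht
  rw [Finset.mem_range] at ht
  rw [ri t (by omega), rj t (by omega), ri' t (by omega), rj' t (by omega)]
  ring

noncomputable def D (f : ℕ → ℕ → ℕ) (i : ℕ) : ℤ := ⌊S f i⌋

theorem all_zero {f : ℕ → ℕ → ℕ} (hf0 : ∀ t, f t 0 = 0) (hf : ∀ t q, f t q < pr (t + 1))
    {T : ℕ} {X : ℕ → Prop}
    (hX : Aff f T X) {i j i' j' : ℕ} (hi : X i) (hj : X j) (hi' : X i') (hj' : X j')
    (hij : (j : ℤ) - i = (j' : ℤ) - i')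
    (pi : ∀ t < T, PL t i) (pj : ∀ t < T, PL t j) (pi' : ∀ t < T, PL t i') (pj' : ∀ t < T, PL t j')
    (hD : D f j - D f i = D f j' - D f i') :
    ∀ t ≤ T, ((((f t (j / m t) : ℕ) : ℤ) - ((f t (i / m t) : ℕ) : ℤ)) -
      (((f t (j' / m t) : ℕ) : ℤ) - ((f t (i' / m t) : ℕ) : ℤ))) = 0 := by
  have h1 := second_diff hf0 hX hi hj hi' hj' hij (R_good f T i pi) (R_good f T j pj)
    (R_good f T i' pi') (R_good f T j' pj')
  set Δ : ℕ → ℤ := fun t => ((((f t (j / m t) : ℕ) : ℤ) - ((f t (i / m t) : ℕ) : ℤ)) -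
      (((f t (j' / m t) : ℕ) : ℤ) - ((f t (i' / m t) : ℕ) : ℤ))) with hΔ
  have h2 : |(((∑ t ∈ Finset.range (T + 1), (lam t : ℤ) * Δ t : ℤ)) : ℝ)| < 2 := by
    rw [← h1]
    have a1 := Int.floor_le (S f i)
    have a2 := Int.lt_floor_add_one (S f i)
    have b1 := Int.floor_le (S f j)
    have b2 := Int.lt_floor_add_one (S f j)
    have c1 := Int.floor_le (S f i')
    have c2 := Int.lt_floor_add_one (S f i')
    have d1 := Int.floor_le (S f j')
    have d2 := Int.lt_floor_add_one (S f j')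
    have e : (((D f j - D f i : ℤ)) : ℝ) = ((D f j' - D f i' : ℤ) : ℝ) := by rw [hD]
    unfold D at e
    push_cast at e
    rw [abs_lt]
    constructor <;> linarith
  have h3 : |∑ t ∈ Finset.range (T + 1), (lam t : ℤ) * Δ t| < 2 := by
    exact_mod_cast h2
  have h4 := digits_zero (T + 1) Δ (fun t _ => by
    have a1 := hf t (i / m t)
    have a2 := hf t (j / m t)
    have a3 := hf t (i' / m t)
    have a4 := hf t (j' / m t)
    rw [hΔ, abs_le]
    constructor <;> simp only <;> omega) h3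
  intro t ht
  exact h4 t (by omega)

/-- the three functions -/
def f0 (_t q : ℕ) : ℕ := q % 3
noncomputable def f1 (t q : ℕ) : ℕ := q ^ 2 % pr t
noncomputable def f2 (t q : ℕ) : ℕ := q ^ 2 % pr (t + 1)

theorem f0_zero (t : ℕ) : f0 t 0 = 0 := rfl
theorem f1_zero (t : ℕ) : f1 t 0 = 0 := by simp [f1]
theorem f2_zero (t : ℕ) : f2 t 0 = 0 := by simp [f2]
theorem f0_lt (t q : ℕ) : f0 t q < pr (t + 1) := by
  have h1 := pr_gt128 (t + 1)
  have h2 : q % 3 < 3 := Nat.mod_lt _ (by norm_num)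
  unfold f0
  omega
theorem f1_lt (t q : ℕ) : f1 t q < pr (t + 1) := by
  have h1 := pr_gt128 t
  have h2 := pr_lt_succ t
  have h3 : q ^ 2 % pr t < pr t := Nat.mod_lt _ (by omega)
  unfold f1
  omega
theorem f2_lt (t q : ℕ) : f2 t q < pr (t + 1) := by
  have h1 := pr_gt128 (t + 1)
  exact Nat.mod_lt _ (by omega)

/-- Main injectivity statement. -/
theorem inj {T : ℕ} {X : ℕ → Prop} {Q : ℕ} (hXQ : ∀ i, X i → i / m (T + 1) = Q)
    (hX0 : Aff f0 T X) (hX1 : Aff f1 T X) (hX2 : Aff f2 T X)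
    {i j i' j' : ℕ} (hi : X i) (hj : X j) (hi' : X i') (hj' : X j')
    (hij : (j : ℤ) - i = (j' : ℤ) - i') (hg : GP T i j) (hn : NC T i j) (hg' : GP T i' j')
    (hD0 : D f0 j - D f0 i = D f0 j' - D f0 i')
    (hD1 : D f1 j - D f1 i = D f1 j' - D f1 i')
    (hD2 : D f2 j - D f2 i = D f2 j' - D f2 i') : i = i' ∧ j = j' := by
  have pi : ∀ t < T, PL t i := fun t ht => (hg t ht).2.1
  have pj : ∀ t < T, PL t j := fun t ht => (hg t ht).2.2
  have pi' : ∀ t < T, PL t i' := fun t ht => (hg' t ht).2.1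
  have pj' : ∀ t < T, PL t j' := fun t ht => (hg' t ht).2.2
  have z0 := all_zero f0_zero f0_lt hX0 hi hj hi' hj' hij pi pj pi' pj' hD0
  have z1 := all_zero f1_zero f1_lt hX1 hi hj hi' hj' hij pi pj pi' pj' hD1
  have z2 := all_zero f2_zero f2_lt hX2 hi hj hi' hj' hij pi pj pi' pj' hD2
  have hnc : ∀ t ≤ T, NC t i j := by
    intro t ht
    rcases Nat.lt_or_eq_of_le ht with h | h
    · exact (hg t h).1
    · rw [h]; exact hn
  have key : ∀ s ≤ T + 1, i / m (T + 1 - s) = i' / m (T + 1 - s) ∧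
      j / m (T + 1 - s) = j' / m (T + 1 - s) := by
    intro s
    induction s with
    | zero =>
      intro _
      rw [Nat.sub_zero, hXQ i hi, hXQ i' hi', hXQ j hj, hXQ j' hj']
      exact ⟨rfl, rfl⟩
    | succ s ih =>
      intro hs
      obtain ⟨ih1, ih2⟩ := ih (by omega)
      obtain ⟨t, ht⟩ : ∃ t, t = T + 1 - (s + 1) := ⟨_, rfl⟩
      have ht1 : T + 1 - s = t + 1 := by omega
      have htT : t ≤ T := by omega
      rw [← ht]
      rw [ht1, div_m_succ, div_m_succ] at ih1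
      obtain ⟨cr1, cr2⟩ := carry (m_pos t) hij
      exact decode (pr_prime t) (pr_prime (t + 1)) (by have := pr_gt128 t; omega) (pr_lt_succ t)
        _ _ _ _ ih1 cr1 cr2 (hnc t htT).1 (hnc t htT).2 (z0 t htT) (z1 t htT) (z2 t htT)
  have h := key (T + 1) le_rfl
  rw [Nat.sub_self] at h
  simpa [m] using h

/-! ### Counting good pairs -/

theorem div_eq_iff' {m i u : ℕ} (hm : 0 < m) : i / m = u ↔ u * m ≤ i ∧ i < (u + 1) * m := by
  rw [← Nat.le_div_iff_mul_le hm, ← Nat.div_lt_iff_lt_mul hm]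
  omega

open Classical in
noncomputable def GG (T u v : ℕ) : Finset (ℕ × ℕ) :=
  ((Finset.Ico (u * m T) ((u + 1) * m T)) ×ˢ (Finset.Ico (v * m T) ((v + 1) * m T))).filter
    (fun p => GP T p.1 p.2)

theorem mem_GG {T u v : ℕ} {p : ℕ × ℕ} :
    p ∈ GG T u v ↔ p.1 / m T = u ∧ p.2 / m T = v ∧ GP T p.1 p.2 := by
  rw [div_eq_iff' (m_pos T), div_eq_iff' (m_pos T), ← and_assoc]
  simp only [GG, Finset.mem_filter, Finset.mem_product, Finset.mem_Ico]

def GDig (P P' : ℕ) : Finset (ℕ × ℕ) :=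
  ((Finset.range (P * P')) ×ˢ (Finset.range (P * P'))).filter
    (fun p => p.1 % P ≠ p.2 % P ∧ p.1 % P' ≠ p.2 % P' ∧ p.1 / P' + 1 < P ∧ p.2 / P' + 1 < P)

theorem card_mod (M P K : ℕ) (h : M ≤ P * K) :
    (((Finset.range M) ×ˢ (Finset.range M)).filter (fun p => p.1 % P = p.2 % P)).card ≤ M * K := by
  calc (((Finset.range M) ×ˢ (Finset.range M)).filter (fun p => p.1 % P = p.2 % P)).card
      ≤ ((Finset.range M) ×ˢ (Finset.range K)).card := by
        apply Finset.card_le_card_of_injOn (fun p => (p.1, p.2 / P))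
        · intro p hp
          simp only [Finset.coe_filter, Finset.mem_product, Finset.mem_range, Set.mem_ofPred_eq,
            Finset.coe_product, Finset.coe_range, Set.mem_prod, Set.mem_Iio] at hp ⊢
          refine ⟨hp.1.1, ?_⟩
          apply Nat.div_lt_of_lt_mul
          omega
        · intro p hp q hq hpq
          simp only [Finset.coe_filter, Finset.mem_product, Finset.mem_range,
            Set.mem_ofPred_eq] at hp hq
          simp only [Prod.mk.injEq] at hpq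
          obtain ⟨h1, h2⟩ := hpq
          have e1 := Nat.div_add_mod p.2 P
          have e2 := Nat.div_add_mod q.2 P
          have h3 : p.2 % P = q.2 % P := by rw [← hp.2, ← hq.2, h1]
          have h4 : p.2 = q.2 := by rw [← e1, ← e2, h2, h3]
          exact Prod.ext h1 h4
    _ = M * K := by simp

theorem card_top1 (P P' : ℕ) :
    (((Finset.range (P * P')) ×ˢ (Finset.range (P * P'))).filter
      (fun p => ¬ p.1 / P' + 1 < P)).card ≤ P * P' * P' := by
  calc (((Finset.range (P * P')) ×ˢ (Finset.range (P * P'))).filter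
      (fun p => ¬ p.1 / P' + 1 < P)).card
      ≤ ((Finset.range P') ×ˢ (Finset.range (P * P'))).card := by
        apply Finset.card_le_card_of_injOn (fun p => (p.1 % P', p.2))
        · intro p hp
          simp only [Finset.coe_filter, Finset.mem_product, Finset.mem_range, Set.mem_ofPred_eq,
            Finset.coe_product, Finset.coe_range, Set.mem_prod, Set.mem_Iio] at hp ⊢
          refine ⟨Nat.mod_lt _ ?_, hp.1.2⟩
          rcases Nat.eq_zero_or_pos P' with h | h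
          · subst h; simp at hp
          · exact h
        · intro p hp q hq hpq
          simp only [Finset.coe_filter, Finset.mem_product, Finset.mem_range,
            Set.mem_ofPred_eq] at hp hq
          simp only [Prod.mk.injEq] at hpq
          obtain ⟨h1, h2⟩ := hpq
          have e1 := Nat.div_add_mod p.1 P'
          have e2 := Nat.div_add_mod q.1 P'
          have a1 : p.1 / P' < P := Nat.div_lt_of_lt_mul (by rw [mul_comm]; exact hp.1.1)
          have a2 : q.1 / P' < P := Nat.div_lt_of_lt_mul (by rw [mul_comm]; exact hq.1.1)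
          have h3 : p.1 / P' = q.1 / P' := by omega
          have h4 : p.1 = q.1 := by rw [← e1, ← e2, h1, h3]
          exact Prod.ext h4 h2
    _ = P * P' * P' := by simp; ring

theorem card_top2 (P P' : ℕ) :
    (((Finset.range (P * P')) ×ˢ (Finset.range (P * P'))).filter
      (fun p => ¬ p.2 / P' + 1 < P)).card ≤ P * P' * P' := by
  refine le_trans (le_of_eq ?_) (card_top1 P P')
  apply Finset.card_bij (fun p _ => (p.2, p.1))
  · intro p hp
    simp only [Finset.mem_filter, Finset.mem_product] at hp ⊢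
    exact ⟨⟨hp.1.2, hp.1.1⟩, hp.2⟩
  · intro p _ q _ h
    simp only [Prod.mk.injEq] at h
    exact Prod.ext h.2 h.1
  · intro p hp
    simp only [Finset.mem_filter, Finset.mem_product] at hp
    refine ⟨(p.2, p.1), ?_, rfl⟩
    simp only [Finset.mem_filter, Finset.mem_product]
    exact ⟨⟨hp.1.2, hp.1.1⟩, hp.2⟩

theorem card_GDig (P P' : ℕ) (h : P ≤ P') :
    (P * P') * (P * P') ≤ (GDig P P').card + 4 * (P * P' * P') := by
  have h1 := card_mod (P * P') P P' le_rfl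
  have h2 := card_mod (P * P') P' P (by rw [mul_comm])
  have h3 := card_top1 P P'
  have h4 := card_top2 P P'
  have h5 : P * P' * P ≤ P * P' * P' := Nat.mul_le_mul_left _ h
  have h6 : (Finset.range (P * P')) ×ˢ (Finset.range (P * P')) ⊆ GDig P P' ∪
      ((((Finset.range (P * P')) ×ˢ (Finset.range (P * P'))).filter (fun p => p.1 % P = p.2 % P)) ∪
      ((((Finset.range (P * P')) ×ˢ (Finset.range (P * P'))).filter (fun p => p.1 % P' = p.2 % P')) ∪
      ((((Finset.range (P * P')) ×ˢ (Finset.range (P * P'))).filter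
        (fun p => ¬ p.1 / P' + 1 < P)) ∪
      (((Finset.range (P * P')) ×ˢ (Finset.range (P * P'))).filter
        (fun p => ¬ p.2 / P' + 1 < P))))) := by
    intro p hp
    simp only [GDig, Finset.mem_union, Finset.mem_filter, hp, true_and]
    tauto
  have h7 := Finset.card_le_card h6
  have u1 := Finset.card_union_le (GDig P P')
      ((((Finset.range (P * P')) ×ˢ (Finset.range (P * P'))).filter (fun p => p.1 % P = p.2 % P)) ∪
      ((((Finset.range (P * P')) ×ˢ (Finset.range (P * P'))).filter (fun p => p.1 % P' = p.2 % P')) ∪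
      ((((Finset.range (P * P')) ×ˢ (Finset.range (P * P'))).filter
        (fun p => ¬ p.1 / P' + 1 < P)) ∪
      (((Finset.range (P * P')) ×ˢ (Finset.range (P * P'))).filter
        (fun p => ¬ p.2 / P' + 1 < P)))))
  have u2 := Finset.card_union_le
      (((Finset.range (P * P')) ×ˢ (Finset.range (P * P'))).filter (fun p => p.1 % P = p.2 % P))
      ((((Finset.range (P * P')) ×ˢ (Finset.range (P * P'))).filter (fun p => p.1 % P' = p.2 % P')) ∪
      ((((Finset.range (P * P')) ×ˢ (Finset.range (P * P'))).filter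
        (fun p => ¬ p.1 / P' + 1 < P)) ∪
      (((Finset.range (P * P')) ×ˢ (Finset.range (P * P'))).filter
        (fun p => ¬ p.2 / P' + 1 < P))))
  have u3 := Finset.card_union_le
      (((Finset.range (P * P')) ×ˢ (Finset.range (P * P'))).filter (fun p => p.1 % P' = p.2 % P'))
      ((((Finset.range (P * P')) ×ˢ (Finset.range (P * P'))).filter
        (fun p => ¬ p.1 / P' + 1 < P)) ∪
      (((Finset.range (P * P')) ×ˢ (Finset.range (P * P'))).filter
        (fun p => ¬ p.2 / P' + 1 < P)))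
  have u4 := Finset.card_union_le
      (((Finset.range (P * P')) ×ˢ (Finset.range (P * P'))).filter
        (fun p => ¬ p.1 / P' + 1 < P))
      (((Finset.range (P * P')) ×ˢ (Finset.range (P * P'))).filter
        (fun p => ¬ p.2 / P' + 1 < P))
  have h8 : ((Finset.range (P * P')) ×ˢ (Finset.range (P * P'))).card = (P * P') * (P * P') := by
    simp
  rw [h8] at h7
  omega

theorem GP_succ {T i j : ℕ} : GP (T + 1) i j ↔ GP T i j ∧ NC T i j ∧ PL T i ∧ PL T j := by
  unfold GP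
  constructor
  · intro h
    exact ⟨fun t ht => h t (by omega), h T (by omega)⟩
  · rintro ⟨h1, h2⟩ t ht
    rcases Nat.lt_succ_iff_lt_or_eq.1 ht with h | h
    · exact h1 t h
    · rw [h]; exact h2

theorem dig_mod {P P' U a : ℕ} : (U * (P * P') + a) % P = a % P ∧
    (U * (P * P') + a) % P' = a % P' := by
  constructor
  · have e : U * (P * P') + a = P * (U * P') + a := by ring
    rw [e, Nat.mul_add_mod]
  · have e : U * (P * P') + a = P' * (U * P) + a := by ring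
    rw [e, Nat.mul_add_mod]

theorem dig_pl {P P' U a : ℕ} (hP' : 0 < P') (ha : a < P * P') :
    ((U * (P * P') + a) / P') % P = a / P' := by
  have e : U * (P * P') + a = P' * (U * P) + a := by ring
  have a1 : a / P' < P := Nat.div_lt_of_lt_mul (by rw [mul_comm]; exact ha)
  rw [e, Nat.mul_add_div hP', mul_comm U P, Nat.mul_add_mod, Nat.mod_eq_of_lt a1]

theorem GG_sub {T U V : ℕ} {d p : ℕ × ℕ} (hd : d ∈ GDig (pr T) (pr (T + 1)))
    (hp : p ∈ GG T (U * (pr T * pr (T + 1)) + d.1) (V * (pr T * pr (T + 1)) + d.2)) :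
    p ∈ GG (T + 1) U V := by
  rw [mem_GG] at hp ⊢
  simp only [GDig, Finset.mem_filter, Finset.mem_product, Finset.mem_range] at hd
  obtain ⟨⟨hd1, hd2⟩, hd3, hd4, hd5, hd6⟩ := hd
  obtain ⟨h1, h2, h3⟩ := hp
  have hP := pr_gt128 T
  have hP' := pr_gt128 (T + 1)
  have hM : 0 < pr T * pr (T + 1) := Nat.mul_pos (by omega) (by omega)
  refine ⟨?_, ?_, ?_⟩
  · rw [div_m_succ, h1, mul_comm, Nat.mul_add_div hM, Nat.div_eq_of_lt hd1, add_zero]
  · rw [div_m_succ, h2, mul_comm, Nat.mul_add_div hM, Nat.div_eq_of_lt hd2, add_zero]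
  · rw [GP_succ]
    refine ⟨h3, ?_, ?_, ?_⟩
    · unfold NC
      rw [h1, h2, dig_mod.1, dig_mod.1, dig_mod.2, dig_mod.2]
      exact ⟨hd3, hd4⟩
    · unfold PL
      rw [div_g_succ, h1, dig_pl (by omega) hd1]
      exact hd5
    · unfold PL
      rw [div_g_succ, h2, dig_pl (by omega) hd2]
      exact hd6

theorem GG_card_succ (T U V : ℕ) (K : ℝ) (h : ∀ u v, K ≤ (GG T u v).card) :
    ((GDig (pr T) (pr (T + 1))).card : ℝ) * K ≤ (GG (T + 1) U V).card := by
  classical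
  set B := (GDig (pr T) (pr (T + 1))).biUnion (fun d =>
    GG T (U * (pr T * pr (T + 1)) + d.1) (V * (pr T * pr (T + 1)) + d.2)) with hB
  have h1 : B ⊆ GG (T + 1) U V := by
    intro p hp
    rw [hB, Finset.mem_biUnion] at hp
    obtain ⟨d, hd, hp⟩ := hp
    exact GG_sub hd hp
  have h2 : B.card = ∑ d ∈ GDig (pr T) (pr (T + 1)),
      (GG T (U * (pr T * pr (T + 1)) + d.1) (V * (pr T * pr (T + 1)) + d.2)).card := by
    apply Finset.card_biUnion
    intro d _ d' _ hne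
    rw [Function.onFun, Finset.disjoint_left]
    intro p hp hp'
    rw [mem_GG] at hp hp'
    apply hne
    have e1 := hp.1.symm.trans hp'.1
    have e2 := hp.2.1.symm.trans hp'.2.1
    exact Prod.ext (by omega) (by omega)
  have h3 : (B.card : ℝ) ≤ (GG (T + 1) U V).card := by exact_mod_cast Finset.card_le_card h1
  refine le_trans ?_ h3
  rw [h2]
  push_cast
  rw [← nsmul_eq_mul]
  apply Finset.card_nsmul_le_sum
  intro d _
  exact h _ _

theorem GG_card (T : ℕ) : ∀ u v, (m T : ℝ) ^ 2 * (1 / 2 + (1 / 2) ^ (T + 1)) ≤ (GG T u v).card := by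
  induction T with
  | zero =>
    intro u v
    have : (u, v) ∈ GG 0 u v := by
      rw [mem_GG]
      refine ⟨by simp [m], by simp [m], ?_⟩
      intro t ht
      omega
    have h1 : 1 ≤ (GG 0 u v).card := Finset.card_pos.2 ⟨_, this⟩
    have h2 : (1 : ℝ) ≤ (GG 0 u v).card := by exact_mod_cast h1
    simp only [m]
    norm_num at h2 ⊢
    exact h2
  | succ T ih =>
    intro U V
    have h1 := GG_card_succ T U V ((m T : ℝ) ^ 2 * (1 / 2 + (1 / 2) ^ (T + 1))) ih
    refine le_trans ?_ h1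
    have h2 := card_GDig (pr T) (pr (T + 1)) (pr_lt_succ T).le
    have h3 : (((pr T * pr (T + 1)) * (pr T * pr (T + 1)) : ℕ) : ℝ) ≤
      (((GDig (pr T) (pr (T + 1))).card + 4 * (pr T * pr (T + 1) * pr (T + 1)) : ℕ) : ℝ) := by
      exact_mod_cast h2
    push_cast at h3
    have h4 : ((m (T + 1) : ℕ) : ℝ) = pr T * pr (T + 1) * m T := by
      rw [m_succ]; push_cast; ring
    rw [h4]
    have hP : (0 : ℝ) < pr T := by
      have := pr_gt128 T
      exact_mod_cast (by omega : 0 < pr T)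
    have hP' : (0 : ℝ) < pr (T + 1) := by
      have := pr_gt128 (T + 1)
      exact_mod_cast (by omega : 0 < pr (T + 1))
    have h5 : (2 : ℝ) ^ (T + 7) ≤ pr T := by
      have := pr_gt T
      exact_mod_cast this.le
    set P : ℝ := (pr T : ℝ)
    set P' : ℝ := (pr (T + 1) : ℝ)
    set w : ℝ := (1 / 2 : ℝ) ^ (T + 1) with hw
    have hw0 : 0 < w := by positivity
    have hw1 : w ≤ 1 / 2 := by
      rw [hw, pow_succ]
      have : (1 / 2 : ℝ) ^ T ≤ 1 := pow_le_one₀ (by norm_num) (by norm_num)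
      linarith
    have hPw : 16 ≤ P * w := by
      have e : (2 : ℝ) ^ (T + 7) * w = 64 := by
        rw [hw, show T + 7 = (T + 1) + 6 by ring, pow_add, mul_comm, ← mul_assoc, ← mul_pow]
        norm_num
      nlinarith
    have e2 : (1 / 2 : ℝ) ^ (T + 1 + 1) = w / 2 := by rw [pow_succ]; ring
    rw [e2]
    have h6 : (P * P') * (P * P') - 4 * (P * P' * P') ≤ ((GDig (pr T) (pr (T + 1))).card : ℝ) := by
      linarith
    have h7 : 0 ≤ (m T : ℝ) ^ 2 * (1 / 2 + w) := by positivity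
    refine le_trans ?_ (mul_le_mul_of_nonneg_right h6 h7)
    have h8 : (P * P' * (m T : ℝ)) ^ 2 * (1 / 2 + w / 2) =
        (P' ^ 2 * (m T : ℝ) ^ 2 * P) * (P * (1 / 2 + w / 2)) := by ring
    have h9 : ((P * P') * (P * P') - 4 * (P * P' * P')) * ((m T : ℝ) ^ 2 * (1 / 2 + w)) =
        (P' ^ 2 * (m T : ℝ) ^ 2 * P) * ((P - 4) * (1 / 2 + w)) := by ring
    rw [h8, h9]
    apply mul_le_mul_of_nonneg_left _ (by positivity)
    nlinarith

/-! ### Windows -/

/-- the condition on the interval `[A, B)` of blocks of level `T` -/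
def Win (T Q A B : ℕ) : Prop :=
  (Q * (pr T * pr (T + 1)) ≤ A ∧ B ≤ Q * (pr T * pr (T + 1)) + (pr T - 1) * pr (T + 1)) ∨
  (Q * (pr T * pr (T + 1)) + (pr T - 1) * pr (T + 1) ≤ A ∧ B ≤ (Q + 1) * (pr T * pr (T + 1)))

theorem win_div {T Q A B u : ℕ} (h : Win T Q A B) (h1 : A ≤ u) (h2 : u < B) :
    u / (pr T * pr (T + 1)) = Q := by
  have hP := pr_gt128 T
  have hP' := pr_gt128 (T + 1)
  have hM : 0 < pr T * pr (T + 1) := Nat.mul_pos (by omega) (by omega)
  have hle : (pr T - 1) * pr (T + 1) ≤ pr T * pr (T + 1) := Nat.mul_le_mul_right _ (by omega)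
  rw [div_eq_iff' hM]
  have e : (Q + 1) * (pr T * pr (T + 1)) = Q * (pr T * pr (T + 1)) + pr T * pr (T + 1) := by ring
  unfold Win at h
  rcases h with h | h
  · omega
  · omega

theorem aff_win (f : ℕ → ℕ → ℕ) {T Q A B : ℕ} (h : Win T Q A B) :
    Aff f T (fun i => A ≤ i / m T ∧ i / m T < B) := by
  have hP := pr_gt128 T
  have hP' := pr_gt128 (T + 1)
  have hM : 0 < pr T * pr (T + 1) := Nat.mul_pos (by omega) (by omega)
  intro t ht
  rcases Nat.lt_or_eq_of_le (Nat.succ_le_of_lt ht) with h1 | h1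
  · -- higher levels
    refine ⟨_, _, fun i hi => lin_affine _ (g t) (Q * m (T + 1) / g t) i (g_pos t) ?_⟩
    have h2 : i / m (T + 1) = Q := by
      rw [div_m_succ]
      exact win_div h hi.1 hi.2
    have h3 : Q * m (T + 1) / m (T + 1) = Q := Nat.mul_div_cancel _ (m_pos _)
    exact div_eq_of_dvd (m_dvd_g h1) (h2.trans h3.symm)
  · subst h1
    rcases h with h2 | h2
    · -- plateau
      refine ⟨((f (T + 1) Q : ℕ) : ℝ), 0, fun i hi => ?_⟩
      have h3 : i / m (T + 1) = Q := by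
        rw [div_m_succ]
        exact win_div (Or.inl h2) hi.1 hi.2
      have e1 := Nat.div_add_mod (i / m T) (pr (T + 1))
      have e2 := Nat.mod_lt (i / m T) (by omega : 0 < pr (T + 1))
      have h4 : i / g (T + 1) / c (T + 1) = Q := by rw [← div_m_eq]; exact h3
      have h5 : (i / g (T + 1) + 1) / c (T + 1) = Q := by
        rw [div_g_succ, c_succ, div_eq_iff' (by omega)]
        have h6 : Q * pr T ≤ i / m T / pr (T + 1) := by
          rw [Nat.le_div_iff_mul_le (by omega)]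
          calc Q * pr T * pr (T + 1) = Q * (pr T * pr (T + 1)) := by ring
            _ ≤ A := h2.1
            _ ≤ i / m T := hi.1
        have h7 : i / m T / pr (T + 1) < Q * pr T + (pr T - 1) := by
          rw [Nat.div_lt_iff_lt_mul (by omega)]
          calc i / m T < B := hi.2
            _ ≤ Q * (pr T * pr (T + 1)) + (pr T - 1) * pr (T + 1) := h2.2
            _ = (Q * pr T + (pr T - 1)) * pr (T + 1) := by ring
        have e3 : (Q + 1) * pr T = Q * pr T + pr T := by ring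
        omega
      unfold R lin
      beta_reduce
      rw [h4, h5]
      simp
    · -- ramp
      refine ⟨_, _, fun i hi => lin_affine _ (g (T + 1)) (Q * pr T + (pr T - 1)) i (g_pos _) ?_⟩
      rw [div_g_succ, div_eq_iff' (by omega)]
      constructor
      · calc (Q * pr T + (pr T - 1)) * pr (T + 1) =
            Q * (pr T * pr (T + 1)) + (pr T - 1) * pr (T + 1) := by ring
          _ ≤ A := h2.1
          _ ≤ i / m T := hi.1
      · calc i / m T < B := hi.2
          _ ≤ (Q + 1) * (pr T * pr (T + 1)) := h2.2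
          _ = (Q * pr T + (pr T - 1) + 1) * pr (T + 1) := by
              have : Q * pr T + (pr T - 1) + 1 = (Q + 1) * pr T := by
                have e3 : (Q + 1) * pr T = Q * pr T + pr T := by ring
                omega
              rw [this]; ring

/-- pairs of blocks of the top level -/
def TP (A h P P' : ℕ) : Finset (ℕ × ℕ) :=
  ((Finset.Ico A (A + h)) ×ˢ (Finset.Ico (A + h) (A + 2 * h))).filter
    (fun p => p.1 % P ≠ p.2 % P ∧ p.1 % P' ≠ p.2 % P')

theorem card_same (A h P : ℕ) (hP : 0 < P) :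
    P * (((Finset.Ico A (A + h)) ×ˢ (Finset.Ico (A + h) (A + 2 * h))).filter
    (fun p => p.1 % P = p.2 % P)).card ≤ 2 * (h * h) := by
  have h1 : (((Finset.Ico A (A + h)) ×ˢ (Finset.Ico (A + h) (A + 2 * h))).filter
    (fun p => p.1 % P = p.2 % P)).card ≤ h * (2 * h / P) := by
    calc (((Finset.Ico A (A + h)) ×ˢ (Finset.Ico (A + h) (A + 2 * h))).filter
        (fun p => p.1 % P = p.2 % P)).card
        ≤ ((Finset.Ico A (A + h)) ×ˢ (Finset.Icc 1 (2 * h / P))).card := by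
          apply Finset.card_le_card_of_injOn (fun p => (p.1, (p.2 - p.1) / P))
          · intro p hp
            simp only [Finset.coe_filter, Finset.mem_product, Finset.mem_Ico, Set.mem_ofPred_eq,
              Finset.coe_product, Finset.coe_Ico, Finset.coe_Icc, Set.mem_prod, Set.mem_Ico,
              Set.mem_Icc] at hp ⊢
            refine ⟨hp.1.1, ?_, ?_⟩
            · have h2 : P ∣ p.2 - p.1 := Nat.dvd_of_mod_eq_zero (Nat.sub_mod_eq_zero_of_mod_eq hp.2.symm)
              have h3 := Nat.le_of_dvd (by omega) h2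
              exact (Nat.one_le_div_iff hP).2 h3
            · exact Nat.div_le_div_right (by omega)
          · intro p hp q hq hpq
            simp only [Finset.coe_filter, Finset.mem_product, Finset.mem_Ico,
              Set.mem_ofPred_eq] at hp hq
            simp only [Prod.mk.injEq] at hpq
            obtain ⟨e1, e2⟩ := hpq
            have h2 : P ∣ p.2 - p.1 := Nat.dvd_of_mod_eq_zero (Nat.sub_mod_eq_zero_of_mod_eq hp.2.symm)
            have h3 : P ∣ q.2 - q.1 := Nat.dvd_of_mod_eq_zero (Nat.sub_mod_eq_zero_of_mod_eq hq.2.symm)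
            have h4 := Nat.div_mul_cancel h2
            have h5 := Nat.div_mul_cancel h3
            rw [e2] at h4
            exact Prod.ext e1 (by omega)
      _ = h * (2 * h / P) := by simp
  calc P * (((Finset.Ico A (A + h)) ×ˢ (Finset.Ico (A + h) (A + 2 * h))).filter
    (fun p => p.1 % P = p.2 % P)).card ≤ P * (h * (2 * h / P)) := Nat.mul_le_mul_left _ h1
    _ = h * (P * (2 * h / P)) := by ring
    _ ≤ h * (2 * h) := Nat.mul_le_mul_left _ (Nat.mul_div_le _ _)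
    _ = 2 * (h * h) := by ring

theorem card_TP (A h P P' : ℕ) (hP : 128 < P) (hP' : 128 < P') :
    h * h ≤ 2 * (TP A h P P').card := by
  have h1 := card_same A h P (by omega)
  have h2 := card_same A h P' (by omega)
  have h3 : (Finset.Ico A (A + h)) ×ˢ (Finset.Ico (A + h) (A + 2 * h)) ⊆ TP A h P P' ∪
      ((((Finset.Ico A (A + h)) ×ˢ (Finset.Ico (A + h) (A + 2 * h))).filter
    (fun p => p.1 % P = p.2 % P)) ∪
      (((Finset.Ico A (A + h)) ×ˢ (Finset.Ico (A + h) (A + 2 * h))).filter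
    (fun p => p.1 % P' = p.2 % P'))) := by
    intro p hp
    simp only [TP, Finset.mem_union, Finset.mem_filter, hp, true_and]
    tauto
  have h7 := Finset.card_le_card h3
  have u1 := Finset.card_union_le (TP A h P P')
      ((((Finset.Ico A (A + h)) ×ˢ (Finset.Ico (A + h) (A + 2 * h))).filter
    (fun p => p.1 % P = p.2 % P)) ∪
      (((Finset.Ico A (A + h)) ×ˢ (Finset.Ico (A + h) (A + 2 * h))).filter
    (fun p => p.1 % P' = p.2 % P')))
  have u2 := Finset.card_union_le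
      (((Finset.Ico A (A + h)) ×ˢ (Finset.Ico (A + h) (A + 2 * h))).filter
    (fun p => p.1 % P = p.2 % P))
      (((Finset.Ico A (A + h)) ×ˢ (Finset.Ico (A + h) (A + 2 * h))).filter
    (fun p => p.1 % P' = p.2 % P'))
  have h8 : ((Finset.Ico A (A + h)) ×ˢ (Finset.Ico (A + h) (A + 2 * h))).card = h * h := by
    rw [Finset.card_product, Nat.card_Ico, Nat.card_Ico]
    congr 1 <;> omega
  rw [h8] at h7
  generalize (((Finset.Ico A (A + h)) ×ˢ (Finset.Ico (A + h) (A + 2 * h))).filter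
    (fun p => p.1 % P = p.2 % P)).card = x at *
  generalize (((Finset.Ico A (A + h)) ×ˢ (Finset.Ico (A + h) (A + 2 * h))).filter
    (fun p => p.1 % P' = p.2 % P')).card = y at *
  have h9 : 128 * x ≤ P * x := Nat.mul_le_mul_right _ hP.le
  have h10 : 128 * y ≤ P' * y := Nat.mul_le_mul_right _ hP'.le
  omega

theorem pairs (T Q A h : ℕ) (hW : Win T Q A (A + 2 * h)) :
    ∃ W : Finset (ℕ × ℕ), ((h : ℝ) * m T) ^ 2 / 4 ≤ W.card ∧
      (∀ p ∈ W, A * m T ≤ p.1 ∧ p.1 < p.2 ∧ p.2 < (A + 2 * h) * m T) ∧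
      ∀ p ∈ W, ∀ q ∈ W, (p.2 : ℤ) - p.1 = (q.2 : ℤ) - q.1 →
        D f0 p.2 - D f0 p.1 = D f0 q.2 - D f0 q.1 →
        D f1 p.2 - D f1 p.1 = D f1 q.2 - D f1 q.1 →
        D f2 p.2 - D f2 p.1 = D f2 q.2 - D f2 q.1 → p = q := by
  classical
  have hm := m_pos T
  set W := (TP A h (pr T) (pr (T + 1))).biUnion (fun d => GG T d.1 d.2) with hWdef
  have hmem : ∀ p ∈ W, GP T p.1 p.2 ∧ NC T p.1 p.2 ∧ (A ≤ p.1 / m T ∧ p.1 / m T < A + h) ∧
      (A + h ≤ p.2 / m T ∧ p.2 / m T < A + 2 * h) := by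
    intro p hp
    rw [hWdef, Finset.mem_biUnion] at hp
    obtain ⟨d, hd, hp⟩ := hp
    rw [mem_GG] at hp
    simp only [TP, Finset.mem_filter, Finset.mem_product, Finset.mem_Ico] at hd
    refine ⟨hp.2.2, ?_, ?_, ?_⟩
    · unfold NC
      rw [hp.1, hp.2.1]
      exact hd.2
    · rw [hp.1]; exact hd.1.1
    · rw [hp.2.1]; exact hd.1.2
  refine ⟨W, ?_, ?_, ?_⟩
  · have h2 : W.card = ∑ d ∈ TP A h (pr T) (pr (T + 1)), (GG T d.1 d.2).card := by
      apply Finset.card_biUnion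
      intro d _ d' _ hne
      rw [Function.onFun, Finset.disjoint_left]
      intro p hp hp'
      rw [mem_GG] at hp hp'
      apply hne
      have e1 := hp.1.symm.trans hp'.1
      have e2 := hp.2.1.symm.trans hp'.2.1
      exact Prod.ext e1 e2
    have h3 : ((TP A h (pr T) (pr (T + 1))).card : ℝ) * ((m T : ℝ) ^ 2 / 2) ≤ (W.card : ℝ) := by
      rw [h2]
      push_cast
      rw [← nsmul_eq_mul]
      apply Finset.card_nsmul_le_sum
      intro d _
      refine le_trans ?_ (GG_card T d.1 d.2)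
      have h4 : (0 : ℝ) ≤ (1 / 2 : ℝ) ^ (T + 1) := by positivity
      have h5 : (0 : ℝ) ≤ (m T : ℝ) ^ 2 := by positivity
      nlinarith
    have h4 := card_TP A h (pr T) (pr (T + 1)) (pr_gt128 T) (pr_gt128 (T + 1))
    have h5 : ((h * h : ℕ) : ℝ) ≤ ((2 * (TP A h (pr T) (pr (T + 1))).card : ℕ) : ℝ) := by
      exact_mod_cast h4
    push_cast at h5
    have h6 : (0 : ℝ) ≤ (m T : ℝ) ^ 2 := by positivity
    nlinarith
  · intro p hp
    obtain ⟨_, _, h3, h4⟩ := hmem p hp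
    refine ⟨?_, ?_, ?_⟩
    · exact (Nat.le_div_iff_mul_le hm).1 h3.1
    · by_contra hcon
      have := Nat.div_le_div_right (c := m T) (not_lt.1 hcon)
      omega
    · exact (Nat.div_lt_iff_lt_mul hm).1 h4.2
  · intro p hp q hq hk e0 e1 e2
    obtain ⟨p1, p2, p3, p4⟩ := hmem p hp
    obtain ⟨q1, q2, q3, q4⟩ := hmem q hq
    have := inj (T := T) (X := fun i => A ≤ i / m T ∧ i / m T < A + 2 * h) (Q := Q)
      (fun i hi => by rw [div_m_succ]; exact win_div hW hi.1 hi.2)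
      (aff_win f0 hW) (aff_win f1 hW) (aff_win f2 hW)
      (i := p.1) (j := p.2) (i' := q.1) (j' := q.2)
      ⟨p3.1, by omega⟩ ⟨by omega, p4.2⟩ ⟨q3.1, by omega⟩ ⟨by omega, q4.2⟩
      hk p1 p2 q1 e0 e1 e2
    exact Prod.ext this.1 this.2

/-- cutting an interval at three points -/
theorem cut (U N c0 c1 c2 c3 c4 : ℕ) (h0 : c0 ≤ U) (h4 : U + N ≤ c4) (hN : 15 ≤ N)
    (h01 : c0 ≤ c1) (h12 : c1 ≤ c2) (h23 : c2 ≤ c3) (h34 : c3 ≤ c4) :
    ∃ A h, U ≤ A ∧ A + 2 * h ≤ U + N ∧ N ≤ 16 * h ∧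
      ((c0 ≤ A ∧ A + 2 * h ≤ c1) ∨ (c1 ≤ A ∧ A + 2 * h ≤ c2) ∨ (c2 ≤ A ∧ A + 2 * h ≤ c3) ∨
        (c3 ≤ A ∧ A + 2 * h ≤ c4)) := by
  by_cases a1 : N ≤ 4 * (min (U + N) c1 - max U c0)
  · refine ⟨max U c0, (min (U + N) c1 - max U c0) / 2, ?_, ?_, ?_, Or.inl ⟨?_, ?_⟩⟩ <;> omega
  by_cases a2 : N ≤ 4 * (min (U + N) c2 - max U c1)
  · refine ⟨max U c1, (min (U + N) c2 - max U c1) / 2, ?_, ?_, ?_, Or.inr (Or.inl ⟨?_, ?_⟩)⟩ <;>
      omega
  by_cases a3 : N ≤ 4 * (min (U + N) c3 - max U c2)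
  · refine ⟨max U c2, (min (U + N) c3 - max U c2) / 2, ?_, ?_, ?_,
      Or.inr (Or.inr (Or.inl ⟨?_, ?_⟩))⟩ <;> omega
  · refine ⟨max U c3, (min (U + N) c4 - max U c3) / 2, ?_, ?_, ?_,
      Or.inr (Or.inr (Or.inr ⟨?_, ?_⟩))⟩ <;> omega

theorem exists_level (n : ℕ) (hn : 16 ≤ n) : ∃ T, 16 * m T ≤ n ∧ n < 16 * m (T + 1) := by
  have hex : ∃ t, n < 16 * m t := ⟨n, by
    have h1 := m_ge n
    have h2 : n < 2 ^ n := Nat.lt_two_pow_self
    omega⟩
  classical
  have h1 := Nat.find_spec hex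
  have h2 : Nat.find hex ≠ 0 := by
    intro h0
    rw [h0] at h1
    simp only [m] at h1
    omega
  refine ⟨Nat.find hex - 1, ?_, ?_⟩
  · have := Nat.find_min hex (m := Nat.find hex - 1) (by omega)
    omega
  · have e : Nat.find hex - 1 + 1 = Nat.find hex := by omega
    rw [e]
    exact h1

theorem window (a n : ℕ) (hn : 16 ≤ n) : ∃ T Q A h, Win T Q A (A + 2 * h) ∧ a ≤ A * m T ∧
    (A + 2 * h) * m T ≤ a + n ∧ n ≤ 512 * (h * m T) := by
  obtain ⟨T, h1, h2⟩ := exists_level n hn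
  have hm := m_pos T
  have hP := pr_gt128 T
  have hP' := pr_gt128 (T + 1)
  have hM : 0 < pr T * pr (T + 1) := Nat.mul_pos (by omega) (by omega)
  have h16 := sixteen_m T
  set n' := min n (m (T + 1)) with hn'
  have hn1 : 16 * m T ≤ n' := by omega
  have hn2 : n ≤ 16 * n' := by omega
  set U := a / m T + 1 with hU
  obtain ⟨N, hN⟩ : ∃ N, n' / m T = N + 1 := ⟨n' / m T - 1, by
    have : 16 ≤ n' / m T := (Nat.le_div_iff_mul_le hm).2 hn1
    omega⟩
  have hN15 : 15 ≤ N := by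
    have : 16 ≤ n' / m T := (Nat.le_div_iff_mul_le hm).2 hn1
    omega
  have hNM : N ≤ pr T * pr (T + 1) := by
    have h3 : n' / m T ≤ m (T + 1) / m T := Nat.div_le_div_right (by omega)
    have h4 : m (T + 1) / m T = pr T * pr (T + 1) := by
      rw [m_succ, ← mul_assoc]
      exact Nat.mul_div_cancel _ hm
    omega
  have hdiv : n' < (N + 2) * m T := by
    have := Nat.lt_div_mul_add hm (a := n')
    rw [hN] at this
    have e : (N + 2) * m T = (N + 1) * m T + m T := by ring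
    omega
  have hdiv2 : (N + 1) * m T ≤ n' := by
    rw [← hN]
    exact Nat.div_mul_le_self _ _
  set Q := U / (pr T * pr (T + 1)) with hQ
  have hle : (pr T - 1) * pr (T + 1) ≤ pr T * pr (T + 1) := Nat.mul_le_mul_right _ (by omega)
  have hQ1 : Q * (pr T * pr (T + 1)) ≤ U := Nat.div_mul_le_self _ _
  have hQ2 : U < Q * (pr T * pr (T + 1)) + pr T * pr (T + 1) := Nat.lt_div_mul_add hM
  have e1 : (Q + 1) * (pr T * pr (T + 1)) = Q * (pr T * pr (T + 1)) + pr T * pr (T + 1) := by ring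
  have e2 : (Q + 1 + 1) * (pr T * pr (T + 1)) =
    Q * (pr T * pr (T + 1)) + pr T * pr (T + 1) + pr T * pr (T + 1) := by ring
  obtain ⟨A, h, b1, b2, b3, b4⟩ := cut U N (Q * (pr T * pr (T + 1)))
    (Q * (pr T * pr (T + 1)) + (pr T - 1) * pr (T + 1)) ((Q + 1) * (pr T * pr (T + 1)))
    ((Q + 1) * (pr T * pr (T + 1)) + (pr T - 1) * pr (T + 1)) ((Q + 1 + 1) * (pr T * pr (T + 1)))
    hQ1 (by omega) hN15 (by omega) (by omega) (by omega) (by omega)
  have c1 : a ≤ A * m T := by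
    have h5 : a < a / m T * m T + m T := Nat.lt_div_mul_add hm
    have h6 : U * m T ≤ A * m T := Nat.mul_le_mul_right _ b1
    have h7 : U * m T = a / m T * m T + m T := by rw [hU]; ring
    omega
  have c2 : (A + 2 * h) * m T ≤ a + n := by
    have h6 : (A + 2 * h) * m T ≤ (U + N) * m T := Nat.mul_le_mul_right _ b2
    have h7 : (U + N) * m T = a / m T * m T + (N + 1) * m T := by rw [hU]; ring
    have h8 : a / m T * m T ≤ a := Nat.div_mul_le_self _ _
    omega
  have c3 : n ≤ 512 * (h * m T) := by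
    have h6 : (N + 2) * m T ≤ (2 * N) * m T := Nat.mul_le_mul_right _ (by omega)
    have h7 : N * m T ≤ (16 * h) * m T := Nat.mul_le_mul_right _ b3
    have e3 : (2 * N) * m T = 2 * (N * m T) := by ring
    have e4 : (16 * h) * m T = 16 * (h * m T) := by ring
    omega
  rcases b4 with b | b | b | b
  · exact ⟨T, Q, A, h, Or.inl b, c1, c2, c3⟩
  · exact ⟨T, Q, A, h, Or.inr b, c1, c2, c3⟩
  · exact ⟨T, Q + 1, A, h, Or.inl b, c1, c2, c3⟩
  · exact ⟨T, Q + 1, A, h, Or.inr b, c1, c2, c3⟩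

theorem D_step {f : ℕ → ℕ → ℕ} (hf0 : ∀ t, f t 0 = 0) (hf : ∀ t q, f t q < pr (t + 1)) (i : ℕ) :
    |D f (i + 1) - D f i| ≤ 2 ^ 18 + 1 := by
  have h1 := S_step hf0 hf i
  have a1 := Int.floor_le (S f i)
  have a2 := Int.lt_floor_add_one (S f i)
  have b1 := Int.floor_le (S f (i + 1))
  have b2 := Int.lt_floor_add_one (S f (i + 1))
  rw [abs_le] at h1 ⊢
  have h2 : (((D f (i + 1) - D f i : ℤ)) : ℝ) < ((2 ^ 18 + 1 : ℤ) : ℝ) := by
    unfold D
    push_cast
    linarith [h1.2]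
  have h3 : ((-(2 ^ 18 + 1) : ℤ) : ℝ) < (((D f (i + 1) - D f i : ℤ)) : ℝ) := by
    unfold D
    push_cast
    linarith [h1.1]
  constructor
  · exact le_of_lt (by exact_mod_cast h3)
  · exact le_of_lt (by exact_mod_cast h2)

end Pool.Agent.V11171.Walk
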